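import Pool.Agent.TH867.SR.LB

/-! Many triples with a small smallest member: the lower bound (helper314, copied by helper867). -/

set_option autoImplicit false

namespace Pool.Agent.TH867.SB.Lb

open Finset
open Pool.Agent.TH867.SR

/-- coprime pairs in a rectangle -/
def rect (N T : ℕ) : Finset (ℕ × ℕ) :=
  ((Finset.Ioc 0 N) ×ˢ (Finset.Ioc 0 T)).filter fun p => Nat.Coprime p.1 p.2

theorem rect_count (N T : ℕ) : (N : ℝ) * T / 4 ≤ ((rect N T).card : ℝ) := by
  classical
  set P := (Finset.Ioc 0 N) ×ˢ (Finset.Ioc 0 T) with hP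
  set Q' := P.filter fun p => ¬ Nat.Coprime p.1 p.2 with hQ'
  have hQ : rect N T = P.filter fun p => Nat.Coprime p.1 p.2 := rfl
  have hPc : P.card = N * T := by
    rw [hP, Finset.card_product, Nat.card_Ioc, Nat.card_Ioc, Nat.sub_zero, Nat.sub_zero]
  have h1 : P.card = (rect N T).card + Q'.card := by
    rw [hQ]
    exact (Finset.card_filter_add_card_filter_not (s := P) (fun p => Nat.Coprime p.1 p.2)).symm
  have h2 : Q'.card ≤ ∑ d ∈ Finset.Icc 2 (N + 2), (N / d) * (T / d) := by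
    have hsub : Q' ⊆ (Finset.Icc 2 (N + 2)).biUnion fun d =>
        ((Finset.Ioc 0 N).filter fun a => d ∣ a) ×ˢ ((Finset.Ioc 0 T).filter fun a => d ∣ a) := by
      intro p hp
      obtain ⟨h3, h4⟩ := Finset.mem_filter.1 hp
      obtain ⟨h5, h6⟩ := Finset.mem_product.1 h3
      obtain ⟨q, hq, hq1, hq2⟩ := Nat.Prime.not_coprime_iff_dvd.1 h4
      rw [Finset.mem_biUnion]
      refine ⟨q, Finset.mem_Icc.2 ⟨hq.two_le, ?_⟩, Finset.mem_product.2
        ⟨Finset.mem_filter.2 ⟨h5, hq1⟩, Finset.mem_filter.2 ⟨h6, hq2⟩⟩⟩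
      exact (Nat.le_of_dvd (Finset.mem_Ioc.1 h5).1 hq1).trans
        ((Finset.mem_Ioc.1 h5).2.trans (Nat.le_add_right _ _))
    refine (Finset.card_le_card hsub).trans (Finset.card_biUnion_le.trans
      (Finset.sum_le_sum fun d _ => ?_))
    rw [Finset.card_product, Nat.Ioc_filter_dvd_card_eq_div, Nat.Ioc_filter_dvd_card_eq_div]
  have h3 : ((∑ d ∈ Finset.Icc 2 (N + 2), (N / d) * (T / d) : ℕ) : ℝ) ≤
      3 / 4 * ((N : ℝ) * T) := by
    push_cast
    calc ∑ d ∈ Finset.Icc 2 (N + 2), (((N / d : ℕ) : ℝ) * ((T / d : ℕ) : ℝ)) ≤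
        ∑ d ∈ Finset.Icc 2 (N + 2), ((N : ℝ) * T) * (1 / (d : ℝ) ^ 2) := by
          refine Finset.sum_le_sum fun d hd => ?_
          have hd0 : (0 : ℝ) < d := by
            have := (Finset.mem_Icc.1 hd).1
            exact_mod_cast (by omega : 0 < d)
          have h4 : ((N / d : ℕ) : ℝ) ≤ (N : ℝ) / d := Nat.cast_div_le
          have h5 : ((T / d : ℕ) : ℝ) ≤ (T : ℝ) / d := Nat.cast_div_le
          calc ((N / d : ℕ) : ℝ) * ((T / d : ℕ) : ℝ) ≤ (N : ℝ) / d * ((T : ℝ) / d) :=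
              mul_le_mul h4 h5 (Nat.cast_nonneg _) (by positivity)
            _ = _ := by field_simp
      _ = ((N : ℝ) * T) * ∑ d ∈ Finset.Icc 2 (N + 2), (1 / (d : ℝ) ^ 2) := by rw [Finset.mul_sum]
      _ ≤ ((N : ℝ) * T) * (3 / 4) := by
          refine mul_le_mul_of_nonneg_left ?_ (by positivity)
          have := sum_sq_le (N + 2) (by omega)
          have h5 : (0 : ℝ) < 1 / ((N + 2 : ℕ) : ℝ) := by positivity
          linarith
      _ = _ := by ring
  have h5 : (Q'.card : ℝ) ≤ 3 / 4 * ((N : ℝ) * T) := by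
    refine le_trans ?_ h3
    exact_mod_cast h2
  have h6 : ((N : ℝ) * T) = (rect N T).card + Q'.card := by
    rw [hPc] at h1
    exact_mod_cast h1
  linarith

/-- **the lower bound** -/
theorem lower (X A : ℝ) (hX : 2 ≤ X) (hA : 1 ≤ A) (hAX : A ^ 3 ≤ X) :
    ∃ G : Finset (ℕ × ℕ), (∀ p ∈ G, 0 < p.1 ∧ p.1 ≤ p.2 ∧ Nat.Coprime p.1 p.2 ∧ (p.1 : ℝ) ≤ A ∧
      ((p.1 * p.2 * (p.1 + p.2) : ℕ) : ℝ) ≤ X ∧ ((p.1 + p.2 : ℕ) : ℝ) ≤ X) ∧
      1 / 96 * Real.sqrt (A * X) ≤ (G.card : ℝ) := by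
  classical
  have hX0 : 0 < X := by linarith
  have hA0 : 0 < A := by linarith
  rcases lt_or_ge X (32 * A) with hlt | hge
  · refine ⟨{(1, 1)}, ?_, ?_⟩
    · intro p hp
      rw [Finset.mem_singleton] at hp
      subst hp
      refine ⟨Nat.one_pos, le_rfl, Nat.coprime_one_left 1, by simpa using hA, ?_, ?_⟩
      · norm_num; linarith
      · norm_num; linarith
    · rw [Finset.card_singleton, Nat.cast_one]
      have h1 : A ^ 2 < 32 := by
        have h2 : A * A ^ 2 < A * 32 := by nlinarith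
        exact lt_of_mul_lt_mul_left h2 hA0.le
      have h2 : A * X ≤ 96 ^ 2 := by nlinarith
      have h3 : Real.sqrt (A * X) ≤ 96 := by
        rw [Real.sqrt_le_left (by norm_num)]
        exact h2
      linarith
  · obtain ⟨s, hs⟩ : ∃ s, s = Real.sqrt (X / (8 * A)) := ⟨_, rfl⟩
    have hs0 : 0 ≤ s := by rw [hs]; exact Real.sqrt_nonneg _
    have hs2 : s ^ 2 = X / (8 * A) := by rw [hs]; exact Real.sq_sqrt (by positivity)
    have hs2' : 8 * A * s ^ 2 = X := by rw [hs2]; field_simp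
    have hs3 : 2 ≤ s := by
      rw [hs]
      refine Real.le_sqrt_of_sq_le ?_
      rw [le_div_iff₀ (by positivity)]
      linarith
    obtain ⟨N, hN⟩ : ∃ N : ℕ, N = ⌊A⌋₊ := ⟨_, rfl⟩
    obtain ⟨T, hT⟩ : ∃ T : ℕ, T = ⌊s⌋₊ := ⟨_, rfl⟩
    have hNA : (N : ℝ) ≤ A := by rw [hN]; exact Nat.floor_le hA0.le
    have hTs : (T : ℝ) ≤ s := by rw [hT]; exact Nat.floor_le hs0
    have hN1 : A / 2 ≤ N := by
      have h1 : A - 1 < N := by rw [hN]; exact Nat.sub_one_lt_floor _
      have h2 : (1 : ℝ) ≤ N := by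
        have : 1 ≤ N := by rw [hN]; exact Nat.le_floor (by simpa using hA)
        exact_mod_cast this
      linarith
    have hT1 : s / 2 ≤ T := by
      have h1 : s - 1 < T := by rw [hT]; exact Nat.sub_one_lt_floor _
      linarith
    have hN0 : (0 : ℝ) ≤ N := Nat.cast_nonneg _
    have hT0 : (0 : ℝ) ≤ T := Nat.cast_nonneg _
    -- sizes
    have hA2s : A ^ 2 * s ≤ X / 2 := by
      have h1 : (A ^ 2 * s) ^ 2 ≤ (X / 2) ^ 2 := by
        have h2 : (A ^ 2 * s) ^ 2 = A ^ 3 * (8 * A * s ^ 2) / 8 := by ring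
        rw [h2, hs2']
        nlinarith
      exact (abs_le_of_sq_le_sq' h1 (by positivity)).2
    have hbox : ∀ a b : ℝ, 0 ≤ a → 0 ≤ b → a ≤ N → b ≤ T → a * b * (a + b) ≤ X := by
      intro a b ha hb ha1 hb1
      have haA : a ≤ A := ha1.trans hNA
      have hbs : b ≤ s := hb1.trans hTs
      have h1 : a * b * a ≤ A ^ 2 * s := by
        calc a * b * a ≤ A * s * A := by gcongr
          _ = A ^ 2 * s := by ring
      have h2 : a * b * b ≤ X / 8 := by
        calc a * b * b ≤ A * s * s := by gcongr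
          _ = 8 * A * s ^ 2 / 8 := by ring
          _ = X / 8 := by rw [hs2']
      have h3 : a * b * (a + b) = a * b * a + a * b * b := by ring
      rw [h3]
      linarith
    have hsum : (N : ℝ) + T ≤ X := by
      have h1 : A ≤ X / 32 := by linarith
      have h2 : s ≤ X / 2 := by
        have : s ≤ A ^ 2 * s := by
          have : 1 ≤ A ^ 2 := one_le_pow₀ hA
          nlinarith
        linarith
      linarith
    set G := (rect N T).image (fun p => (min p.1 p.2, max p.1 p.2)) with hG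
    have hmem : ∀ p ∈ rect N T, 0 < p.1 ∧ p.1 ≤ N ∧ 0 < p.2 ∧ p.2 ≤ T ∧ Nat.Coprime p.1 p.2 := by
      intro p hp
      obtain ⟨h1, h2⟩ := Finset.mem_filter.1 hp
      obtain ⟨h3, h4⟩ := Finset.mem_product.1 h1
      obtain ⟨h5, h6⟩ := Finset.mem_Ioc.1 h3
      obtain ⟨h7, h8⟩ := Finset.mem_Ioc.1 h4
      exact ⟨h5, h6, h7, h8, h2⟩
    refine ⟨G, ?_, ?_⟩
    · intro r hr
      obtain ⟨p, hp, rfl⟩ := Finset.mem_image.1 hr
      obtain ⟨h1, h2, h3, h4, h5⟩ := hmem p hp
      have hmul : min p.1 p.2 * max p.1 p.2 = p.1 * p.2 := min_mul_max _ _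
      have hadd : min p.1 p.2 + max p.1 p.2 = p.1 + p.2 := min_add_max _ _
      refine ⟨lt_min h1 h3, min_le_max, ?_, ?_, ?_, ?_⟩
      · show Nat.Coprime (min p.1 p.2) (max p.1 p.2)
        rcases le_total p.1 p.2 with h | h
        · rw [min_eq_left h, max_eq_right h]; exact h5
        · rw [min_eq_right h, max_eq_left h]; exact h5.symm
      · have h6 : ((min p.1 p.2 : ℕ) : ℝ) ≤ (p.1 : ℝ) := by exact_mod_cast min_le_left _ _
        have h7 : (p.1 : ℝ) ≤ N := by exact_mod_cast h2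
        exact h6.trans (h7.trans hNA)
      · show ((min p.1 p.2 * max p.1 p.2 * (min p.1 p.2 + max p.1 p.2) : ℕ) : ℝ) ≤ X
        rw [hmul, hadd]
        push_cast
        exact hbox _ _ (Nat.cast_nonneg _) (Nat.cast_nonneg _) (by exact_mod_cast h2)
          (by exact_mod_cast h4)
      · show ((min p.1 p.2 + max p.1 p.2 : ℕ) : ℝ) ≤ X
        rw [hadd]
        push_cast
        have h6 : (p.1 : ℝ) ≤ N := by exact_mod_cast h2
        have h7 : (p.2 : ℝ) ≤ T := by exact_mod_cast h4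
        linarith
    · have hcard : (rect N T).card ≤ 2 * G.card := by
        have hsub : rect N T ⊆ G ∪ G.image Prod.swap := by
          intro p hp
          rcases le_total p.1 p.2 with h | h
          · refine Finset.mem_union_left _ (Finset.mem_image.2 ⟨p, hp, ?_⟩)
            rw [min_eq_left h, max_eq_right h]
          · refine Finset.mem_union_right _ (Finset.mem_image.2 ⟨(p.2, p.1),
              Finset.mem_image.2 ⟨p, hp, ?_⟩, rfl⟩)
            rw [min_eq_right h, max_eq_left h]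
        have h7 := (Finset.card_le_card hsub).trans (Finset.card_union_le _ _)
        have h8 := Finset.card_image_le (s := G) (f := Prod.swap)
        omega
      have h1 := rect_count N T
      have h2 : ((rect N T).card : ℝ) ≤ 2 * G.card := by exact_mod_cast hcard
      have h3 : (A / 2) * (s / 2) ≤ (N : ℝ) * T := mul_le_mul hN1 hT1 (by positivity) hN0
      have h4 : Real.sqrt (A * X) ≤ 3 * (A * s) := by
        rw [Real.sqrt_le_left (by positivity)]
        have : (3 * (A * s)) ^ 2 = 9 / 8 * (A * (8 * A * s ^ 2)) := by ring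
        rw [this, hs2']
        have : 0 < A * X := by positivity
        linarith
      linarith

end Pool.Agent.TH867.SB.Lb
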