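import Pool.Agent.TH867.SB.High

/-!
**Triples `a + b = c` of all heights with radical at most `X`: the exponent `2 / 3`** (helper867).
-/

set_option autoImplicit false

namespace Pool.Agent.TH867.SB

open Finset
open Pool.Agent.TH867.SR (Tr N3 rr rr_sum Light Scale scales small_total rho rho_gt)
open Pool.Agent.TH867.SM (fam_total log_pow_le height_le)

theorem all_heights (ε : ℝ) (hε : 0 < ε) : ∃ D : ℝ, 0 < D ∧ ∀ X : ℝ, 1 ≤ X →
    ∀ F : Finset (Fin 3 → ℕ), (∀ t ∈ F, Tr t ∧ rr t 0 + rr t 1 + rr t 2 ≤ Real.log X) →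
    (F.card : ℝ) ≤ D * X ^ (2 / 3 + ε) := by
  classical
  obtain ⟨k0, hk0⟩ : ∃ k0 : ℕ, 6 / ε ≤ k0 := exists_nat_ge _
  obtain ⟨k, hk⟩ : ∃ k, k = k0 + 9 := ⟨_, rfl⟩
  have hk9 : 9 ≤ k := by omega
  have hk1 : 1 ≤ k := by omega
  have hkp : (0 : ℝ) < k := by exact_mod_cast hk1
  have h1k : 0 < 1 / (k : ℝ) := by positivity
  have hkε : 6 / (k : ℝ) ≤ ε := by
    have h1 : 6 / ε ≤ (k : ℝ) := hk0.trans (by rw [hk]; push_cast; linarith)
    rw [div_le_iff₀ hε] at h1
    rw [div_le_iff₀ hkp]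
    linarith
  obtain ⟨Da, hDa, hrad⟩ := by_radical 1 one_pos
  obtain ⟨η, hη, L1, hL1, hsmall⟩ := small_total ε hε
  obtain ⟨C, hC, D1, hD1, X1, hX11, hhigh⟩ := high_part hk9
  obtain ⟨D2, hD2, X2, hX21, hlow⟩ := low_part hk9 hC hη
  obtain ⟨D3, hD3, hfam⟩ := fam_total hk1
  obtain ⟨D4, hD4, hlog⟩ := log_pow_le (1 / (k : ℝ)) h1k
  have hρ := rho_gt hk1
  have hlρ : 0 < Real.log (rho k) := Real.log_pos hρ
  obtain ⟨X0, hX0e⟩ : ∃ X0, X0 = max (max X1 X2) (Real.exp (L1 + 1)) := ⟨_, rfl⟩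
  have hX01 : 1 ≤ X0 := by
    rw [hX0e]
    exact hX11.trans ((le_max_left _ _).trans (le_max_left _ _))
  have hX0p : 0 < X0 := by linarith
  obtain ⟨DD, hDD⟩ : ∃ DD, DD = (1 + 1 / Real.log (rho k)) * D4 * (2 * D3 * D4 + D1 + D2) := ⟨_, rfl⟩
  have hDD0 : 0 < DD := by rw [hDD]; positivity
  refine ⟨Da * X0 * X0 ^ (1 : ℝ) + (3 + DD), by positivity, fun X hX F hF => ?_⟩
  have hXp : 0 < X := by linarith
  have hXe1 : 1 ≤ X ^ (2 / 3 + ε) := Real.one_le_rpow hX (by positivity)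
  rcases lt_or_ge X X0 with hsm | hlarge
  · -- small `X`
    have h1 := hrad X0 hX01 (Icc 1 ⌊X0⌋₊)
      (by rw [mem_Icc]; exact ⟨le_rfl, Nat.le_floor (by simpa using hX01)⟩)
      (fun m hm => by
        rw [mem_Icc] at hm
        exact ⟨hm.1, (Nat.le_floor_iff hX0p.le).1 hm.2⟩) F (fun t ht => by
        obtain ⟨a1, a2⟩ := hF t ht
        refine ⟨a1, radi t, ?_, radi_pf t⟩
        rw [mem_Icc]
        exact ⟨radi_pos t, Nat.le_floor ((radi_le a1 hXp a2).trans hsm.le)⟩)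
    rw [Nat.card_Icc, Nat.add_sub_cancel] at h1
    have h2 : Da * (⌊X0⌋₊ : ℝ) * X0 ^ (1 : ℝ) ≤ Da * X0 * X0 ^ (1 : ℝ) :=
      mul_le_mul_of_nonneg_right (mul_le_mul_of_nonneg_left (Nat.floor_le hX0p.le) hDa.le)
        (by positivity)
    calc (F.card : ℝ) ≤ Da * X0 * X0 ^ (1 : ℝ) := h1.trans h2
      _ ≤ Da * X0 * X0 ^ (1 : ℝ) + (3 + DD) := by linarith only [hDD0]
      _ = (Da * X0 * X0 ^ (1 : ℝ) + (3 + DD)) * 1 := (mul_one _).symm
      _ ≤ _ := mul_le_mul_of_nonneg_left hXe1 (by positivity)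
  have hXX1 : X1 ≤ X := by
    rw [hX0e] at hlarge
    exact ((le_max_left _ _).trans (le_max_left _ _)).trans hlarge
  have hXX2 : X2 ≤ X := by
    rw [hX0e] at hlarge
    exact ((le_max_right _ _).trans (le_max_left _ _)).trans hlarge
  have hXL1 : Real.exp (L1 + 1) ≤ X := by rw [hX0e] at hlarge; exact (le_max_right _ _).trans hlarge
  obtain ⟨L, hL⟩ : ∃ L, L = Real.log X := ⟨_, rfl⟩
  have hLL2 : L1 + 1 ≤ L := by rw [hL, Real.le_log_iff_exp_le hXp]; exact hXL1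
  have hLL1 : L1 ≤ L := by linarith
  have hL1' : 1 ≤ L := hL1.trans hLL1
  have hL0 : 0 < L := by linarith
  obtain ⟨l0, hl0⟩ : ∃ l0, l0 = L ^ (2 + η) := ⟨_, rfl⟩
  have hl02 : 2 ≤ l0 := by
    have h1 : L ^ (1 : ℝ) ≤ L ^ (2 + η) := Real.rpow_le_rpow_of_exponent_le hL1' (by linarith)
    rw [Real.rpow_one] at h1
    rw [hl0]
    linarith
  have hl01 : 1 ≤ l0 := by linarith
  have hl00 : 0 < l0 := by linarith
  obtain ⟨H, hH⟩ : ∃ H, H = Real.exp (3000 * (1 + L) ^ 6) := ⟨_, rfl⟩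
  have hlH : Real.log H = 3000 * (1 + L) ^ 6 := by rw [hH, Real.log_exp]
  have hH1 : 1 ≤ H := by
    rw [hH]
    exact Real.one_le_exp (by positivity)
  have hlogH : 1 + Real.log H ≤ D4 * X ^ (1 / (k : ℝ)) := by rw [hlH, hL]; exact hlog X hX
  obtain ⟨M, hM⟩ : ∃ M, M = ⌊X ^ (2 / 3 + 1 / (k : ℝ))⌋₊ := ⟨_, rfl⟩
  have hMX2 : (M : ℝ) ≤ X ^ (2 / 3 + 1 / (k : ℝ)) := by
    rw [hM]; exact Nat.floor_le (by positivity)
  obtain ⟨F1, hF1⟩ : ∃ F1, F1 = F.filter fun t => Real.log (t 2) ≤ l0 := ⟨_, rfl⟩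
  obtain ⟨F2, hF2⟩ : ∃ F2, F2 = F.filter fun t => ¬ Real.log (t 2) ≤ l0 := ⟨_, rfl⟩
  have hcard : (F.card : ℝ) = F1.card + F2.card := by
    have : F.card = F1.card + F2.card := by
      rw [hF1, hF2]
      exact (Finset.card_filter_add_card_filter_not (s := F) (fun t => Real.log (t 2) ≤ l0)).symm
    rw [this, Nat.cast_add]
  have d1 : (F1.card : ℝ) ≤ 3 * X ^ (2 / 3 + ε) := hsmall X hX (by rw [← hL]; exact hLL1) F1
    (fun t ht => by
      rw [hF1, mem_filter] at ht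
      exact ⟨(hF t ht.1).1, (hF t ht.1).2, by rw [← hL, ← hl0]; exact ht.2⟩)
  -- light triples
  obtain ⟨FL, hFL⟩ : ∃ FL, FL = F.filter fun t => ∃ m ∈ SF M, Light k m.primeFactors t := ⟨_, rfl⟩
  have cL : (FL.card : ℝ) ≤ 2 * D3 * D4 * X ^ (2 / 3 + 5 / (k : ℝ)) := by
    have h1 := hfam (insert 1 (SF M)) X H hX hH1 (mem_insert_self _ _) (fun m hm => by
        rw [mem_insert, mem_SF] at hm
        rcases hm with rfl | hm
        · exact ⟨le_rfl, by simpa using hX⟩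
        · refine ⟨hm.1.1, le_trans ?_ (floor_M_le hk9 hX)⟩
          rw [← hM]
          exact_mod_cast hm.1.2) FL (fun t ht => by
        rw [hFL, mem_filter] at ht
        obtain ⟨b1, m, b2, b3⟩ := ht
        refine ⟨(hF t b1).1, ?_, fun _ => ⟨m, mem_insert_of_mem b2, b3⟩⟩
        rw [hH, hL]
        exact height_le (hF t b1).1 hX (hF t b1).2)
    have h2 : (((insert 1 (SF M)).card : ℕ) : ℝ) ≤ 2 * X ^ (2 / 3 + 1 / (k : ℝ)) := by
      have e1 : (insert 1 (SF M)).card ≤ M + 1 := by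
        refine (Finset.card_insert_le _ _).trans (Nat.add_le_add_right ?_ 1)
        unfold SF
        refine (Finset.card_filter_le _ _).trans ?_
        rw [Nat.card_Icc, Nat.add_sub_cancel]
      have e2 : (((insert 1 (SF M)).card : ℕ) : ℝ) ≤ (M : ℝ) + 1 := by exact_mod_cast e1
      have e3 : 1 ≤ X ^ (2 / 3 + 1 / (k : ℝ)) := Real.one_le_rpow hX (by positivity)
      linarith only [e2, e3, hMX2]
    calc (FL.card : ℝ) ≤ D3 * (((insert 1 (SF M)).card : ℕ) : ℝ) * X ^ (1 / (k : ℝ)) *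
          (1 + Real.log H) := h1
      _ ≤ D3 * (2 * X ^ (2 / 3 + 1 / (k : ℝ))) * X ^ (1 / (k : ℝ)) * (D4 * X ^ (1 / (k : ℝ))) := by
          refine mul_le_mul ?_ hlogH ?_ (by positivity)
          · exact mul_le_mul_of_nonneg_right (mul_le_mul_of_nonneg_left h2 hD3.le) (by positivity)
          · have := Real.log_nonneg hH1
            linarith
      _ = 2 * D3 * D4 * (X ^ (2 / 3 + 1 / (k : ℝ)) * X ^ (1 / (k : ℝ)) * X ^ (1 / (k : ℝ))) := by
          ring
      _ = 2 * D3 * D4 * X ^ (2 / 3 + 3 / (k : ℝ)) := by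
          rw [← Real.rpow_add hXp, ← Real.rpow_add hXp]
          congr 2
          ring
      _ ≤ 2 * D3 * D4 * X ^ (2 / 3 + 5 / (k : ℝ)) := by
          refine mul_le_mul_of_nonneg_left (Real.rpow_le_rpow_of_exponent_le hX ?_) (by positivity)
          have : 3 / (k : ℝ) ≤ 5 / k := div_le_div_of_nonneg_right (by norm_num) hkp.le
          linarith
  -- large heights
  obtain ⟨FH, hFH⟩ : ∃ FH, FH = F.filter fun t => ∃ m ∈ SF M, ∃ l p, PP k X l m t p ∧
      (C * L) ^ m.primeFactors.card * X ^ (1 / (k : ℝ)) < Real.log (t 2) := ⟨_, rfl⟩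
  have cH : (FH.card : ℝ) ≤ D1 * X ^ (2 / 3 + 5 / (k : ℝ)) := by
    refine hhigh X hXX1 FH fun t ht => ?_
    rw [hFH, mem_filter] at ht
    rw [← hM, ← hL]
    exact ⟨(hF t ht.1).1, by rw [hL]; exact (hF t ht.1).2, ht.2⟩
  have d2 : (F2.card : ℝ) ≤ DD * X ^ (2 / 3 + ε) := by
    rcases le_or_gt l0 H with hcase | hcase
    · obtain ⟨J, hJ, G, hG, hGc⟩ := scales hk1 hl00 hcase F2 (fun t ht => by
        rw [hF2, mem_filter] at ht
        refine ⟨(not_le.1 ht.2).le, ?_⟩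
        rw [hH, hL]
        exact height_le (hF t ht.1).1 hX (hF t ht.1).2)
      have hGj : ∀ j ∈ Finset.range (J + 1), ((G j).card : ℝ) ≤
          (2 * D3 * D4 + D1 + D2) * X ^ (2 / 3 + 5 / (k : ℝ)) := by
        intro j _
        have p1 : 1 ≤ rho k ^ j := one_le_pow₀ hρ.le
        have p4 : l0 ≤ l0 * rho k ^ j := le_mul_of_one_le_right hl00.le p1
        obtain ⟨l, hl⟩ : ∃ l, l = l0 * rho k ^ j := ⟨_, rfl⟩
        rw [← hl] at p4
        obtain ⟨Glo, hGlo⟩ : ∃ Glo, Glo = (G j).filter fun t => ∃ m ∈ SF M, ∃ p, PP k X l m t p ∧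
          l ≤ (C * L) ^ m.primeFactors.card * X ^ (1 / (k : ℝ)) := ⟨_, rfl⟩
        have hmemG : ∀ t ∈ G j, t ∈ F ∧ l0 < Real.log (t 2) ∧ Scale k l t := by
          intro t ht
          obtain ⟨f1, f2⟩ := hG j t ht
          rw [hF2, mem_filter] at f1
          rw [← hl] at f2
          exact ⟨f1.1, not_le.1 f1.2, f2⟩
        have hcov : G j ⊆ FL ∪ (FH ∪ Glo) := by
          intro t ht
          obtain ⟨f1, f2, f3⟩ := hmemG t ht
          have hl2 : 2 ≤ l := hl02.trans p4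
          obtain ⟨m, hm, hgd⟩ := good_m hk9 hX hl2 (hF t f1).1 f3 (hF t f1).2
          rw [← hM] at hm
          rw [mem_union, mem_union, hFL, hFH, hGlo, mem_filter, mem_filter, mem_filter]
          rcases hgd with hg | ⟨p, hp⟩
          · exact Or.inl ⟨f1, m, hm, hg⟩
          · rcases le_or_gt l ((C * L) ^ m.primeFactors.card * X ^ (1 / (k : ℝ))) with h5 | h5
            · exact Or.inr (Or.inr ⟨ht, m, hm, p, hp, h5⟩)
            · exact Or.inr (Or.inl ⟨f1, m, hm, l, p, hp, lt_of_lt_of_le h5 f3.1⟩)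
        have cG : (Glo.card : ℝ) ≤ D2 * X ^ (2 / 3 + 4 / (k : ℝ)) := by
          refine hlow X hXX2 l (by rw [← hL, ← hl0]; exact p4) Glo fun t ht => ?_
          rw [hGlo, mem_filter] at ht
          obtain ⟨f1, f2, f3⟩ := hmemG t ht.1
          rw [← hM, ← hL]
          exact ⟨(hF t f1).1, f3, ht.2⟩
        have h45 : X ^ (2 / 3 + 4 / (k : ℝ)) ≤ X ^ (2 / 3 + 5 / (k : ℝ)) := by
          refine Real.rpow_le_rpow_of_exponent_le hX ?_
          have : 4 / (k : ℝ) ≤ 5 / k := div_le_div_of_nonneg_right (by norm_num) hkp.le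
          linarith
        have h6 : (G j).card ≤ FL.card + (FH.card + Glo.card) :=
          (Finset.card_le_card hcov).trans ((Finset.card_union_le _ _).trans
            (Nat.add_le_add_left (Finset.card_union_le _ _) _))
        have h7 : ((G j).card : ℝ) ≤ FL.card + (FH.card + Glo.card) := by exact_mod_cast h6
        have h8 : D2 * X ^ (2 / 3 + 4 / (k : ℝ)) ≤ D2 * X ^ (2 / 3 + 5 / (k : ℝ)) :=
          mul_le_mul_of_nonneg_left h45 hD2.le
        calc ((G j).card : ℝ) ≤ 2 * D3 * D4 * X ^ (2 / 3 + 5 / (k : ℝ)) +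
              (D1 * X ^ (2 / 3 + 5 / (k : ℝ)) + D2 * X ^ (2 / 3 + 5 / (k : ℝ))) := by
              linarith only [h7, cL, cH, cG, h8]
          _ = _ := by ring
      have h3 : (F2.card : ℝ) ≤ ∑ j ∈ Finset.range (J + 1), ((G j).card : ℝ) := by
        exact_mod_cast hGc
      have h4 := h3.trans (Finset.sum_le_sum hGj)
      rw [Finset.sum_const, Finset.card_range, nsmul_eq_mul] at h4
      -- the number of scales
      have hJ1 : ((J + 1 : ℕ) : ℝ) ≤ (1 + 1 / Real.log (rho k)) * D4 * X ^ (1 / (k : ℝ)) := by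
        have e1 : rho k ^ J ≤ H := by
          refine le_trans ?_ hJ
          exact le_mul_of_one_le_left (by positivity) hl01
        have e2 := Real.log_le_log (by positivity) e1
        rw [Real.log_pow] at e2
        have e3 : (J : ℝ) ≤ 1 / Real.log (rho k) * Real.log H := by
          rw [one_div, ← div_eq_inv_mul, le_div_iff₀ hlρ]
          exact e2
        have e4 : 0 ≤ Real.log H := Real.log_nonneg hH1
        have e5 : 0 < 1 / Real.log (rho k) := by positivity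
        calc ((J + 1 : ℕ) : ℝ) = (J : ℝ) + 1 := by push_cast; ring
          _ ≤ (1 + 1 / Real.log (rho k)) * (1 + Real.log H) := by
              have : (1 + 1 / Real.log (rho k)) * (1 + Real.log H) =
                1 + Real.log H + 1 / Real.log (rho k) + 1 / Real.log (rho k) * Real.log H := by ring
              rw [this]
              linarith only [e3, e4, e5]
          _ ≤ (1 + 1 / Real.log (rho k)) * (D4 * X ^ (1 / (k : ℝ))) :=
              mul_le_mul_of_nonneg_left hlogH (by positivity)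
          _ = _ := by ring
      calc (F2.card : ℝ) ≤ ((J + 1 : ℕ) : ℝ) *
            ((2 * D3 * D4 + D1 + D2) * X ^ (2 / 3 + 5 / (k : ℝ))) := h4
        _ ≤ ((1 + 1 / Real.log (rho k)) * D4 * X ^ (1 / (k : ℝ))) *
            ((2 * D3 * D4 + D1 + D2) * X ^ (2 / 3 + 5 / (k : ℝ))) :=
            mul_le_mul_of_nonneg_right hJ1 (by positivity)
        _ = DD * (X ^ (1 / (k : ℝ)) * X ^ (2 / 3 + 5 / (k : ℝ))) := by rw [hDD]; ring
        _ = DD * X ^ (1 / (k : ℝ) + (2 / 3 + 5 / (k : ℝ))) := by rw [← Real.rpow_add hXp]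
        _ ≤ DD * X ^ (2 / 3 + ε) := by
            refine mul_le_mul_of_nonneg_left (Real.rpow_le_rpow_of_exponent_le hX ?_) hDD0.le
            have e6 : 1 / (k : ℝ) + (2 / 3 + 5 / (k : ℝ)) = 2 / 3 + 6 / k := by ring
            rw [e6]
            linarith
    · have : F2 = ∅ := by
        rw [Finset.eq_empty_iff_forall_notMem]
        intro t ht
        rw [hF2, mem_filter] at ht
        have h1 := height_le (hF t ht.1).1 hX (hF t ht.1).2
        rw [← hL, ← hH] at h1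
        have h2 := not_le.1 ht.2
        linarith only [h1, h2, hcase]
      rw [this, Finset.card_empty, Nat.cast_zero]
      positivity
  have hP : 0 ≤ Da * X0 * X0 ^ (1 : ℝ) * X ^ (2 / 3 + ε) := by positivity
  rw [hcard]
  have hfin : (Da * X0 * X0 ^ (1 : ℝ) + (3 + DD)) * X ^ (2 / 3 + ε) =
      Da * X0 * X0 ^ (1 : ℝ) * X ^ (2 / 3 + ε) + (3 * X ^ (2 / 3 + ε) + DD * X ^ (2 / 3 + ε)) := by
    ring
  rw [hfin]
  linarith only [d1, d2, hP]

end Pool.Agent.TH867.SB
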