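import Pool.Agent.TH867.SB.Sum
import Pool.Agent.TH867.SM.Fam

/-!
Triples `a + b = c` of all heights, counted by their radicals (helper867).
-/

set_option autoImplicit false

namespace Pool.Agent.TH867.SB

open Finset
open Pool.Agent.TH867.SR (Tr N3 rr rr_sum log_eq_sum' Light vv log_prod_primes main_upper
  log_prime_nonneg)
open Pool.Agent.TH867.SM (fam_total log_pow_le height_le all_upper prods sqf)

/-- the radical -/
def radi (t : Fin 3 → ℕ) : ℕ := ∏ q ∈ (N3 t).primeFactors, q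

theorem radi_pos (t : Fin 3 → ℕ) : 0 < radi t :=
  Finset.prod_pos fun _ hq => (Nat.prime_of_mem_primeFactors hq).pos

theorem radi_pf (t : Fin 3 → ℕ) : (radi t).primeFactors = (N3 t).primeFactors :=
  Nat.primeFactors_prod fun _ hq => Nat.prime_of_mem_primeFactors hq

theorem radi_sf (t : Fin 3 → ℕ) : Squarefree (radi t) :=
  sqf fun _ hq => Nat.prime_of_mem_primeFactors hq

theorem radi_le {t : Fin 3 → ℕ} (h : Tr t) {X : ℝ} (hX : 0 < X)
    (hr : rr t 0 + rr t 1 + rr t 2 ≤ Real.log X) : (radi t : ℝ) ≤ X := by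
  have hp : (0 : ℝ) < radi t := by exact_mod_cast radi_pos t
  rw [← Real.log_le_log_iff hp hX, radi,
    log_prod_primes (fun q hq => Nat.prime_of_mem_primeFactors hq), rr_sum h]
  exact hr

theorem log_pf_le {m : ℕ} (hm : 1 ≤ m) : ∑ q ∈ m.primeFactors, Real.log (q : ℝ) ≤ Real.log m := by
  rw [← log_prod_primes (fun q hq => Nat.prime_of_mem_primeFactors hq)]
  have h1 : 0 < ∏ q ∈ m.primeFactors, q :=
    Finset.prod_pos fun _ hq => (Nat.prime_of_mem_primeFactors hq).pos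
  refine Real.log_le_log (by exact_mod_cast h1) ?_
  exact_mod_cast Nat.le_of_dvd hm (Nat.prod_primeFactors_dvd m)

/-- triples with radical in a given set, all heights -/
theorem by_radical (ε : ℝ) (hε : 0 < ε) : ∃ D : ℝ, 0 < D ∧ ∀ X : ℝ, 1 ≤ X → ∀ W : Finset ℕ,
    1 ∈ W → (∀ m ∈ W, 1 ≤ m ∧ (m : ℝ) ≤ X) → ∀ F : Finset (Fin 3 → ℕ),
    (∀ t ∈ F, Tr t ∧ ∃ m ∈ W, m.primeFactors = (N3 t).primeFactors) →
    (F.card : ℝ) ≤ D * W.card * X ^ ε := by
  obtain ⟨k, hk⟩ : ∃ k : ℕ, 2 / ε ≤ k := exists_nat_ge _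
  have hk0 : (0 : ℝ) < k := lt_of_lt_of_le (by positivity) hk
  have hk1 : 1 ≤ k := by
    have : 0 < k := by exact_mod_cast hk0
    omega
  have hk1' : (1 : ℝ) ≤ k := by exact_mod_cast hk1
  have hkε : 2 / (k : ℝ) ≤ ε := by
    rw [div_le_iff₀ hε] at hk
    rw [div_le_iff₀ hk0]
    linarith
  have h1k : 0 < 1 / (k : ℝ) := by positivity
  have h1k1 : 1 / (k : ℝ) ≤ 1 := by rw [div_le_one hk0]; exact hk1'
  obtain ⟨D, hD, h⟩ := fam_total hk1
  obtain ⟨D2, hD2, h2⟩ := log_pow_le (1 / (k : ℝ)) h1k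
  refine ⟨D * D2, by positivity, fun X hX W h1W hW F hF => ?_⟩
  have hX0 : 0 < X := by linarith
  have hlX : 0 ≤ Real.log X := Real.log_nonneg hX
  obtain ⟨H, hH⟩ : ∃ H, H = Real.exp (3000 * (1 + Real.log X) ^ 6) := ⟨_, rfl⟩
  have hlH : Real.log H = 3000 * (1 + Real.log X) ^ 6 := by rw [hH, Real.log_exp]
  have hH1 : 1 ≤ H := by
    rw [hH]
    exact Real.one_le_exp (by positivity)
  have h1 := h W X H hX hH1 h1W hW F (by
    intro t ht
    obtain ⟨a1, m, hm, a2⟩ := hF t ht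
    obtain ⟨b1, b2⟩ := hW m hm
    refine ⟨a1, ?_, fun _ => ⟨m, hm, ?_⟩⟩
    · rw [hH]
      refine height_le a1 hX ?_
      rw [← rr_sum a1, ← a2]
      refine (log_pf_le b1).trans ?_
      exact Real.log_le_log (by exact_mod_cast b1) b2
    · rw [Light, a2, log_eq_sum' a1.N3_pos.ne']
      have e1 : 0 ≤ (1 - 1 / (k : ℝ)) * Real.log (t 2) :=
        mul_nonneg (by linarith) (Real.log_natCast_nonneg _)
      have e2 : ∑ q ∈ (N3 t).primeFactors, (vv t q : ℝ) * Real.log q =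
          ∑ q ∈ (N3 t).primeFactors, ((N3 t).factorization q : ℝ) * Real.log q := rfl
      rw [e2]
      linarith)
  refine h1.trans ?_
  have h3 := h2 X hX
  have h4 : 1 + Real.log H ≤ D2 * X ^ (1 / (k : ℝ)) := by rw [hlH]; exact h3
  calc D * W.card * X ^ (1 / (k : ℝ)) * (1 + Real.log H) ≤
      D * W.card * X ^ (1 / (k : ℝ)) * (D2 * X ^ (1 / (k : ℝ))) :=
        mul_le_mul_of_nonneg_left h4 (by positivity)
    _ = D * D2 * W.card * (X ^ (1 / (k : ℝ)) * X ^ (1 / (k : ℝ))) := by ring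
    _ = D * D2 * W.card * X ^ (2 / (k : ℝ)) := by
        rw [← Real.rpow_add hX0]
        congr 2
        ring
    _ ≤ D * D2 * W.card * X ^ ε := by
        refine mul_le_mul_of_nonneg_left (Real.rpow_le_rpow_of_exponent_le hX hkε) (by positivity)

end Pool.Agent.TH867.SB
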