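import Pool.Agent.TH867.SR.Cho

/-!
The choice of the prescribed primes when one member of the triple has a small radical
(helper867).
-/

set_option autoImplicit false

namespace Pool.Agent.TH867.SB

open Finset
open Pool.Agent.TH867.SR

/-- a set of primes of a member which is at least `c ^ (1/m)` -/
theorem part_of {m : ℕ} (hm : 1 ≤ m) {t : Fin 3 → ℕ} (h : Tr t) {j : Fin 3}
    (h2 : 0 < Real.log (t 2)) (hj : Real.log (t 2) / m ≤ Real.log (t j)) {κ : ℝ} (hκ0 : 0 ≤ κ)
    (hκ : κ ≤ Real.log (t j)) :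
    ∃ p ∈ (t j).primeFactors, ∃ Q ⊆ (t j).primeFactors,
      (∀ q ∈ (t j).primeFactors, Real.log (q : ℝ) ≤ Real.log p) ∧
      κ ≤ ∑ q ∈ Q, (vv t q : ℝ) * Real.log q ∧
      ∑ q ∈ Q, Real.log q ≤ rr t j / Real.log (t j) * κ + Real.log p := by
  have hm0 : (0 : ℝ) < m := by exact_mod_cast hm
  have hlogj : 0 < Real.log (t j) := lt_of_lt_of_le (by positivity) hj
  have hne : (t j).primeFactors.Nonempty := by
    rw [Nat.nonempty_primeFactors]
    by_contra hcon
    have h1 : t j ≤ 1 := by omega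
    have h3 : (t j : ℝ) ≤ 1 := by exact_mod_cast h1
    have h4 : Real.log (t j) ≤ 0 := Real.log_nonpos (by positivity) h3
    linarith
  obtain ⟨p, hp, hmax⟩ := Finset.exists_max_image (t j).primeFactors (fun q => Real.log (q : ℝ)) hne
  refine ⟨p, hp, ?_⟩
  obtain ⟨Q, hQ, h3, h4⟩ := greedy (fun q => (vv t q : ℝ) * Real.log q)
    (fun q : ℕ => Real.log (q : ℝ)) (κ := κ) (ρ := rr t j / Real.log (t j))
    (M := Real.log p) hκ0 (div_nonneg (rr_nonneg t j) hlogj.le)
    (log_prime_nonneg (Nat.prime_of_mem_primeFactors hp)) (t j).primeFactors hmax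
    (by rw [side_sum h, div_mul_cancel₀ _ hlogj.ne']; exact le_rfl)
    (by rw [side_sum h]; exact hκ)
  exact ⟨Q, hQ, hmax, h3, h4⟩

/-- the choice of the prescribed primes, for a member `i` with a small radical -/
theorem choiceA {m k : ℕ} (hm : 8 ≤ m) (hk : k = m ^ 2) {X l : ℝ} (hl : 2 ≤ l) {t : Fin 3 → ℕ}
    (h : Tr t) (hs : Scale k l t) (hX : ∀ j, ∀ p ∈ (t j).primeFactors, (p : ℝ) ≤ X) (i : Fin 3) :
    ∃ S : Finset ℕ, (∀ q ∈ S, q.Prime) ∧ Good k X l S t ∧
      ∑ q ∈ S, Real.log q ≤ (1 / 2) * (rr t 0 + rr t 1 + rr t 2 + rr t i) +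
        3 / m * (rr t 0 + rr t 1 + rr t 2) := by
  classical
  have hm8 : (8 : ℝ) ≤ m := by exact_mod_cast hm
  have hm0 : (0 : ℝ) < m := by linarith
  have hm1 : 1 ≤ m := by omega
  have hkm : (k : ℝ) = (m : ℝ) ^ 2 := by rw [hk]; push_cast; ring
  have hk0 : (0 : ℝ) < k := by rw [hkm]; positivity
  have l2a := Real.log_two_gt_d9
  have l2b := Real.log_two_lt_d9
  obtain ⟨T, hTd⟩ : ∃ T, T = Real.log (t 2) := ⟨_, rfl⟩
  have hT : 2 ≤ T := by rw [hTd]; exact hl.trans hs.1
  have hT0 : 0 < T := by linarith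
  obtain ⟨μ, hμ⟩ : ∃ μ : ℝ, μ = 1 / m := ⟨_, rfl⟩
  have hμ0 : 0 < μ := by rw [hμ]; positivity
  have hμ8 : μ ≤ 1 / 8 := by rw [hμ]; exact one_div_le_one_div_of_le (by norm_num) hm8
  have hTm : T / m = μ * T := by rw [hμ]; ring
  have hTk : T / k = μ ^ 2 * T := by rw [hμ, hkm]; field_simp
  have h3m : (3 : ℝ) / m = 3 * μ := by rw [hμ]; ring
  have hrr : ∀ j, 0 ≤ rr t j := rr_nonneg t
  have h21 : T / 2 ≤ Real.log (t 1) := by
    have := log_one_ge h
    rw [← hTd] at this
    linarith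
  have hμT8 : μ * T ≤ 1 / 8 * T := mul_le_mul_of_nonneg_right hμ8 hT0.le
  -- parts of large members
  have part : ∀ j, T / m ≤ Real.log (t j) → ∃ p ∈ (t j).primeFactors, ∃ Q ⊆ (t j).primeFactors,
      T / k ≤ ∑ q ∈ Q, (vv t q : ℝ) * Real.log q ∧
      ∑ q ∈ Q, Real.log q ≤ μ * rr t j + Real.log p ∧
      (∀ q ∈ (t j).primeFactors, Real.log (q : ℝ) ≤ Real.log p) := by
    intro j hj
    have hlj : 0 < Real.log (t j) := lt_of_lt_of_le (by positivity) hj
    have hle : T / k ≤ Real.log (t j) := by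
      refine le_trans ?_ hj
      rw [hTm, hTk, sq, mul_assoc]
      have : 0 ≤ μ * T := by positivity
      nlinarith
    obtain ⟨p, hp, Q, hQ, a1, a2, a3⟩ := part_of hm1 h (j := j) (by rw [← hTd]; exact hT0)
      (by rw [← hTd]; exact hj) (κ := T / k) (by positivity) hle
    refine ⟨p, hp, Q, hQ, a2, a3.trans ?_, a1⟩
    refine add_le_add_left ?_ _
    rw [div_mul_eq_mul_div, div_le_iff₀ hlj]
    rw [hTm] at hj
    rw [hTk]
    have e1 : rr t j * (μ ^ 2 * T) = μ * rr t j * (μ * T) := by ring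
    rw [e1]
    exact mul_le_mul_of_nonneg_left hj (mul_nonneg hμ0.le (hrr j))
  have hsumj : ∀ i j j' : Fin 3, i ≠ j → i ≠ j' → j ≠ j' →
      rr t 0 + rr t 1 + rr t 2 = rr t i + rr t j + rr t j' := by
    intro i j j' h1 h2 h3
    have key : ∀ f : Fin 3 → ℝ, f 0 + f 1 + f 2 = f i + f j + f j' := by
      intro f
      fin_cases i <;> fin_cases j <;> fin_cases j' <;> simp at h1 h2 h3 ⊢ <;> ring
    exact key (rr t)
  obtain ⟨R, hR⟩ : ∃ R, R = rr t 0 + rr t 1 + rr t 2 := ⟨_, rfl⟩
  rw [← hR, h3m]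
  -- two large members `j`, `j'` different from `i`
  have two : ∀ j j' : Fin 3, i ≠ j → i ≠ j' → j ≠ j' → T / m ≤ Real.log (t j) →
      T / m ≤ Real.log (t j') → ∃ S : Finset ℕ, (∀ q ∈ S, q.Prime) ∧ Good k X l S t ∧
      ∑ q ∈ S, Real.log q ≤ (1 / 2) * (R + rr t i) + 3 * μ * R := by
    intro j j' h1 h2 h3 hj hj'
    obtain ⟨p, hp, Q, hQ, w1, c1, -⟩ := part j hj
    obtain ⟨p', hp', Q', hQ', w2, c2, -⟩ := part j' hj'
    obtain ⟨S1, f1, f2, f3⟩ := good_of (X := X) h hs (A := j) (B := j') (C := i) h3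
      h2.symm h1.symm hp' (hX j' p' hp') hQ (by rw [← hTd]; exact w1)
    obtain ⟨S2, g1, g2, g3⟩ := good_of (X := X) h hs (A := j') (B := j) (C := i) h3.symm
      h1.symm h2.symm hp (hX j p hp) hQ' (by rw [← hTd]; exact w2)
    have hsum := hsumj i j j' h1 h2 h3
    rw [← hR] at hsum
    have r1 := hrr i
    have r2 := hrr j
    have r3 := hrr j'
    by_contra hcon
    push Not at hcon
    have a1 := hcon S1 f1 f2
    have a2 := hcon S2 g1 g2
    rw [f3] at a1
    rw [g3] at a2
    have m1 := mul_nonneg hμ0.le r1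
    have m2 := mul_nonneg hμ0.le r2
    have m3 := mul_nonneg hμ0.le r3
    rw [hsum] at a1 a2
    nlinarith
  rcases le_or_gt (T / m) (Real.log (t 0)) with h0 | h0
  · -- all the members are large
    have hall : ∀ j, T / m ≤ Real.log (t j) := by
      intro j
      fin_cases j
      · exact h0
      · show T / m ≤ Real.log (t 1)
        rw [hTm]; linarith
      · show T / m ≤ Real.log (t 2)
        rw [hTm, ← hTd]; linarith
    fin_cases i
    · exact two 1 2 (by decide) (by decide) (by decide) (hall 1) (hall 2)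
    · exact two 0 2 (by decide) (by decide) (by decide) (hall 0) (hall 2)
    · exact two 0 1 (by decide) (by decide) (by decide) (hall 0) (hall 1)
  -- `a` is small
  have hbig1 : T / m ≤ Real.log (t 1) := by rw [hTm]; linarith
  have hbig2 : T / m ≤ Real.log (t 2) := by rw [hTm, ← hTd]; linarith
  have small : ∀ j : Fin 3, i ≠ 0 → j ≠ 0 → i ≠ j → ∃ S : Finset ℕ, (∀ q ∈ S, q.Prime) ∧
      Good k X l S t ∧ ∑ q ∈ S, Real.log q ≤ (1 / 2) * (R + rr t i) + 3 * μ * R := by
    intro j hi0 hj0 hij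
    have hbig : ∀ j : Fin 3, j ≠ 0 → T / 2 ≤ Real.log (t j) := by
      intro j hj
      fin_cases j
      · exact absurd rfl hj
      · exact h21
      · show T / 2 ≤ Real.log (t 2)
        rw [← hTd]; linarith
    have hm' : ∀ j : Fin 3, j ≠ 0 → T / m ≤ Real.log (t j) := by
      intro j hj
      have := hbig j hj
      rw [hTm]
      linarith
    have hi1 : Real.log (t 1) ≤ Real.log (t i) := by
      fin_cases i
      · exact absurd rfl hi0
      · exact le_rfl
      · show Real.log (t 1) ≤ Real.log (t 2)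
        exact log_member_le h 1
    -- the light set
    obtain ⟨p, hp, Q, hQ, a1, a2, a3⟩ := part_of hm1 h (j := j) (by rw [← hTd]; exact hT0)
      (by rw [← hTd]; exact hm' j hj0) (κ := 2 * μ * T) (by positivity) (by
        have := hbig j hj0
        linarith)
    have hlj : 0 < Real.log (t j) := lt_of_lt_of_le (by positivity) (hbig j hj0)
    have a3' : ∑ q ∈ Q, Real.log (q : ℝ) ≤ 4 * μ * rr t j + Real.log p := by
      refine a3.trans (add_le_add_left ?_ _)
      rw [div_mul_eq_mul_div, div_le_iff₀ hlj]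
      have e1 : rr t j * (2 * μ * T) = 4 * μ * rr t j * (T / 2) := by ring
      rw [e1]
      exact mul_le_mul_of_nonneg_left (hbig j hj0) (by
        have := hrr j
        positivity)
    have hdisj : Disjoint (t i).primeFactors Q :=
      (h.cop' hij).disjoint_primeFactors.mono_right hQ
    have hlight : Light k ((t i).primeFactors ∪ Q) t := by
      rw [Light, Finset.sum_union hdisj, side_sum h, log_N3 h, ← hTd]
      have e2 : (1 - 1 / (k : ℝ)) * T = T - T / k := by ring
      rw [e2, hTk]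
      rw [hTm] at h0
      have e3 : μ ^ 2 * T ≤ μ * T := by
        rw [sq, mul_assoc]
        have : 0 ≤ μ * T := by positivity
        nlinarith
      linarith
    -- the other set
    obtain ⟨pi, hpi, Qi, hQi, w1, c1, -⟩ := part i (hm' i hi0)
    obtain ⟨S1, f1, f2, f3⟩ := good_of (X := X) h hs (A := i) (B := j) (C := 0) hij
      hj0 hi0 hp (hX j p hp) hQi (by rw [← hTd]; exact w1)
    have hpile : Real.log (pi : ℝ) ≤ rr t i :=
      Finset.single_le_sum (f := fun q : ℕ => Real.log (q : ℝ))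
        (fun q hq => log_prime_nonneg (Nat.prime_of_mem_primeFactors hq)) hpi
    have hsum := hsumj i j 0 hij hi0 hj0
    rw [← hR] at hsum
    have r1 := hrr i
    have r2 := hrr j
    have r3 := hrr 0
    by_contra hcon
    push Not at hcon
    have b1 := hcon ((t i).primeFactors ∪ Q) (fun q hq => by
      rcases Finset.mem_union.1 hq with hq | hq
      · exact Nat.prime_of_mem_primeFactors hq
      · exact Nat.prime_of_mem_primeFactors (hQ hq)) (Or.inl hlight)
    have b2 := hcon S1 f1 f2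
    rw [Finset.sum_union hdisj] at b1
    have b1' : 1 / 2 * (R + rr t i) + 3 * μ * R < rr t i + ∑ q ∈ Q, Real.log (q : ℝ) := b1
    rw [f3] at b2
    have m1 := mul_nonneg hμ0.le r1
    have m2 := mul_nonneg hμ0.le r2
    have m3 := mul_nonneg hμ0.le r3
    rw [hsum] at b1' b2
    nlinarith
  by_cases hi : i = 0
  · rw [hi] at two ⊢
    exact two 1 2 (by decide) (by decide) (by decide) hbig1 hbig2
  · have hi' : i = 1 ∨ i = 2 := by
      fin_cases i
      · exact absurd rfl hi
      · exact Or.inl rfl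
      · exact Or.inr rfl
    rcases hi' with rfl | rfl
    · exact small 2 (by decide) (by decide) (by decide)
    · exact small 1 (by decide) (by decide) (by decide)

end Pool.Agent.TH867.SB
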