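import Pool.Agent.TH867.SB.Dlog

/-!
Simultaneous `p`-adic linear forms in logarithms: the iteration (helper867).
-/

set_option autoImplicit false

namespace Pool.Agent.TH867.SB

open Finset
open Pool.Agent.TH907.Bak (GG GG_zero_of_mono siegel_two vandermonde_zero)

variable {p : ℕ} [hp : Fact p.Prime]

/-- the exponents of the monomials of total degree `< T` in `n` variables -/
abbrev Mon (n T : ℕ) : Type := {m : Fin n → Fin T // ∑ i, (m i : ℕ) < T}

/-- The iteration: the auxiliary function of an index set `ι` cannot exist. -/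
theorem iter {ι : Type*} [Fintype ι] {n E K J Z0 N Δ Xs ν τ T0 : ℕ}
    (hXs : 1 ≤ Xs) (hτ : τ = 8 * Xs) (hT0 : T0 = (J + 1) * τ)
    (hcard : Fintype.card ι = 2 * (Fintype.card (Mon n T0) * Z0))
    (h3 : 2 * Fintype.card (Mon n T0) ≤ 2 ^ J)
    (h4 : 8 * (Δ * (J + 1)) ≤ Z0) (h5 : 2 * (Fintype.card (Mon n T0) * Z0) ≤ 2 ^ N)
    (h6 : 2 * N + 1 ≤ Z0)
    (h7 : ν * τ + (τ + τ ^ 2) * (2 ^ J * Z0) ≤ E)
    (δ : ι → Fin n → ℤ) (x : ι → ℤ) (A : ι → ℕ) (a0 : ℤ) (a : Fin n → ℤ) (β : ℕ) (hβ0 : β ≠ 0)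
    (hβ : padicValNat p β ≤ ν) (hK : E ≤ K) (hK0 : 0 < K)
    (hx : ∀ l, (x l : ZMod (p ^ E)) = (PadicInt.toZModPow E (EE p K 1)) ^ (A l))
    (hA : ∀ l, ((p : ℤ) ^ E) ∣ (β : ℤ) * A l - (a0 + ∑ i, a i * δ l i))
    (hδ : ∀ l i, |δ l i| ≤ 2 ^ Δ) (hxs : ∀ l, |x l| ≤ 2 ^ Xs) (hinj : Function.Injective x) :
    False := by
  classical
  have hZ0 : 0 < Z0 := by omega
  have hτ1 : 1 ≤ τ := by omega
  have hT01 : 1 ≤ T0 := by rw [hT0]; exact Nat.mul_pos (by omega) hτ1
  have hMon : 0 < Fintype.card (Mon n T0) := by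
    rw [Fintype.card_pos_iff]
    exact ⟨⟨fun _ => ⟨0, hT01⟩, by simp; omega⟩⟩
  -- Siegel
  obtain ⟨P, hP0, hPs, hPb⟩ := siegel_two
    (ρ := Mon n T0 × Fin Z0) (κ := ι)
    (fun mz l => (∏ i, δ l i ^ ((mz.1.1 i : ℕ))) * x l ^ (mz.2 : ℕ))
    (2 ^ (Δ * T0 + Xs * Z0)) (Nat.one_le_two_pow)
    (by
      rintro ⟨m, z⟩ l
      simp only [abs_mul, abs_pow, Finset.abs_prod]
      push_cast
      rw [pow_add]
      apply mul_le_mul
      · calc ∏ i, |δ l i| ^ (m.1 i : ℕ) ≤ ∏ i : Fin n, (2 : ℤ) ^ (Δ * (m.1 i : ℕ)) := by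
              apply Finset.prod_le_prod
              · intro i _; positivity
              · intro i _
                rw [pow_mul]
                exact pow_le_pow_left₀ (abs_nonneg _) (hδ l i) _
          _ = 2 ^ (Δ * ∑ i, (m.1 i : ℕ)) := by
              rw [Finset.prod_pow_eq_pow_sum, Finset.mul_sum]
          _ ≤ 2 ^ (Δ * T0) :=
              pow_le_pow_right₀ (by norm_num) (Nat.mul_le_mul_left _ m.2.le)
      · rw [pow_mul]
        calc |x l| ^ (z : ℕ) ≤ (2 ^ Xs) ^ (z : ℕ) := pow_le_pow_left₀ (abs_nonneg _) (hxs l) _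
          _ ≤ (2 ^ Xs) ^ Z0 := by
              apply pow_le_pow_right₀ _ z.2.le
              exact one_le_pow₀ (by norm_num)
      · positivity
      · positivity)
    (by
      rw [hcard, Fintype.card_prod, Fintype.card_fin])
    (by
      rw [Fintype.card_prod, Fintype.card_fin]
      exact Nat.mul_pos hMon hZ0)
  obtain ⟨π, hπ⟩ : ∃ π, π = N + Δ * T0 + Xs * Z0 := ⟨_, rfl⟩
  have hcardN : Fintype.card ι ≤ 2 ^ N := by rw [hcard]; exact h5
  have hPb' : ∀ l, |P l| ≤ 2 ^ π := by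
    intro l
    refine (hPb l).trans ?_
    have e1 : Fintype.card ι * 2 ^ (Δ * T0 + Xs * Z0) ≤ 2 ^ π := by
      rw [hπ, add_assoc, pow_add 2 N]
      exact Nat.mul_le_mul_right _ hcardN
    exact_mod_cast e1
  have main : ∀ j ≤ J, ∀ Q : MvPolynomial (Fin n) ℤ,
      Q.totalDegree < (J + 1 - j) * τ →
      ∀ y < 2 ^ j * Z0, GG P δ x Q y = 0 := by
    intro j
    induction j with
    | zero =>
      intro _ Q hQ y hy
      rw [Nat.sub_zero, ← hT0] at hQ
      rw [pow_zero, one_mul] at hy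
      apply GG_zero_of_mono P δ x _ Q hQ
      intro m hm
      have hsum : ∑ i, m i < T0 := by
        rw [Finsupp.sum_fintype _ _ (fun _ => rfl)] at hm
        exact hm
      have hmi : ∀ i, m i < T0 := by
        intro i
        refine lt_of_le_of_lt ?_ hsum
        exact Finset.single_le_sum (f := fun i => m i) (fun _ _ => Nat.zero_le _) (mem_univ i)
      have h1 := hPs (⟨fun i => ⟨m i, hmi i⟩, hsum⟩, ⟨y, hy⟩)
      rw [GG, ← h1]
      apply Finset.sum_congr rfl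
      intro l _
      rw [MvPolynomial.eval_monomial, one_mul, Finsupp.prod_fintype _ _ (fun i => pow_zero _)]
      ring
    | succ j ih =>
      intro hj Q hQ y hy
      have ih' := ih (by omega)
      have e1 : (J + 1 - j) * τ = (J + 1 - (j + 1)) * τ + τ := by
        have : J + 1 - j = (J + 1 - (j + 1)) + 1 := by omega
        rw [this]; ring
      rw [e1] at ih'
      have hjJ : 2 ^ j * Z0 ≤ 2 ^ J * Z0 :=
        Nat.mul_le_mul_right _ (Nat.pow_le_pow_right (by norm_num) (by omega))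
      refine step (T := (J + 1 - (j + 1)) * τ) (τ := τ) (Z := 2 ^ j * Z0) (Z' := 2 ^ (j + 1) * Z0)
        (d := τ * (2 ^ j * Z0)) (ν := ν) (N := N) (π := π) (Δ := Δ) (Xs := Xs) (T0 := T0)
        P δ x A a0 a β hβ0 hβ hK hK0 hx hA ih' le_rfl ?_ hcardN hPb' hδ hxs ?_ ?_ Q hQ y hy
      · have e2 : (τ + τ ^ 2) * (2 ^ j * Z0) ≤ (τ + τ ^ 2) * (2 ^ J * Z0) :=
          Nat.mul_le_mul_left _ hjJ
        have e3 : (τ + τ ^ 2) * (2 ^ j * Z0) = τ * (2 ^ j * Z0) + τ ^ 2 * (2 ^ j * Z0) := by ring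
        omega
      · rw [hT0]
        exact Nat.mul_le_mul_right _ (by omega)
      · -- the size condition
        obtain ⟨W, hW⟩ : ∃ W, W = 2 ^ j * Z0 := ⟨_, rfl⟩
        have hWZ : Z0 ≤ W := by rw [hW]; exact Nat.le_mul_of_pos_left _ (by positivity)
        have e2 : 2 ^ (j + 1) * Z0 = 2 * W := by rw [hW, pow_succ]; ring
        rw [e2, ← hW, hπ]
        have e3 : Δ * T0 + Δ * T0 = (2 * Xs) * (8 * (Δ * (J + 1))) := by
          rw [hT0, hτ]; ring
        have e4 : (2 * Xs) * (8 * (Δ * (J + 1))) ≤ (2 * Xs) * Z0 :=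
          Nat.mul_le_mul_left _ h4
        have e5 : Xs * Z0 ≤ Xs * W := Nat.mul_le_mul_left _ hWZ
        have e6 : Z0 ≤ Xs * Z0 := Nat.le_mul_of_pos_left _ hXs
        have e7 : 2 * Xs * Z0 = Xs * Z0 + Xs * Z0 := by ring
        have e8 : Xs * (2 * W) = Xs * W + Xs * W := by ring
        have e9 : τ * W = 8 * (Xs * W) := by rw [hτ]; ring
        have e10 : 0 < Xs * W := Nat.mul_pos hXs (by omega)
        omega
  have hfin := main J le_rfl 1 (by
    rw [MvPolynomial.totalDegree_one]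
    have : J + 1 - J = 1 := by omega
    rw [this]; omega)
  apply hP0
  apply vandermonde_zero P x hinj
  intro y hy
  have h1 : y < 2 ^ J * Z0 := by
    refine lt_of_lt_of_le hy ?_
    rw [hcard]
    calc 2 * (Fintype.card (Mon n T0) * Z0) = 2 * Fintype.card (Mon n T0) * Z0 := by ring
      _ ≤ 2 ^ J * Z0 := Nat.mul_le_mul_right _ h3
  have h2 := hfin y h1
  rw [GG] at h2
  simpa using h2

end Pool.Agent.TH867.SB
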