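import Pool.Agent.TH867.SB.Extra

/-!
Discrete logarithms to the base `ω = exp(p^2)` modulo powers of `p` (helper867, after helper907).
-/

set_option autoImplicit false

namespace Pool.Agent.TH867.SB

open Finset
open Pool.Agent.TH907.Bak (toZModPow_eq_zero_iff)

variable {p : ℕ} [hp : Fact p.Prime]

theorem pow_one_add (n s : ℕ) (u : ℤ_[p]) : ∃ y : ℤ_[p],
    (1 + (p : ℤ_[p]) ^ s * u) ^ n = 1 + (p : ℤ_[p]) ^ s * (n * u) + (p : ℤ_[p]) ^ (2 * s) * y := by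
  obtain ⟨k, hk⟩ := Polynomial.powAddExpansion (1 : ℤ_[p]) ((p : ℤ_[p]) ^ s * u) n
  refine ⟨k * u ^ 2, ?_⟩
  rw [hk, one_pow, one_pow, mul_one]
  ring

theorem omega_pow {K : ℕ} (hK : 2 ≤ K) (m : ℕ) : ∃ y : ℤ_[p],
    (EE p K 1) ^ (p ^ m) = 1 + (p : ℤ_[p]) ^ (m + 2) * (1 + p * y) := by
  induction m with
  | zero =>
    obtain ⟨y, hy⟩ := EE_one_spec (p := p) hK
    exact ⟨y, by rw [pow_zero, pow_one, hy, zero_add]⟩
  | succ m ih =>
    obtain ⟨y, hy⟩ := ih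
    obtain ⟨z, hz⟩ := pow_one_add (p := p) p (m + 2) (1 + p * y)
    refine ⟨y + (p : ℤ_[p]) ^ m * z, ?_⟩
    rw [pow_succ, pow_mul, hy, hz]
    have e1 : (p : ℤ_[p]) ^ (2 * (m + 2)) = (p : ℤ_[p]) ^ (m + 1 + 2) * (p * (p : ℤ_[p]) ^ m) := by
      rw [← pow_succ', ← pow_add]; congr 1; ring
    rw [e1, pow_succ (p : ℤ_[p]) (m + 1 + 1)]
    have e2 : m + 1 + 1 = m + 2 := rfl
    rw [e2]
    ring

theorem not_dvd_one_add (y : ℤ_[p]) : ¬ (p : ℤ_[p]) ∣ 1 + p * y := by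
  intro hd
  have h1 : (p : ℤ_[p]) ∣ 1 := by
    have := dvd_sub hd (dvd_mul_right (p : ℤ_[p]) y)
    simpa using this
  exact PadicInt.prime_p.not_isUnit (isUnit_of_dvd_one h1)

theorem orderOf_omega {K : ℕ} (hK : 2 ≤ K) (E : ℕ) :
    orderOf (PadicInt.toZModPow (E + 2) (EE p K 1)) = p ^ E := by
  have hp0 : (p : ℤ_[p]) ≠ 0 := PadicInt.prime_p.ne_zero
  cases E with
  | zero =>
    rw [pow_zero, orderOf_eq_one_iff]
    obtain ⟨y, hy⟩ := EE_one_spec (p := p) hK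
    have h1 : (p : ℤ_[p]) ^ 2 ∣ EE p K 1 - 1 := ⟨1 + p * y, by rw [hy]; ring⟩
    rw [← toZModPow_eq_zero_iff, map_sub, sub_eq_zero, map_one] at h1
    exact h1
  | succ n =>
    apply orderOf_eq_prime_pow
    · intro h
      obtain ⟨y, hy⟩ := omega_pow (p := p) hK n
      rw [← map_pow, hy, map_add, map_one, add_eq_left, toZModPow_eq_zero_iff] at h
      have e1 : (p : ℤ_[p]) ^ (n + 1 + 2) = (p : ℤ_[p]) ^ (n + 2) * p := by
        rw [← pow_succ]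
      rw [e1] at h
      exact not_dvd_one_add y ((mul_dvd_mul_iff_left (pow_ne_zero _ hp0)).1 h)
    · obtain ⟨y, hy⟩ := omega_pow (p := p) hK (n + 1)
      rw [← map_pow, hy, map_add, map_one, add_eq_left, toZModPow_eq_zero_iff]
      exact dvd_mul_right _ _

/-- `ω` as a unit -/
theorem omega_unit {K : ℕ} (hK : 2 ≤ K) (E : ℕ) : ∃ w : (ZMod (p ^ (E + 2)))ˣ,
    (w : ZMod (p ^ (E + 2))) = PadicInt.toZModPow (E + 2) (EE p K 1) ∧ orderOf w = p ^ E := by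
  have hord := orderOf_omega (p := p) hK E
  have hpE : 0 < p ^ E := pow_pos hp.out.pos _
  have h1 : (PadicInt.toZModPow (E + 2) (EE p K 1)) ^ (p ^ E) = 1 := by
    rw [← hord]; exact pow_orderOf_eq_one _
  obtain ⟨w, hw⟩ := IsUnit.of_pow_eq_one h1 hpE.ne'
  refine ⟨w, hw, ?_⟩
  rw [← hord, ← hw]
  exact (orderOf_units).symm

theorem exists_dlog_padic {K : ℕ} (hK : 2 ≤ K) {α : ℤ_[p]} (hα : (p : ℤ_[p]) ^ 2 ∣ α - 1) (E : ℕ) :
    ∃ a : ℕ, (p : ℤ_[p]) ^ E ∣ (EE p K 1) ^ a - α := by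
  have base : (p : ℤ_[p]) ^ 2 ∣ (EE p K 1) ^ 0 - α := by
    rw [pow_zero, ← neg_sub]
    exact (dvd_neg).2 hα
  have main : ∀ m : ℕ, ∃ a : ℕ, (p : ℤ_[p]) ^ (m + 2) ∣ (EE p K 1) ^ a - α := by
    intro m
    induction m with
    | zero => exact ⟨0, base⟩
    | succ m ih =>
      obtain ⟨a, t, ht⟩ := ih
      obtain ⟨s, -, hs⟩ := PadicInt.exists_mem_range (-t)
      rw [PadicInt.maximalIdeal_eq_span_p, Ideal.mem_span_singleton] at hs
      obtain ⟨r, hr⟩ := hs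
      obtain ⟨y, hy⟩ := omega_pow (p := p) hK m
      obtain ⟨z, hz⟩ := pow_one_add (p := p) s (m + 2) (1 + p * y)
      obtain ⟨y1, hy1⟩ := EE_one_spec (p := p) hK
      -- `ω ^ a ≡ 1` modulo `p`
      obtain ⟨c, hc⟩ : (p : ℤ_[p]) ∣ (EE p K 1) ^ a - 1 := by
        have h1 : (p : ℤ_[p]) ∣ EE p K 1 - 1 := ⟨p * (1 + p * y1), by rw [hy1]; ring⟩
        have h2 := sub_dvd_pow_sub_pow (EE p K 1) 1 a
        rw [one_pow] at h2
        exact h1.trans h2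
      refine ⟨a + p ^ m * s, -r + c * s + (EE p K 1) ^ a * (s * y + (p : ℤ_[p]) ^ (m + 1) * z), ?_⟩
      rw [pow_add, pow_mul, hy, hz]
      have e1 : (p : ℤ_[p]) ^ (2 * (m + 2)) =
          (p : ℤ_[p]) ^ (m + 2) * (p * (p : ℤ_[p]) ^ (m + 1)) := by
        rw [← pow_succ', ← pow_add]; congr 1; ring
      have e2 : (p : ℤ_[p]) ^ (m + 1 + 2) = (p : ℤ_[p]) ^ (m + 2) * p := by
        rw [← pow_succ]
      rw [e1, e2]
      linear_combination ht - (p : ℤ_[p]) ^ (m + 2) * hr + (p : ℤ_[p]) ^ (m + 2) * s * hc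
  rcases le_or_gt E 2 with h | h
  · exact ⟨0, (pow_dvd_pow _ h).trans base⟩
  · obtain ⟨a, ha⟩ := main (E - 2)
    exact ⟨a, by rwa [show E - 2 + 2 = E by omega] at ha⟩

theorem exists_dlog {K : ℕ} (hK : 2 ≤ K) (E : ℕ) {α : ℕ} (hα : α ≡ 1 [MOD p ^ 2]) :
    ∃ a : ℕ, (α : ZMod (p ^ E)) = (PadicInt.toZModPow E (EE p K 1)) ^ a := by
  have h1 : (p : ℤ_[p]) ^ 2 ∣ (α : ℤ_[p]) - 1 := by
    have h2 := (Nat.modEq_iff_dvd.1 hα.symm)
    obtain ⟨c, hc⟩ := h2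
    refine ⟨(c : ℤ_[p]), ?_⟩
    have h3 := congrArg (fun t : ℤ => (t : ℤ_[p])) hc
    push_cast at h3
    rw [h3]
  obtain ⟨a, ha⟩ := exists_dlog_padic (p := p) hK h1 E
  refine ⟨a, ?_⟩
  rw [← toZModPow_eq_zero_iff, map_sub, sub_eq_zero, map_pow, map_natCast] at ha
  exact ha.symm

/-- A multiplicative relation gives a linear relation between discrete logarithms. -/
theorem rel_dlog {K : ℕ} (hK : 2 ≤ K) {E : ℕ} {κ : Type*} [Fintype κ]
    (u : κ → (ZMod (p ^ (E + 2)))ˣ) (a : κ → ℕ) (b : κ → ℤ)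
    (ha : ∀ i, (u i : ZMod (p ^ (E + 2))) = (PadicInt.toZModPow (E + 2) (EE p K 1)) ^ (a i))
    (hrel : ∏ i, (u i) ^ (b i) = 1) : (p : ℤ) ^ E ∣ ∑ i, b i * a i := by
  classical
  obtain ⟨w, hw, hord⟩ := omega_unit (p := p) hK E
  have huw : ∀ i, u i = w ^ (a i) := by
    intro i
    apply Units.ext
    rw [ha i, Units.val_pow_eq_pow_val, hw]
  have h1 : w ^ (∑ i, b i * a i) = 1 := by
    rw [← hrel]
    have : ∀ s : Finset κ, w ^ (∑ i ∈ s, b i * (a i : ℤ)) = ∏ i ∈ s, (u i) ^ (b i) := by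
      intro s
      induction s using Finset.induction_on with
      | empty => simp
      | insert i s hi ih =>
        rw [Finset.sum_insert hi, Finset.prod_insert hi, zpow_add, ih, huw i]
        congr 1
        rw [← zpow_natCast, ← zpow_mul, mul_comm]
    exact this univ
  rw [← orderOf_dvd_iff_zpow_eq_one, hord] at h1
  exact_mod_cast h1

theorem eq_dlog {K : ℕ} (hK : 2 ≤ K) {E : ℕ} {a b : ℕ}
    (h : (PadicInt.toZModPow (E + 2) (EE p K 1)) ^ a = (PadicInt.toZModPow (E + 2) (EE p K 1)) ^ b) :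
    (p : ℤ) ^ E ∣ (a : ℤ) - b := by
  obtain ⟨w, hw, hord⟩ := omega_unit (p := p) hK E
  have h1 : w ^ ((a : ℤ) - b) = 1 := by
    rw [zpow_sub, zpow_natCast, zpow_natCast, mul_inv_eq_one]
    apply Units.ext
    rw [Units.val_pow_eq_pow_val, Units.val_pow_eq_pow_val, hw, h]
  rw [← orderOf_dvd_iff_zpow_eq_one, hord] at h1
  exact_mod_cast h1

end Pool.Agent.TH867.SB
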