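import Pool.Agent.TH867.SB.Schwarz

/-!
The extrapolation step, with an affine relation whose leading coefficient may be divisible by `p`
(helper867, after helper907).
-/

set_option autoImplicit false

namespace Pool.Agent.TH867.SB

open Finset Polynomial
open Pool.Agent.TH907.Bak (toZModPow_eq_zero_iff dvd_of_natCast_mul GG GG_zero_of_mono
  abs_GG_mono_le)

variable {p : ℕ} [hp : Fact p.Prime]

theorem pi_EE {K E : ℕ} (hK : E ≤ K) (hK0 : 0 < K) (n : ℕ) :
    PadicInt.toZModPow E (EE p K n) = (PadicInt.toZModPow E (EE p K 1)) ^ n := by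
  have h := EE_natCast (p := p) hK0 n
  have h2 : (p : ℤ_[p]) ^ E ∣ EE p K n - (EE p K 1) ^ n :=
    (pow_dvd_pow _ (by omega)).trans h
  rw [← toZModPow_eq_zero_iff, map_sub, sub_eq_zero, map_pow] at h2
  exact h2

variable {ι : Type*} [Fintype ι] {k : ℕ}

theorem extra {K E T τ Z d ν : ℕ} (P : ι → ℤ) (δ : ι → Fin k → ℤ) (x : ι → ℤ)
    (A : ι → ℕ) (a0 : ℤ) (a : Fin k → ℤ) (β : ℕ) (hβ0 : β ≠ 0) (hβ : padicValNat p β ≤ ν)
    (hK : E ≤ K) (hK0 : 0 < K)
    (hx : ∀ l, (x l : ZMod (p ^ E)) = (PadicInt.toZModPow E (EE p K 1)) ^ (A l))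
    (hA : ∀ l, ((p : ℤ) ^ E) ∣ (β : ℤ) * A l - (a0 + ∑ i, a i * δ l i))
    (H : ∀ Q : MvPolynomial (Fin k) ℤ, Q.totalDegree < T + τ → ∀ z < Z, GG P δ x Q z = 0)
    (hd : d ≤ τ * Z) (hE : d + τ ^ 2 * Z + ν * τ ≤ E) (Q : MvPolynomial (Fin k) ℤ)
    (hQ : Q.totalDegree < T) (n : ℕ) : (p : ℤ) ^ d ∣ GG P δ x Q n := by
  set π : ℤ_[p] →+* ZMod (p ^ E) := PadicInt.toZModPow E with hπ
  obtain ⟨E1, hE1⟩ : ∃ E1, E1 = E - ν * τ := ⟨_, rfl⟩
  set c : ι → ℤ_[p] := fun l => ((P l * MvPolynomial.eval (δ l) Q : ℤ) : ℤ_[p]) with hc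
  set F : ℤ_[p][X] := ∑ l, C (c l) * EP p K (A l) with hFdef
  have hF : ∀ j, (p : ℤ_[p]) ^ j ∣ F.coeff j := by
    intro j
    rw [hFdef, Polynomial.finsetSum_coeff]
    apply Finset.dvd_sum
    intro l _
    rw [Polynomial.coeff_C_mul]
    exact Dvd.dvd.mul_left (EP_coeff_dvd _ _ _) _
  have hAl : ∀ l, (β : ZMod (p ^ E)) * (A l : ZMod (p ^ E))
      = ((a0 + ∑ i, a i * δ l i : ℤ) : ZMod (p ^ E)) := by
    intro l
    have h1 := hA l
    have h2 : ((((β : ℤ) * A l - (a0 + ∑ i, a i * δ l i) : ℤ)) : ZMod (p ^ E)) = 0 := by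
      rw [ZMod.intCast_zmod_eq_zero_iff_dvd]
      exact_mod_cast h1
    rw [Int.cast_sub, sub_eq_zero] at h2
    rw [← h2]
    push_cast
    rfl
  have hpc : ∀ l, π (c l) = (((P l * MvPolynomial.eval (δ l) Q : ℤ)) : ZMod (p ^ E)) := by
    intro l
    rw [hc]
    exact map_intCast π _
  have hZ : ∀ z < Z, (X - C (z : ZMod (p ^ E1))) ^ τ ∣ F.map (PadicInt.toZModPow E1) := by
    intro z hz
    rw [X_sub_C_pow_dvd_iff, X_pow_dvd_iff]
    intro i hi
    have h1 : (F.map (PadicInt.toZModPow E1)).comp (X + C (z : ZMod (p ^ E1))) =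
        (F.comp (X + C (z : ℤ_[p]))).map (PadicInt.toZModPow E1) := by
      rw [Polynomial.map_comp]
      simp
    rw [h1, Polynomial.coeff_map, toZModPow_eq_zero_iff]
    -- the coefficient times `β ^ i`
    have h0 : π (((β ^ i : ℕ) : ℤ_[p]) * (F.comp (X + C (z : ℤ_[p]))).coeff i) = 0 := by
      rw [map_mul, map_natCast, hFdef, Polynomial.sum_comp, Polynomial.finsetSum_coeff, map_sum]
      have h2 : ∀ l ∈ (univ : Finset ι),
          π (((C (c l) * EP p K (A l)).comp (X + C (z : ℤ_[p]))).coeff i)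
          = π (c l) * (π (ee p i) * (A l : ZMod (p ^ E)) ^ i * (x l : ZMod (p ^ E)) ^ z) := by
        intro l _
        rw [Polynomial.mul_comp, Polynomial.C_comp, Polynomial.coeff_C_mul, map_mul]
        congr 1
        have h3 := EP_taylor (p := p) K (A l : ℤ_[p]) (z : ℤ_[p]) i
        have h4 : (p : ℤ_[p]) ^ E ∣ ((EP p K (A l)).comp (X + C (z : ℤ_[p]))).coeff i
            - ee p i * (A l : ℤ_[p]) ^ i * EE p K ((A l : ℤ_[p]) * z) :=
          (pow_dvd_pow _ (by omega)).trans h3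
        rw [← toZModPow_eq_zero_iff, map_sub, sub_eq_zero] at h4
        rw [hπ, h4, map_mul, map_mul, map_pow, map_natCast]
        have h5 : ((A l : ℤ_[p]) * z) = ((A l * z : ℕ) : ℤ_[p]) := by push_cast; ring
        rw [h5, pi_EE hK hK0, pow_mul, ← hx l]
      rw [Finset.sum_congr rfl h2, Finset.mul_sum]
      set L : MvPolynomial (Fin k) ℤ :=
        MvPolynomial.C a0 + ∑ j, MvPolynomial.C (a j) * MvPolynomial.X j with hL
      have hLdeg : L.totalDegree ≤ 1 := by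
        rw [hL]
        refine (MvPolynomial.totalDegree_add _ _).trans (max_le ?_ ?_)
        · rw [MvPolynomial.totalDegree_C]
          omega
        · apply MvPolynomial.totalDegree_finsetSum_le
          intro j _
          refine (MvPolynomial.totalDegree_mul _ _).trans ?_
          rw [MvPolynomial.totalDegree_C, zero_add]
          exact (MvPolynomial.totalDegree_X j).le
      have hLev : ∀ l, MvPolynomial.eval (δ l) L = a0 + ∑ j, a j * δ l j := by
        intro l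
        rw [hL]
        simp
      have h7 : (Q * L ^ i).totalDegree < T + τ := by
        have h8 := MvPolynomial.totalDegree_mul Q (L ^ i)
        have h9 := MvPolynomial.totalDegree_pow L i
        have h10 : i * L.totalDegree ≤ i * 1 := Nat.mul_le_mul_left _ hLdeg
        omega
      have h8 := H (Q * L ^ i) h7 z hz
      rw [GG] at h8
      have h9 : ∀ l ∈ (univ : Finset ι), ((β ^ i : ℕ) : ZMod (p ^ E)) *
          (π (c l) * (π (ee p i) * (A l : ZMod (p ^ E)) ^ i * (x l : ZMod (p ^ E)) ^ z))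
          = π (ee p i) * (((P l * MvPolynomial.eval (δ l) (Q * L ^ i) * x l ^ z : ℤ)) :
              ZMod (p ^ E)) := by
        intro l _
        rw [hpc l, map_mul, map_pow, hLev l]
        push_cast
        have h10 := hAl l
        push_cast at h10
        rw [← h10, mul_pow]
        ring
      rw [Finset.sum_congr rfl h9, ← Finset.mul_sum, ← Int.cast_sum, h8]
      simp
    rw [toZModPow_eq_zero_iff] at h0
    have h11 := dvd_of_natCast_mul (pow_ne_zero i hβ0) (v := i * ν) (by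
      rw [padicValNat.pow]
      exact Nat.mul_le_mul_left _ hβ) h0
    refine (pow_dvd_pow _ ?_).trans h11
    have h12 : i * ν ≤ ν * τ := by
      rw [mul_comm ν τ]
      exact Nat.mul_le_mul_right _ hi.le
    omega
  have hS := schwarz (p := p) hF hZ hd (by omega)
  -- evaluate
  have h11 : (p : ℤ_[p]) ^ d ∣ F.eval (n : ℤ_[p]) := by
    rw [Polynomial.eval_eq_sum_range]
    apply Finset.dvd_sum
    intro j _
    exact Dvd.dvd.mul_right (hS j) _
  have h12 : (p : ℤ_[p]) ^ E ∣ F.eval (n : ℤ_[p]) - ((GG P δ x Q n : ℤ) : ℤ_[p]) := by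
    rw [← toZModPow_eq_zero_iff, map_sub, sub_eq_zero, map_intCast, hFdef,
      Polynomial.eval_finsetSum, map_sum, GG, Int.cast_sum]
    apply Finset.sum_congr rfl
    intro l _
    rw [Polynomial.eval_mul, Polynomial.eval_C, EP_eval, map_mul]
    have h5 : ((A l : ℤ_[p]) * n) = ((A l * n : ℕ) : ℤ_[p]) := by push_cast; ring
    rw [h5, pi_EE hK hK0, pow_mul, ← hx l]
    have h13 := hpc l
    rw [hπ] at h13
    rw [h13]
    push_cast
    ring
  have h14 : (p : ℤ_[p]) ^ d ∣ ((GG P δ x Q n : ℤ) : ℤ_[p]) := by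
    have h15 := (pow_dvd_pow (p : ℤ_[p]) (show d ≤ E by omega)).trans h12
    have h16 := dvd_sub h11 h15
    simpa using h16
  exact (PadicInt.pow_p_dvd_int_iff d _).1 h14

/-- One step of the iteration. -/
theorem step {K E T τ Z Z' d ν N π Δ Xs T0 : ℕ} (P : ι → ℤ) (δ : ι → Fin k → ℤ) (x : ι → ℤ)
    (A : ι → ℕ) (a0 : ℤ) (a : Fin k → ℤ) (β : ℕ) (hβ0 : β ≠ 0) (hβ : padicValNat p β ≤ ν)
    (hK : E ≤ K) (hK0 : 0 < K)
    (hx : ∀ l, (x l : ZMod (p ^ E)) = (PadicInt.toZModPow E (EE p K 1)) ^ (A l))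
    (hA : ∀ l, ((p : ℤ) ^ E) ∣ (β : ℤ) * A l - (a0 + ∑ i, a i * δ l i))
    (H : ∀ Q : MvPolynomial (Fin k) ℤ, Q.totalDegree < T + τ → ∀ z < Z, GG P δ x Q z = 0)
    (hd : d ≤ τ * Z) (hE : d + τ ^ 2 * Z + ν * τ ≤ E)
    (hN : Fintype.card ι ≤ 2 ^ N) (hP : ∀ l, |P l| ≤ 2 ^ π) (hδ : ∀ l i, |δ l i| ≤ 2 ^ Δ)
    (hxs : ∀ l, |x l| ≤ 2 ^ Xs) (hT0 : T ≤ T0) (hdb : N + π + Δ * T0 + Xs * Z' < d) :
    ∀ Q : MvPolynomial (Fin k) ℤ, Q.totalDegree < T → ∀ z < Z', GG P δ x Q z = 0 := by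
  intro Q hQ z hz
  apply GG_zero_of_mono P δ x (T := T) _ Q hQ
  intro m hm
  have hdeg : (MvPolynomial.monomial m (1 : ℤ)).totalDegree < T := by
    rw [MvPolynomial.totalDegree_monomial _ one_ne_zero]
    exact hm
  have h1 := extra P δ x A a0 a β hβ0 hβ hK hK0 hx hA H hd hE _ hdeg z
  have h2 := abs_GG_mono_le P δ x hN hP hδ hxs m (hm.le.trans hT0) z
  have h3 : (2 : ℤ) ^ (N + π + Δ * T0 + Xs * z) < 2 ^ d := by
    apply pow_lt_pow_right₀ (by norm_num)
    have : Xs * z ≤ Xs * Z' := Nat.mul_le_mul_left _ hz.le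
    omega
  have h4 : (2 : ℤ) ^ d ≤ (p : ℤ) ^ d := by
    apply pow_le_pow_left₀ (by norm_num)
    exact_mod_cast hp.out.two_le
  by_contra hne
  have h5 := Int.le_of_dvd (abs_pos.2 hne) ((dvd_abs _ _).2 h1)
  linarith

end Pool.Agent.TH867.SB
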