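import Pool.Agent.TH867.SB.Par

/-!
Given a set `P` of primes, only few primes `r` occur in the triples of large height of the class
`InP`: asymptotic form (helper867).
-/

set_option autoImplicit false

namespace Pool.Agent.TH867.SB

open Finset
open Pool.Agent.TH867.SR (Tr N3 InP vv log_prime_nonneg)

/-- the conditions on `L = log X` -/
theorem large_L {η1 : ℝ} (hη : 0 < η1) (C0 : ℕ) : ∃ L0 : ℝ, 100 ≤ L0 ∧ ∀ L : ℝ, L0 ≤ L →
    (C0 : ℝ) + 1 ≤ Real.log L ∧ 3 * Real.log L ≤ η1 * L ∧ 1 ≤ η1 * L := by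
  refine ⟨max (max (Real.exp (C0 + 1)) ((6 / η1) ^ 2)) (max 100 (1 / η1)),
    (le_max_left _ _).trans (le_max_right _ _), fun L hL => ?_⟩
  have h1 : Real.exp (C0 + 1) ≤ L := ((le_max_left _ _).trans (le_max_left _ _)).trans hL
  have h2 : (6 / η1) ^ 2 ≤ L := ((le_max_right _ _).trans (le_max_left _ _)).trans hL
  have h3 : 100 ≤ L := ((le_max_left _ _).trans (le_max_right _ _)).trans hL
  have h4 : 1 / η1 ≤ L := ((le_max_right _ _).trans (le_max_right _ _)).trans hL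
  have hL0 : 0 < L := by linarith
  refine ⟨?_, ?_, ?_⟩
  · rw [Real.le_log_iff_exp_le hL0]
    exact h1
  · have s0 : 0 < Real.sqrt L := Real.sqrt_pos.2 hL0
    have e1 : Real.log L = 2 * Real.log (Real.sqrt L) := by
      rw [Real.log_sqrt hL0.le]; ring
    have e2 := Real.log_le_sub_one_of_pos s0
    have e3 : 6 / η1 ≤ Real.sqrt L := Real.le_sqrt_of_sq_le h2
    have e4 : 6 ≤ η1 * Real.sqrt L := by
      rw [div_le_iff₀ hη] at e3
      linarith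
    have e5 : Real.sqrt L * Real.sqrt L = L := Real.mul_self_sqrt hL0.le
    have e6 : 6 * Real.sqrt L ≤ η1 * Real.sqrt L * Real.sqrt L :=
      mul_le_mul_of_nonneg_right e4 s0.le
    rw [mul_assoc, e5] at e6
    linarith
  · rw [div_le_iff₀ hη] at h4
    linarith

/-- the final bound of the exponents -/
theorem num_exp {L B : ℝ} (hL : 100 ≤ L) (hB : 1.44 * L ≤ B) :
    4 * Real.exp (3000 * (1 + L) ^ 6) ≤ Real.exp (3000 * B ^ 6 * Real.log 2) := by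
  have g1 : (0.6931 : ℝ) < Real.log 2 := by linarith [Real.log_two_gt_d9]
  have f1 : (4 : ℝ) ≤ Real.exp 2 := by
    have h1 : Real.exp 2 = Real.exp 1 * Real.exp 1 := by rw [← Real.exp_add]; norm_num
    have h2 := Real.exp_one_gt_d9
    rw [h1]
    nlinarith
  have f2 : 4 * Real.exp (3000 * (1 + L) ^ 6) ≤ Real.exp 2 * Real.exp (3000 * (1 + L) ^ 6) :=
    mul_le_mul_of_nonneg_right f1 (Real.exp_pos _).le
  refine f2.trans ?_
  rw [← Real.exp_add]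
  apply Real.exp_le_exp.2
  have f3 : 1 + L ≤ 1.01 * L := by linarith
  have f4 : (1 + L) ^ 6 ≤ (1.01 * L) ^ 6 := pow_le_pow_left₀ (by linarith) f3 6
  have f5 : (1.44 * L) ^ 6 ≤ B ^ 6 := pow_le_pow_left₀ (by linarith) hB 6
  have f6 : (1.01 * L) ^ 6 = 1.01 ^ 6 * L ^ 6 := by rw [mul_pow]
  have f7 : (1.44 * L) ^ 6 = 1.44 ^ 6 * L ^ 6 := by rw [mul_pow]
  have f8 : 1 ≤ L ^ 6 := one_le_pow₀ (by linarith)
  have hB6 : 0 ≤ B ^ 6 := by
    have : 0 ≤ B := by linarith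
    positivity
  have f9 : 3000 * B ^ 6 * 0.6931 ≤ 3000 * B ^ 6 * Real.log 2 :=
    mul_le_mul_of_nonneg_left g1.le (by positivity)
  rw [f6] at f4
  rw [f7] at f5
  norm_num at f4 f5
  linarith

/-- the number of decimals -/
theorem num_log {c B : ℕ} {L : ℝ} (hc : 0 < c) (hL : 100 ≤ L) (hB : 1.44 * L ≤ B)
    (h5 : Real.log c ≤ Real.exp (3000 * (1 + L) ^ 6)) :
    2 * Nat.log 2 c ≤ 2 ^ (3000 * B ^ 6) := by
  have g1 : (0.6931 : ℝ) < Real.log 2 := by linarith [Real.log_two_gt_d9]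
  have e1 : ((2 : ℝ)) ^ Nat.log 2 c ≤ c := by
    exact_mod_cast Nat.pow_log_le_self 2 hc.ne'
  have e2 := Real.log_le_log (by positivity) e1
  rw [Real.log_pow] at e2
  have e3 : (Nat.log 2 c : ℝ) * (1 / 2) ≤ Real.exp (3000 * (1 + L) ^ 6) := by
    have : (Nat.log 2 c : ℝ) * (1 / 2) ≤ Nat.log 2 c * Real.log 2 :=
      mul_le_mul_of_nonneg_left (by linarith) (Nat.cast_nonneg _)
    linarith
  have e4 : ((2 * Nat.log 2 c : ℕ) : ℝ) ≤ 4 * Real.exp (3000 * (1 + L) ^ 6) := by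
    push_cast
    linarith
  have e5 := num_exp hL hB
  have e6 : Real.exp (3000 * (B : ℝ) ^ 6 * Real.log 2) = (2 : ℝ) ^ (3000 * B ^ 6) := by
    have h1 : 3000 * (B : ℝ) ^ 6 * Real.log 2 = ((3000 * B ^ 6 : ℕ) : ℝ) * Real.log 2 := by
      push_cast
      ring
    rw [h1, Real.exp_nat_mul, Real.exp_log (by norm_num)]
  have e7 : ((2 * Nat.log 2 c : ℕ) : ℝ) ≤ ((2 ^ (3000 * B ^ 6) : ℕ) : ℝ) := by
    rw [Nat.cast_pow]
    push_cast at e4 ⊢
    rw [← e6]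
    exact e4.trans e5
  exact_mod_cast e7

/-- a prime with a large exponent -/
theorem exists_heavy {k0 : ℕ} (hk0 : 1 ≤ k0) {P Q : Finset ℕ} {A B D : Fin 3} {e : ℕ} {X l : ℝ}
    {t : Fin 3 → ℕ} {r : ℕ} (hP : ∀ q ∈ P, q.Prime) (h : InP k0 P Q A B D e X l t r) {M : ℕ}
    (hbig : (k0 : ℝ) * (M * ∑ q ∈ P, Real.log (q : ℝ)) < Real.log (t 2)) :
    ∃ p ∈ P, p ^ M ∣ t A := by
  by_contra hcon
  push Not at hcon
  have hk : (0 : ℝ) < k0 := by exact_mod_cast hk0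
  have h1 : ∑ q ∈ Q, (vv t q : ℝ) * Real.log q ≤ M * ∑ q ∈ P, Real.log (q : ℝ) := by
    rw [Finset.mul_sum]
    refine le_trans (Finset.sum_le_sum fun q hq => ?_)
      (Finset.sum_le_sum_of_subset_of_nonneg h.QS fun q hq _ =>
        mul_nonneg (Nat.cast_nonneg _) (log_prime_nonneg (hP q hq)))
    have hqP := h.QS hq
    have hqp := hP q hqP
    refine mul_le_mul_of_nonneg_right ?_ (log_prime_nonneg hqp)
    have h2 := hcon q hqP
    rw [hqp.pow_dvd_iff_le_factorization (h.tr.pos' A).ne', not_le] at h2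
    rw [h.tr.vv_eq hqp (h.QA q hq)]
    exact_mod_cast h2.le
  have h2 := h.wt.trans h1
  rw [div_le_iff₀ hk, mul_comm] at h2
  exact absurd hbig (not_lt.2 h2)

/-- the numerical facts about the parameters -/
theorem num_par {κ w c B N0 : ℕ} {L lam : ℝ} (hκ : 10 ≤ κ) (hw : w = 40 * κ)
    (hN0 : N0 = 32 * ((w + 2) * κ) + 1) (hB1 : 1 ≤ B) (hlam : lam = Real.log L) (hL : 100 ≤ L)
    (hBlow : 1.44 * L ≤ B) (hBup : (B : ℝ) ≤ 2 * L) (hlamL : 300 * lam ≤ L)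
    (hc : 100 * (κ * (c + 2) : ℕ) ≤ lam) (hN : 10 * Real.log (4 * N0) ≤ lam)
    {b g v a n J z : ℕ} (hb : b = Nat.clog 2 B) (hg : g = Nat.clog 2 (N0 * B))
    (hv : v = B / κ + 1) (ha : a = B / κ + 1) (hz : z = a + 7 * b + 17)
    (hJ : J = 1 + (2 * v + g * n)) (hn : ((n : ℝ) + 1) * lam ≤ 2 * L) :
    (b : ℝ) ≤ 3 * lam ∧ (2 : ℝ) ^ g ≤ 4 * N0 * L ∧ 1 ≤ g ∧ c + 1 ≤ a ∧ J + 1 ≤ 4 * B ∧
      32 * ((w + 2) * B ^ 2) ≤ (2 ^ g - 1) * v ∧ 2 * B + J + z ≤ (a - 1 - c) * w ∧ w ≤ B := by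
  have g1 : (0.6931 : ℝ) < Real.log 2 := by linarith [Real.log_two_gt_d9]
  have g2 : Real.log 2 < 0.6932 := by linarith [Real.log_two_lt_d9]
  have hLpos : 0 < L := by linarith
  have hN01 : 1 ≤ N0 := by omega
  have hcκ : (100 : ℝ) * (κ * (c + 2)) ≤ lam := by exact_mod_cast hc
  have hκr : (10 : ℝ) ≤ κ := by exact_mod_cast hκ
  have hc0 : (0 : ℝ) ≤ c := Nat.cast_nonneg _
  have hκ2 : (κ : ℝ) * 2 ≤ κ * (c + 2) := mul_le_mul_of_nonneg_left (by linarith) (by linarith)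
  have hlam0 : 2000 ≤ lam := by linarith
  have hlog4 : Real.log (4 * N0) ≤ lam / 10 := by linarith
  have hNB : 1 ≤ N0 * B := Nat.mul_pos hN01 hB1
  have hκB : B < κ * (B / κ + 1) := Nat.lt_mul_div_succ B (by omega)
  have hκB2 : κ * (B / κ) ≤ B := Nat.mul_div_le B κ
  -- `b`
  have hB1' : 1 < B := by
    have : (1 : ℝ) < B := by linarith
    exact_mod_cast this
  have r1 : (b : ℝ) ≤ 3 * lam := by
    have h2 := Nat.pow_pred_clog_lt_self (b := 2) (by norm_num) hB1'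
    have h3 : 0 < Nat.clog 2 B := Nat.clog_pos (by norm_num) hB1'
    rw [← hb] at h2 h3
    have h4 : ((2 : ℝ)) ^ (b - 1) ≤ B := by
      have : 2 ^ (b - 1) ≤ B := h2.le
      exact_mod_cast this
    have h5 := Real.log_le_log (by positivity) (h4.trans hBup)
    rw [Real.log_pow, Real.log_mul (by norm_num) hLpos.ne', ← hlam,
      Nat.cast_sub (by omega)] at h5
    push_cast at h5
    by_contra hcon
    rw [not_le] at hcon
    have h6 : (3 * lam - 1) * Real.log 2 ≤ ((b : ℝ) - 1) * Real.log 2 :=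
      mul_le_mul_of_nonneg_right (by linarith) (by linarith)
    have h7 : (3 * lam - 1) * 0.6931 ≤ (3 * lam - 1) * Real.log 2 :=
      mul_le_mul_of_nonneg_left g1.le (by linarith)
    linarith
  -- `g`
  have hNB1 : 1 < N0 * B := lt_of_lt_of_le hB1' (Nat.le_mul_of_pos_left _ hN01)
  have hg1 : 1 ≤ g := by rw [hg]; exact Nat.clog_pos (by norm_num) hNB1
  have r2 : (2 : ℝ) ^ g ≤ 4 * N0 * L := by
    have h2 := Nat.pow_pred_clog_lt_self (b := 2) (by norm_num) hNB1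
    rw [← hg] at h2
    have h3 : (2 : ℝ) ^ (g - 1) ≤ N0 * B := by
      have : 2 ^ (g - 1) ≤ N0 * B := h2.le
      exact_mod_cast this
    have h4 : (2 : ℝ) ^ g = 2 * 2 ^ (g - 1) := by
      rw [← pow_succ']; congr 1; omega
    have h5 : (N0 : ℝ) * B ≤ N0 * (2 * L) := mul_le_mul_of_nonneg_left hBup (Nat.cast_nonneg _)
    rw [h4]
    linarith
  have hglog : (g : ℝ) * Real.log 2 ≤ lam * 1.1 := by
    have h1 := Real.log_le_log (by positivity) r2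
    have hN0r : (0 : ℝ) < N0 := by exact_mod_cast hN01
    rw [Real.log_pow, Real.log_mul (by positivity) hLpos.ne', ← hlam] at h1
    linarith
  have hn0 : (0 : ℝ) ≤ n := Nat.cast_nonneg _
  have hgn : (g : ℝ) * n ≤ 3.2 * L := by
    have h1 : (g : ℝ) * n * Real.log 2 ≤ 2.2 * L := by
      calc (g : ℝ) * n * Real.log 2 = (g * Real.log 2) * n := by ring
        _ ≤ (lam * 1.1) * n := mul_le_mul_of_nonneg_right hglog hn0
        _ ≤ 1.1 * ((n + 1) * lam) := by nlinarith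
        _ ≤ 1.1 * (2 * L) := mul_le_mul_of_nonneg_left hn (by norm_num)
        _ = 2.2 * L := by ring
    by_contra hcon
    rw [not_le] at hcon
    have h2 : 3.2 * L * Real.log 2 ≤ g * n * Real.log 2 :=
      mul_le_mul_of_nonneg_right hcon.le (by linarith)
    have h3 : 3.2 * L * 0.6931 ≤ 3.2 * L * Real.log 2 :=
      mul_le_mul_of_nonneg_left g1.le (by linarith)
    linarith
  have h10 : 10 * (B / κ) ≤ B := (Nat.mul_le_mul_right _ hκ).trans hκB2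
  have h10r : (10 : ℝ) * ((B / κ : ℕ) : ℝ) ≤ B := by exact_mod_cast h10
  have hLB : L ≤ B := by linarith
  have r5 : J + 1 ≤ 4 * B := by
    have h1 : ((J + 1 : ℕ) : ℝ) ≤ ((4 * B : ℕ) : ℝ) := by
      rw [hJ, hv]
      push_cast
      linarith
    exact_mod_cast h1
  have hcBr : (100 : ℝ) * (κ * (c + 2)) ≤ B := by linarith
  have hcB : 100 * (κ * (c + 2)) ≤ B := by exact_mod_cast hcBr
  have hcB' : 100 * (κ * c) + 200 * κ ≤ B := by
    have : 100 * (κ * (c + 2)) = 100 * (κ * c) + 200 * κ := by ring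
    omega
  have hbB : 7 * b + 18 ≤ B := by
    have : ((7 * b + 18 : ℕ) : ℝ) ≤ B := by
      push_cast
      linarith
    exact_mod_cast this
  have hκc : κ * (c + 1) ≤ κ * (B / κ) := by
    have e1 : κ * (B / κ + 1) = κ * (B / κ) + κ := by ring
    have e2 : κ * (c + 1) = κ * c + κ := by ring
    rw [e1] at hκB
    omega
  have hcdiv : c + 1 ≤ B / κ := Nat.le_of_mul_le_mul_left hκc (by omega)
  refine ⟨r1, r2, hg1, by omega, r5, ?_, ?_, by omega⟩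
  · -- `32 (w + 2) B² ≤ (2 ^ g - 1) v`
    have h1 : N0 * B ≤ 2 ^ g := by rw [hg]; exact Nat.le_pow_clog (by norm_num) _
    have h2 : 32 * ((w + 2) * κ) * B ≤ 2 ^ g - 1 := by
      have h3 : N0 * B = 32 * ((w + 2) * κ) * B + B := by rw [hN0]; ring
      omega
    calc 32 * ((w + 2) * B ^ 2) = 32 * ((w + 2) * B) * B := by ring
      _ ≤ 32 * ((w + 2) * B) * (κ * (B / κ + 1)) := Nat.mul_le_mul_left _ hκB.le
      _ = 32 * ((w + 2) * κ) * B * v := by rw [hv]; ring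
      _ ≤ (2 ^ g - 1) * v := Nat.mul_le_mul_right _ h2
  · -- `2 B + J + z ≤ (a - 1 - c) w`
    have h1 : 2 * B + J + z ≤ 9 * B := by omega
    have h2 : a - 1 - c = B / κ - c := by omega
    rw [h2, hw]
    obtain ⟨d, hd⟩ : ∃ d, B / κ = c + d := ⟨B / κ - c, by omega⟩
    rw [hd] at hκB ⊢
    have h3 : (c + d - c) * (40 * κ) = 40 * (κ * d) := by
      rw [Nat.add_sub_cancel_left]; ring
    have h4 : κ * (c + d + 1) = κ * c + κ * d + κ := by ring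
    rw [h3]
    rw [h4] at hκB
    omega

/-- the size of `M` -/
theorem num_M {κ c B k0 : ℕ} {L lam η η1 C s : ℝ} (hlam : lam = Real.log L) (hL : 100 ≤ L)
    (hκη : 20 ≤ κ * η) (hκ : 10 ≤ κ) (hBup : (B : ℝ) ≤ 2 * L) (hη1 : 100 * η1 ≤ η)
    (hlamL : 3 * lam ≤ η1 * L) (hc : 100 * (κ * (c + 2) : ℕ) ≤ lam) (hk0 : (k0 : ℝ) ≤ lam)
    (hs : s ≤ L)
    {b g v a n J z : ℕ} (hb : (b : ℝ) ≤ 3 * lam) (hC : (2 : ℝ) ^ g ≤ C * L)
    (hv : v = B / κ + 1) (ha : a = B / κ + 1) (hz : z = a + 7 * b + 17)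
    (hJ : J = 1 + (2 * v + g * n)) :
    (k0 : ℝ) * (((2 ^ (J + z + 2 * (b + c) + 8) : ℕ) : ℝ) * s) ≤
      (C * L) ^ (n + 1) * Real.exp (η * L) := by
  have g1 : (0.6931 : ℝ) < Real.log 2 := by linarith [Real.log_two_gt_d9]
  have g2 : Real.log 2 < 0.6932 := by linarith [Real.log_two_lt_d9]
  have hLpos : 0 < L := by linarith
  have hcκ : (100 : ℝ) * (κ * (c + 2)) ≤ lam := by exact_mod_cast hc
  have hκr : (10 : ℝ) ≤ κ := by exact_mod_cast hκ
  have hκ0 : (0 : ℝ) < κ := by linarith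
  have hc0 : (0 : ℝ) ≤ c := Nat.cast_nonneg _
  have hκc : (10 : ℝ) * (c + 2) ≤ κ * (c + 2) := mul_le_mul_of_nonneg_right hκr (by linarith)
  have hlam0 : 2000 ≤ lam := by linarith
  have hdiv : ((B / κ : ℕ) : ℝ) * κ ≤ 2 * L := by
    have h1 : (B / κ) * κ ≤ B := Nat.div_mul_le_self B κ
    have h2 : ((B / κ : ℕ) : ℝ) * κ ≤ B := by exact_mod_cast h1
    exact h2.trans hBup
  -- `10 (B / κ) ≤ η L`
  have hdivη : 10 * ((B / κ : ℕ) : ℝ) ≤ η * L := by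
    have h0 : (0 : ℝ) ≤ ((B / κ : ℕ) : ℝ) := Nat.cast_nonneg _
    have h1 : ((B / κ : ℕ) : ℝ) * 20 ≤ ((B / κ : ℕ) : ℝ) * (κ * η) :=
      mul_le_mul_of_nonneg_left hκη h0
    have hη0 : 0 ≤ η := by
      by_contra hcon
      rw [not_le] at hcon
      have : (κ : ℝ) * η < 0 := mul_neg_of_pos_of_neg hκ0 hcon
      linarith
    have h2 : ((B / κ : ℕ) : ℝ) * (κ * η) = (((B / κ : ℕ) : ℝ) * κ) * η := by ring
    have h3 : (((B / κ : ℕ) : ℝ) * κ) * η ≤ (2 * L) * η := mul_le_mul_of_nonneg_right hdiv hη0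
    linarith
  obtain ⟨d, hd⟩ : ∃ d : ℕ, d = 3 * (B / κ) + 9 * b + 2 * c + 29 := ⟨_, rfl⟩
  have hexp : J + z + 2 * (b + c) + 8 = g * n + d := by
    rw [hJ, hz, hv, ha, hd]; ring
  have hdr : (d : ℝ) * Real.log 2 + 2 * lam ≤ η * L := by
    have h1 : (d : ℝ) ≤ 3 * ((B / κ : ℕ) : ℝ) + 28 * lam := by
      rw [hd]
      push_cast
      linarith
    have h2 : (d : ℝ) * Real.log 2 ≤ (3 * ((B / κ : ℕ) : ℝ) + 28 * lam) * 1 :=
      mul_le_mul h1 (by linarith) (by linarith) (by positivity)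
    have h3 : 100 * (η1 * L) ≤ η * L := by
      have := mul_le_mul_of_nonneg_right hη1 hLpos.le
      linarith
    linarith
  have hk0' : (k0 : ℝ) ≤ Real.exp lam := by
    have := Real.add_one_le_exp lam
    linarith
  have hs' : s ≤ Real.exp lam := by rw [hlam, Real.exp_log hLpos]; exact hs
  have hP1 : (2 : ℝ) ^ (g * n) ≤ (C * L) ^ (n + 1) := by
    calc (2 : ℝ) ^ (g * n) ≤ 2 ^ (g * (n + 1)) :=
          pow_le_pow_right₀ (by norm_num) (Nat.mul_le_mul_left _ (Nat.le_succ _))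
      _ = ((2 : ℝ) ^ g) ^ (n + 1) := by rw [pow_mul]
      _ ≤ (C * L) ^ (n + 1) := pow_le_pow_left₀ (by positivity) hC _
  have hP2 : (2 : ℝ) ^ d = Real.exp (d * Real.log 2) := by
    rw [Real.exp_nat_mul, Real.exp_log (by norm_num)]
  have hM0 : (0 : ℝ) ≤ ((2 ^ (J + z + 2 * (b + c) + 8) : ℕ) : ℝ) := Nat.cast_nonneg _
  have hMe : ((2 ^ (J + z + 2 * (b + c) + 8) : ℕ) : ℝ) = (2 : ℝ) ^ (g * n) * 2 ^ d := by
    rw [hexp, ← pow_add]
    push_cast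
    rfl
  calc (k0 : ℝ) * (((2 ^ (J + z + 2 * (b + c) + 8) : ℕ) : ℝ) * s) ≤
      Real.exp lam * (((2 ^ (J + z + 2 * (b + c) + 8) : ℕ) : ℝ) * Real.exp lam) := by
        refine (mul_le_mul_of_nonneg_left (mul_le_mul_of_nonneg_left hs' hM0)
          (Nat.cast_nonneg _)).trans ?_
        exact mul_le_mul_of_nonneg_right hk0' (mul_nonneg hM0 (Real.exp_pos _).le)
    _ = (2 : ℝ) ^ (g * n) * Real.exp (d * Real.log 2 + 2 * lam) := by
        rw [hMe, hP2, Real.exp_add, two_mul, Real.exp_add]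
        ring
    _ ≤ (C * L) ^ (n + 1) * Real.exp (η * L) :=
        mul_le_mul hP1 (Real.exp_le_exp.2 hdr) (Real.exp_pos _).le (by
          refine le_trans (by positivity) hP1)

theorem few_primes {k0 : ℕ} (hk0 : 1 ≤ k0) {η : ℝ} (hη : 0 < η) : ∃ C : ℝ, 1 ≤ C ∧
    ∃ X0 : ℝ, 1 ≤ X0 ∧ ∀ X : ℝ, X0 ≤ X → ∀ P R : Finset ℕ, (∀ q ∈ P, q.Prime) →
    ∑ q ∈ P, Real.log (q : ℝ) ≤ Real.log X → (∀ r ∈ R, r.Prime ∧ (r : ℝ) ≤ X) → Disjoint P R →
    (P.card : ℝ) ≤ 2 * Real.log X / Real.log (Real.log X) →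
    (∀ r ∈ R, ∃ (A B D : Fin 3) (Q : Finset ℕ) (e : ℕ) (l : ℝ) (t : Fin 3 → ℕ),
      A ≠ B ∧ B ≠ D ∧ A ≠ D ∧ InP k0 P Q A B D e X l t r ∧
      (C * Real.log X) ^ P.card * X ^ η < Real.log (t 2) ∧
      Real.log (t 2) ≤ Real.exp (3000 * (1 + Real.log X) ^ 6)) →
    (R.card : ℝ) ≤ X ^ η := by
  classical
  obtain ⟨κ0, hκ0⟩ : ∃ κ0 : ℕ, 20 / η ≤ κ0 := exists_nat_ge _
  obtain ⟨κ, hκ⟩ : ∃ κ, κ = κ0 + 10 := ⟨_, rfl⟩
  have hκ10 : 10 ≤ κ := by omega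
  have hκη : 20 ≤ κ * η := by
    rw [div_le_iff₀ hη] at hκ0
    rw [hκ]
    push_cast
    nlinarith
  obtain ⟨w, hw⟩ : ∃ w, w = 40 * κ := ⟨_, rfl⟩
  obtain ⟨c, hc⟩ : ∃ c, c = Nat.clog 2 (w + 2) := ⟨_, rfl⟩
  have hwc : w + 2 ≤ 2 ^ c := by rw [hc]; exact Nat.le_pow_clog (by norm_num) _
  obtain ⟨N0, hN0⟩ : ∃ N0, N0 = 32 * ((w + 2) * κ) + 1 := ⟨_, rfl⟩
  have hN01 : 1 ≤ N0 := by omega
  have hN0r : (1 : ℝ) ≤ N0 := by exact_mod_cast hN01
  obtain ⟨C0, hC0⟩ : ∃ C0, C0 = 100 * (κ * (c + 2)) + ⌈10 * Real.log (4 * N0)⌉₊ + k0 := ⟨_, rfl⟩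
  obtain ⟨η1, hη1⟩ : ∃ η1, η1 = min (η / 100) (1 / 100) := ⟨_, rfl⟩
  have hη10 : 0 < η1 := by rw [hη1]; exact lt_min (by positivity) (by norm_num)
  have hη1a : 100 * η1 ≤ η := by
    have : η1 ≤ η / 100 := by rw [hη1]; exact min_le_left _ _
    linarith
  have hη1b : η1 ≤ 1 / 100 := by rw [hη1]; exact min_le_right _ _
  obtain ⟨L0, hL0, hL0'⟩ := large_L hη10 C0
  refine ⟨4 * N0, by linarith, Real.exp L0, Real.one_le_exp (by linarith),
    fun X hX P R hP hPs hR hPR hPc H => ?_⟩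
  have hX0 : 0 < X := lt_of_lt_of_le (Real.exp_pos _) hX
  obtain ⟨L, hL⟩ : ∃ L, L = Real.log X := ⟨_, rfl⟩
  have hLL : L0 ≤ L := by rw [hL, Real.le_log_iff_exp_le hX0]; exact hX
  obtain ⟨hA, hB3, hC⟩ := hL0' L hLL
  rw [← hL] at hPc hPs
  obtain ⟨lam, hlam⟩ : ∃ lam, lam = Real.log L := ⟨_, rfl⟩
  rw [← hlam] at hA hB3 hPc
  have hL100 : 100 ≤ L := hL0.trans hLL
  have hLpos : 0 < L := by linarith
  have hlam0 : 0 < lam := by
    have : (0 : ℝ) ≤ C0 := Nat.cast_nonneg _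
    linarith
  have hXexp : X = Real.exp L := by rw [hL, Real.exp_log hX0]
  have hη1L : η1 * L ≤ 1 / 100 * L := mul_le_mul_of_nonneg_right hη1b hLpos.le
  have hXη : ∀ s : ℝ, X ^ s = Real.exp (s * L) := by
    intro s
    rw [Real.rpow_def_of_pos hX0, ← hL, mul_comm]
  -- constants
  have hC0r : (C0 : ℝ) = ((100 * (κ * (c + 2)) : ℕ) : ℝ) +
      ((⌈10 * Real.log (4 * N0)⌉₊ : ℕ) : ℝ) + k0 := by rw [hC0]; push_cast; ring
  have p1 : (0 : ℝ) ≤ ((100 * (κ * (c + 2)) : ℕ) : ℝ) := Nat.cast_nonneg _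
  have p2 : (0 : ℝ) ≤ ((⌈10 * Real.log (4 * N0)⌉₊ : ℕ) : ℝ) := Nat.cast_nonneg _
  have p3 : (0 : ℝ) ≤ (k0 : ℝ) := Nat.cast_nonneg _
  have p4 : 10 * Real.log (4 * N0) ≤ ((⌈10 * Real.log (4 * N0)⌉₊ : ℕ) : ℝ) := Nat.le_ceil _
  have hcl : 100 * ((κ * (c + 2) : ℕ) : ℝ) ≤ lam := by
    have : ((100 * (κ * (c + 2)) : ℕ) : ℝ) = 100 * ((κ * (c + 2) : ℕ) : ℝ) := by push_cast; ring
    linarith
  have hNl : 10 * Real.log (4 * N0) ≤ lam := by linarith
  have hkl : (k0 : ℝ) ≤ lam := by linarith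
  -- `R` empty
  rcases R.eq_empty_or_nonempty with hRe | ⟨r0, hr0⟩
  · rw [hRe, Finset.card_empty, Nat.cast_zero]
    positivity
  have hPpos : 0 < P.card := by
    obtain ⟨A, B, D, Q, e, l, t, -, -, -, h4, h5, -⟩ := H r0 hr0
    have h6 : 0 ≤ (4 * (N0 : ℝ) * Real.log X) ^ P.card * X ^ η := by
      rw [← hL]
      positivity
    obtain ⟨p, hp, -⟩ := exists_heavy hk0 hP h4 (M := 0) (by
      push_cast
      linarith)
    exact Finset.card_pos.2 ⟨p, hp⟩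
  obtain ⟨n, hn⟩ : ∃ n, P.card = n + 1 := ⟨P.card - 1, by omega⟩
  have hnl : ((n : ℝ) + 1) * lam ≤ 2 * L := by
    have h1 : (P.card : ℝ) = (n : ℝ) + 1 := by rw [hn]; push_cast; ring
    rw [h1, le_div_iff₀ hlam0] at hPc
    exact hPc
  -- parameters
  have g1 : (0.6931 : ℝ) < Real.log 2 := by linarith [Real.log_two_gt_d9]
  have g2 : Real.log 2 < 0.6932 := by linarith [Real.log_two_lt_d9]
  obtain ⟨B, hB⟩ : ∃ B, B = ⌈L / Real.log 2⌉₊ := ⟨_, rfl⟩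
  have hBlow : L ≤ B * Real.log 2 := by
    have h1 : L / Real.log 2 ≤ B := by rw [hB]; exact Nat.le_ceil _
    rwa [div_le_iff₀ (by linarith)] at h1
  have hBup : (B : ℝ) ≤ 2 * L := by
    have h1 : (B : ℝ) < L / Real.log 2 + 1 := by
      rw [hB]
      exact Nat.ceil_lt_add_one (by positivity)
    have h2 : L / Real.log 2 ≤ 3 / 2 * L := by
      rw [div_le_iff₀ (by linarith)]
      have h3 : L * 0.6931 ≤ L * Real.log 2 := mul_le_mul_of_nonneg_left g1.le hLpos.le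
      have h4 : 3 / 2 * L * Real.log 2 = 3 / 2 * (L * Real.log 2) := by ring
      rw [h4]
      linarith only [h3, hLpos]
    linarith
  have hBlow' : 1.44 * L ≤ B := by
    by_contra hcon
    rw [not_le] at hcon
    have h1 : (B : ℝ) * Real.log 2 ≤ B * 0.6932 :=
      mul_le_mul_of_nonneg_left g2.le (Nat.cast_nonneg _)
    linarith only [h1, hcon, hBlow, hLpos]
  have hB1 : 1 ≤ B := by
    have : (0 : ℝ) < B := by linarith
    exact_mod_cast this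
  obtain ⟨b, hb⟩ : ∃ b, b = Nat.clog 2 B := ⟨_, rfl⟩
  have hBb : B ≤ 2 ^ b := by rw [hb]; exact Nat.le_pow_clog (by norm_num) _
  obtain ⟨g, hg⟩ : ∃ g, g = Nat.clog 2 (N0 * B) := ⟨_, rfl⟩
  obtain ⟨v, hv⟩ : ∃ v, v = B / κ + 1 := ⟨_, rfl⟩
  obtain ⟨a, ha⟩ : ∃ a, a = B / κ + 1 := ⟨_, rfl⟩
  obtain ⟨z, hz⟩ : ∃ z, z = a + 7 * b + 17 := ⟨_, rfl⟩
  obtain ⟨J, hJ⟩ : ∃ J, J = 1 + (2 * v + g * n) := ⟨_, rfl⟩
  obtain ⟨q1, q2, q3, q4, q5, q6, q7, q8⟩ := num_par hκ10 hw hN0 hB1 hlam hL100 hBlow' hBup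
    (by linarith) hcl hNl hb hg hv ha hz hJ hnl
  have hX2B : X ≤ 2 ^ B := by
    rw [hXexp, ← Real.le_log_iff_exp_le (by positivity), Real.log_pow]
    exact hBlow
  have hle2B : ∀ q : ℕ, (q : ℝ) ≤ X → q ≤ 2 ^ B := by
    intro q hq
    have : (q : ℝ) ≤ 2 ^ B := hq.trans hX2B
    exact_mod_cast this
  have hPX : ∀ q ∈ P, (q : ℝ) ≤ X := by
    intro q hq
    have h1 : Real.log (q : ℝ) ≤ L := (Finset.single_le_sum (f := fun q : ℕ => Real.log (q : ℝ))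
      (fun q hq => log_prime_nonneg (hP q hq)) hq).trans hPs
    have hq0 : (0 : ℝ) < q := by exact_mod_cast (hP q hq).pos
    rw [hXexp, ← Real.log_le_iff_le_exp hq0]
    exact h1
  have hmain := few_r_par hB1 hBb q3 (by omega) q8 hwc q4 hJ q5 q6 hz q7 hn hP
    (fun r hr => (hR r hr).1) hPR (fun q hq => hle2B q (hPX q hq))
    (fun r hr => hle2B r (hR r hr).2) (by
      intro r hr
      obtain ⟨A, B', D, Q, e, l, t, h1, h2, h3, h4, h5, h6⟩ := H r hr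
      obtain ⟨p, hp, hpM⟩ := exists_heavy hk0 hP h4 (M := 2 ^ (J + z + 2 * (b + c) + 8)) (by
        refine lt_of_le_of_lt ?_ h5
        rw [← hL, hXη, hn]
        exact num_M hlam hL100 hκη hκ10 hBup hη1a hB3 hcl hkl hPs q1 q2 hv ha hz hJ)
      refine ⟨(A, B', D), p, t, h1, h2, h3, h4.tr, hp, hpM, h4.pB, h4.fB, h4.fC, ?_⟩
      rw [← hL] at h6
      exact num_log (h4.tr.pos' 2) hL100 hBlow' h6)
  -- conclusion
  have hRc : (R.card : ℝ) ≤ 27 * (n + 1) * 2 ^ a := by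
    have := hmain.le
    exact_mod_cast this
  refine hRc.trans ?_
  rw [hXη]
  have e1 : 27 * ((n : ℝ) + 1) ≤ Real.exp (2 * lam) := by
    have h1 : ((n : ℝ) + 1) * 1 ≤ (n + 1) * lam :=
      mul_le_mul_of_nonneg_left (by linarith) (by positivity)
    have h2 : Real.exp (2 * lam) = L * L := by
      rw [two_mul, Real.exp_add, hlam, Real.exp_log hLpos]
    have h3 : 100 * L ≤ L * L := mul_le_mul_of_nonneg_right hL100 hLpos.le
    rw [h2]
    linarith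
  have e2 : (2 : ℝ) ^ a = Real.exp (a * Real.log 2) := by
    rw [Real.exp_nat_mul, Real.exp_log (by norm_num)]
  rw [e2]
  calc 27 * ((n : ℝ) + 1) * Real.exp (a * Real.log 2) ≤
      Real.exp (2 * lam) * Real.exp (a * Real.log 2) :=
        mul_le_mul_of_nonneg_right e1 (Real.exp_pos _).le
    _ = Real.exp (2 * lam + a * Real.log 2) := by rw [Real.exp_add]
    _ ≤ Real.exp (η * L) := by
        apply Real.exp_le_exp.2
        have h1 : ((B / κ : ℕ) : ℝ) * 20 ≤ ((B / κ : ℕ) : ℝ) * (κ * η) :=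
          mul_le_mul_of_nonneg_left hκη (Nat.cast_nonneg _)
        have h2 : ((B / κ : ℕ) : ℝ) * κ ≤ 2 * L := by
          have h3 : (B / κ) * κ ≤ B := Nat.div_mul_le_self B κ
          have h4 : ((B / κ : ℕ) : ℝ) * κ ≤ B := by exact_mod_cast h3
          exact h4.trans hBup
        have h3 : ((B / κ : ℕ) : ℝ) * (κ * η) = (((B / κ : ℕ) : ℝ) * κ) * η := by ring
        have h4 : (((B / κ : ℕ) : ℝ) * κ) * η ≤ (2 * L) * η :=
          mul_le_mul_of_nonneg_right h2 hη.le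
        have h5 : (a : ℝ) = ((B / κ : ℕ) : ℝ) + 1 := by rw [ha]; push_cast; ring
        have h6 : (a : ℝ) * Real.log 2 ≤ (((B / κ : ℕ) : ℝ) + 1) * 1 := by
          rw [h5]
          exact mul_le_mul_of_nonneg_left (by linarith) (by positivity)
        have h7 : 100 * (η1 * L) ≤ η * L := by
          have := mul_le_mul_of_nonneg_right hη1a hLpos.le
          linarith
        linarith

end Pool.Agent.TH867.SB
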