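import Pool.Agent.TH867.SB.Sum
import Pool.Agent.TH867.SR.Main

/-!
The triples of the class `InP` of one scale, for a given product `m` of prescribed primes
(helper867).
-/

set_option autoImplicit false

namespace Pool.Agent.TH867.SB

open Finset
open Pool.Agent.TH867.SR (Tr N3 rr rr_nonneg InP vv Scale card_P log_N3_le numeric sq_log_small)

/-- `t` is of the class `InP` for the product `m`, with the distinguished prime `p` -/
def PP (k : ℕ) (X l : ℝ) (m : ℕ) (t : Fin 3 → ℕ) (p : ℕ) : Prop :=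
  ∃ (A B C : Fin 3) (Q : Finset ℕ) (e : ℕ), A ≠ B ∧ B ≠ C ∧ A ≠ C ∧
    InP k m.primeFactors Q A B C e X l t p

theorem low_m {k : ℕ} (hk : 1 ≤ k) {X l : ℝ} (hl : 2 * (k : ℝ) ≤ l) {n K E m : ℕ} (hn : 0 < n)
    (hm : 1 ≤ m) (F : Finset (Fin 3 → ℕ)) (hF : ∀ t ∈ F, ∃ p, PP k X l m t p)
    (hK : ∀ t ∈ F, t 2 ≤ 2 ^ K) (hE : ∀ t ∈ F, ∀ p, vv t p ≤ E)
    (hcond : 8 * m * (n * K + 1) ^ (2 * m.primeFactors.card) < 2 ^ n)
    (hbad : ∀ e : ℕ, e ≤ E → Real.log e + n * Real.log ⌊X⌋₊ < 3 / 4 * (l / k)) :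
    F.card ≤ 27 * (2 ^ m.primeFactors.card *
      ((E + 1) * (2 ^ (18 * k * (m.primeFactors.card + 1)) * n))) := by
  classical
  obtain ⟨FP, hFP⟩ : ∃ FP : Fin 3 × Fin 3 × Fin 3 → Finset ℕ → ℕ → Finset (Fin 3 → ℕ),
      FP = fun σ Q e => F.filter fun t => σ.1 ≠ σ.2.1 ∧ σ.2.1 ≠ σ.2.2 ∧ σ.1 ≠ σ.2.2 ∧
        ∃ p, InP k m.primeFactors Q σ.1 σ.2.1 σ.2.2 e X l t p := ⟨_, rfl⟩
  have hsub : F ⊆ (Finset.univ : Finset (Fin 3 × Fin 3 × Fin 3)).biUnion (fun σ =>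
      m.primeFactors.powerset.biUnion (fun Q => (Finset.range (E + 1)).biUnion (fun e =>
        FP σ Q e))) := by
    intro t ht
    obtain ⟨p, A, B, C, Q, e, hAB, hBC, hAC, hP⟩ := hF t ht
    rw [Finset.mem_biUnion]
    refine ⟨(A, B, C), Finset.mem_univ _, ?_⟩
    rw [Finset.mem_biUnion]
    refine ⟨Q, Finset.mem_powerset.2 hP.QS, ?_⟩
    rw [Finset.mem_biUnion]
    refine ⟨e, Finset.mem_range.2 (Nat.lt_succ_of_le ?_), ?_⟩
    · rw [← hP.ve]
      exact hE t ht p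
    · rw [hFP]
      exact Finset.mem_filter.2 ⟨ht, hAB, hBC, hAC, p, hP⟩
  have hSp : ∀ q ∈ m.primeFactors, q.Prime := fun q hq => Nat.prime_of_mem_primeFactors hq
  have c2 : ∀ σ Q e, e ∈ Finset.range (E + 1) → (FP σ Q e).card ≤
      2 ^ (18 * k * (m.primeFactors.card + 1)) * n := by
    intro σ Q e he
    rw [hFP]
    by_cases hσ : σ.1 ≠ σ.2.1 ∧ σ.2.1 ≠ σ.2.2 ∧ σ.1 ≠ σ.2.2
    · obtain ⟨hAB, hBC, hAC⟩ := hσ
      refine card_P hk (S := m.primeFactors) (Q := Q) (X := X) (e := e) (K := K) hAB hBC hAC hSp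
        hl hn _ ?_ ?_ ?_ (hbad e (Nat.lt_succ_iff.1 (Finset.mem_range.1 he)))
      · intro t ht
        exact (Finset.mem_filter.1 ht).2.2.2.2
      · intro t ht
        exact hK t (Finset.mem_filter.1 ht).1
      · refine lt_of_le_of_lt (Nat.mul_le_mul_right _ (Nat.mul_le_mul_left _ ?_)) hcond
        exact Nat.le_of_dvd hm (Nat.prod_primeFactors_dvd m)
    · have : (F.filter fun t => σ.1 ≠ σ.2.1 ∧ σ.2.1 ≠ σ.2.2 ∧ σ.1 ≠ σ.2.2 ∧
          ∃ p, InP k m.primeFactors Q σ.1 σ.2.1 σ.2.2 e X l t p) = ∅ := by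
        rw [Finset.eq_empty_iff_forall_notMem]
        intro t ht
        obtain ⟨_, a1, a2, a3, _⟩ := Finset.mem_filter.1 ht
        exact hσ ⟨a1, a2, a3⟩
      simp only
      rw [this, Finset.card_empty]
      exact Nat.zero_le _
  refine (Finset.card_le_card hsub).trans ?_
  refine (Finset.card_biUnion_le_card_mul _ _ (2 ^ m.primeFactors.card * ((E + 1) *
    (2 ^ (18 * k * (m.primeFactors.card + 1)) * n))) ?_).trans (le_of_eq ?_)
  · intro σ _
    refine (Finset.card_biUnion_le_card_mul _ _ ((E + 1) *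
      (2 ^ (18 * k * (m.primeFactors.card + 1)) * n)) ?_).trans (le_of_eq ?_)
    · intro Q _
      refine (Finset.card_biUnion_le_card_mul _ _
        (2 ^ (18 * k * (m.primeFactors.card + 1)) * n) ?_).trans (le_of_eq ?_)
      · intro e he
        exact c2 σ Q e he
      · rw [Finset.card_range]
    · rw [Finset.card_powerset]
  · rw [Finset.card_univ]
    rfl

/-- the bound at one scale, for one product `m` -/
theorem low_scale {k : ℕ} (hk : 3 ≤ k) {η : ℝ} (hη : 0 < η) : ∃ L0 : ℝ, 3 ≤ L0 ∧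
    ∀ X : ℝ, 1 ≤ X → L0 ≤ Real.log X → ∀ l : ℝ, Real.log X ^ (2 + η) ≤ l → l ≤ X →
    ∀ m : ℕ, 1 ≤ m → (m : ℝ) ≤ X →
    ∀ F : Finset (Fin 3 → ℕ), (∀ t ∈ F, Tr t ∧ Scale k l t ∧ ∃ p, PP k X l m t p) →
    (F.card : ℝ) ≤ (27 * 126 * 2 ^ (18 * k)) * Real.log X ^ 2 * l *
      ((2 : ℝ) ^ (18 * k + 1)) ^ m.primeFactors.card := by
  classical
  have hk0 : (0 : ℝ) < k := by positivity
  have hk1 : 1 ≤ k := by omega
  have hk2 : (3 : ℝ) ≤ k := by exact_mod_cast hk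
  obtain ⟨L0, hL0, hsm⟩ := sq_log_small hη (T := 100 * (k : ℝ)) (by positivity)
  refine ⟨L0, hL0, ?_⟩
  intro X hX hXL l hl hlX m hm hmX F hF
  have hX0 : 0 < X := by linarith
  obtain ⟨L, hLd⟩ : ∃ L, L = Real.log X := ⟨_, rfl⟩
  rw [← hLd] at hXL hl ⊢
  have hL3 : 3 ≤ L := hL0.trans hXL
  obtain ⟨hlog1, hLl, hT⟩ := hsm L hXL l hl
  have hl3 : 3 ≤ l := hL3.trans hLl
  have hl0 : 0 < l := by linarith
  have hlogL : Real.log l ≤ L := by
    rw [hLd]; exact Real.log_le_log hl0 hlX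
  have hk2l : 2 * (k : ℝ) ≤ l := by
    refine le_trans ?_ hT
    have h1 : 1 ≤ L ^ 2 * Real.log l := by
      have : (1 : ℝ) ≤ L ^ 2 := by nlinarith
      nlinarith
    nlinarith
  obtain ⟨n, hn⟩ : ∃ n : ℕ, n = ⌈20 * L * Real.log l⌉₊ := ⟨_, rfl⟩
  obtain ⟨K, hK⟩ : ∃ K : ℕ, K = ⌊2 * l⌋₊ := ⟨_, rfl⟩
  obtain ⟨E, hE⟩ : ∃ E : ℕ, E = ⌊5 * l⌋₊ := ⟨_, rfl⟩
  have hn1 : 20 * L * Real.log l ≤ n := by rw [hn]; exact Nat.le_ceil _
  have hnn : 0 ≤ 20 * L * Real.log l := by positivity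
  have hn2 : (n : ℝ) ≤ 20 * L * Real.log l + 1 := by
    rw [hn]; exact (Nat.ceil_lt_add_one hnn).le
  have hn0 : 0 < n := by
    rw [hn, Nat.ceil_pos]
    positivity
  have hKl : (K : ℝ) ≤ 2 * l := by rw [hK]; exact Nat.floor_le (by positivity)
  have hEl : (E : ℝ) ≤ 5 * l := by rw [hE]; exact Nat.floor_le (by positivity)
  obtain ⟨hc, hb⟩ := numeric hk1 hL3 hlog1 hLl hT hn1 hn2 hKl hEl hX hLd.symm
  have hl2a := Real.log_two_gt_d9
  have hl2b := Real.log_two_lt_d9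
  have hsc : ∀ t ∈ F, Real.log (t 2) ≤ (1 + 1 / 12) * l := by
    intro t ht
    obtain ⟨_, h2, _⟩ := hF t ht
    refine h2.2.trans (mul_le_mul_of_nonneg_right ?_ hl0.le)
    have : 1 / (4 * (k : ℝ)) ≤ 1 / 12 := one_div_le_one_div_of_le (by norm_num) (by linarith)
    linarith
  have hKt : ∀ t ∈ F, t 2 ≤ 2 ^ K := by
    intro t ht
    have h1 := hsc t ht
    have h2 : (0 : ℝ) < t 2 := by exact_mod_cast (hF t ht).1.pos' 2
    have h3 : 2 * l - 1 < K := by rw [hK]; exact Nat.sub_one_lt_floor _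
    have h4 : Real.log (t 2) ≤ Real.log ((2 : ℝ) ^ K) := by
      rw [Real.log_pow]
      have h5 : (2 * l - 1) * Real.log 2 ≤ (K : ℝ) * Real.log 2 :=
        mul_le_mul_of_nonneg_right h3.le (by linarith)
      have h6 : (1 + 1 / 12) * l ≤ (2 * l - 1) * Real.log 2 := by nlinarith
      linarith
    have h5 := (Real.log_le_log_iff h2 (by positivity)).1 h4
    exact_mod_cast h5
  have hEt : ∀ t ∈ F, ∀ p, vv t p ≤ E := by
    intro t ht p
    obtain ⟨h1, _, _⟩ := hF t ht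
    have h2 := log_N3_le h1
    have h3 := hsc t ht
    rw [hE]
    refine Nat.le_floor ?_
    by_cases hp : p.Prime
    · have hN : (N3 t) ≠ 0 := h1.N3_pos.ne'
      have h4 : p ^ vv t p ≤ N3 t := Nat.ordProj_le p hN
      have h5 : 2 ^ vv t p ≤ N3 t := (Nat.pow_le_pow_left hp.two_le _).trans h4
      have h6 : Real.log ((2 : ℝ) ^ vv t p) ≤ Real.log (N3 t) :=
        Real.log_le_log (by positivity) (by exact_mod_cast h5)
      rw [Real.log_pow] at h6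
      have h7 : (vv t p : ℝ) * 0.69 ≤ (vv t p : ℝ) * Real.log 2 :=
        mul_le_mul_of_nonneg_left (by linarith) (Nat.cast_nonneg _)
      nlinarith
    · have : vv t p = 0 := Nat.factorization_eq_zero_of_not_prime _ hp
      rw [this]
      push_cast
      positivity
  have hcount := low_m hk1 hk2l hn0 hm F (fun t ht => (hF t ht).2.2) hKt hEt (hc m hm hmX) hb
  have hEn : (((E + 1) * n : ℕ) : ℝ) ≤ 126 * L ^ 2 * l := by
    push_cast
    have h1 : (E : ℝ) + 1 ≤ 6 * l := by linarith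
    have h2 : (n : ℝ) ≤ 21 * L ^ 2 := by
      have h3 : L * Real.log l ≤ L * L := mul_le_mul_of_nonneg_left hlogL (by linarith)
      nlinarith
    calc ((E : ℝ) + 1) * n ≤ (6 * l) * (21 * L ^ 2) :=
          mul_le_mul h1 h2 (Nat.cast_nonneg _) (by positivity)
      _ = _ := by ring
  have h2 : (F.card : ℝ) ≤ ((27 * (2 ^ m.primeFactors.card *
      ((E + 1) * (2 ^ (18 * k * (m.primeFactors.card + 1)) * n))) : ℕ) : ℝ) := by
    exact_mod_cast hcount
  refine h2.trans ?_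
  have e0 : 27 * (2 ^ m.primeFactors.card *
      ((E + 1) * (2 ^ (18 * k * (m.primeFactors.card + 1)) * n))) =
      (27 * (2 ^ m.primeFactors.card * 2 ^ (18 * k * (m.primeFactors.card + 1)))) *
        ((E + 1) * n) := by ring
  rw [e0, Nat.cast_mul]
  have e1 : ((27 * (2 ^ m.primeFactors.card * 2 ^ (18 * k * (m.primeFactors.card + 1))) : ℕ) : ℝ) =
      27 * 2 ^ (18 * k) * ((2 : ℝ) ^ (18 * k + 1)) ^ m.primeFactors.card := by
    push_cast
    have e2 : (2 : ℝ) ^ (18 * k * (m.primeFactors.card + 1)) =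
        2 ^ (18 * k) * (2 ^ (18 * k)) ^ m.primeFactors.card := by
      rw [← pow_mul, ← pow_add]
      congr 1
      ring
    have e3 : ((2 : ℝ) ^ (18 * k + 1)) ^ m.primeFactors.card =
        (2 ^ (18 * k)) ^ m.primeFactors.card * 2 ^ m.primeFactors.card := by
      rw [pow_succ, mul_pow]
    rw [e2, e3]
    ring
  rw [e1]
  calc 27 * 2 ^ (18 * k) * ((2 : ℝ) ^ (18 * k + 1)) ^ m.primeFactors.card *
        (((E + 1) * n : ℕ) : ℝ) ≤
      27 * 2 ^ (18 * k) * ((2 : ℝ) ^ (18 * k + 1)) ^ m.primeFactors.card * (126 * L ^ 2 * l) :=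
        mul_le_mul_of_nonneg_left hEn (by positivity)
    _ = _ := by ring

end Pool.Agent.TH867.SB
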