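import Pool.Agent.TH867.SB.All
import Pool.Agent.TH867.SB.Low

/-!
The parts of small and of large height (helper867).
-/

set_option autoImplicit false

namespace Pool.Agent.TH867.SB

open Finset
open Pool.Agent.TH867.SR (Tr N3 rr rr_sum rr_nonneg log_eq_sum' Light vv log_prod_primes
  log_prime_nonneg Scale InP choice Good log_sq_le)
open Pool.Agent.TH867.SM (fam_total log_pow_le height_le sqf)

theorem exp_le_one {k : ℕ} (hk : 9 ≤ k) : 2 / 3 + 3 / (k : ℝ) ≤ 1 := by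
  have hk9 : (9 : ℝ) ≤ k := by exact_mod_cast hk
  have : 3 / (k : ℝ) ≤ 3 / 9 := div_le_div_of_nonneg_left (by norm_num) (by norm_num) hk9
  linarith

theorem floor_M_le {k : ℕ} (hk : 9 ≤ k) {X : ℝ} (hX : 1 ≤ X) :
    ((⌊X ^ (2 / 3 + 1 / (k : ℝ))⌋₊ : ℕ) : ℝ) ≤ X := by
  have hk0 : (0 : ℝ) < k := by
    have : 0 < k := by omega
    exact_mod_cast this
  refine (Nat.floor_le (by positivity)).trans ?_
  have h1 := exp_le_one hk
  have h2 : 1 / (k : ℝ) ≤ 3 / k := div_le_div_of_nonneg_right (by norm_num) hk0.le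
  calc X ^ (2 / 3 + 1 / (k : ℝ)) ≤ X ^ (1 : ℝ) :=
        Real.rpow_le_rpow_of_exponent_le hX (by linarith)
    _ = X := Real.rpow_one X

/-- every triple is light or of the class `PP` for a product `m ≤ X ^ (2 / 3 + 1 / k)` -/
theorem good_m {k : ℕ} (hk : 9 ≤ k) {X l : ℝ} (hX : 1 ≤ X) (hl : 2 ≤ l) {t : Fin 3 → ℕ}
    (h : Tr t) (hs : Scale k l t) (hr : rr t 0 + rr t 1 + rr t 2 ≤ Real.log X) :
    ∃ m ∈ SF ⌊X ^ (2 / 3 + 1 / (k : ℝ))⌋₊, Light k m.primeFactors t ∨ ∃ p, PP k X l m t p := by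
  have hX0 : 0 < X := by linarith
  have hk0 : (0 : ℝ) < k := by
    have : 0 < k := by omega
    exact_mod_cast this
  have hr0 := rr_nonneg t 0
  have hr1 := rr_nonneg t 1
  have hr2 := rr_nonneg t 2
  have hpX : ∀ j, ∀ p ∈ (t j).primeFactors, (p : ℝ) ≤ X := by
    intro j p hp
    have hp0 : (0 : ℝ) < p := by exact_mod_cast (Nat.prime_of_mem_primeFactors hp).pos
    have h4 : Real.log p ≤ rr t j :=
      Finset.single_le_sum (f := fun q : ℕ => Real.log (q : ℝ))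
        (fun q hq => log_prime_nonneg (Nat.prime_of_mem_primeFactors hq)) hp
    have h5 : rr t j ≤ Real.log X := by
      refine le_trans ?_ hr
      fin_cases j
      · show rr t 0 ≤ _; linarith
      · show rr t 1 ≤ _; linarith
      · show rr t 2 ≤ _; linarith
    exact (Real.log_le_log_iff hp0 hX0).1 (h4.trans h5)
  obtain ⟨S, hS, hgood, hsum⟩ := choice (k := k) (by omega) (X := X) (l := l) hl h hs hpX
  have hpf : (∏ q ∈ S, q).primeFactors = S := Nat.primeFactors_prod hS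
  have hmpos : 0 < ∏ q ∈ S, q := Finset.prod_pos fun q hq => (hS q hq).pos
  have hmM : ((∏ q ∈ S, q : ℕ) : ℝ) ≤ X ^ (2 / 3 + 1 / (k : ℝ)) := by
    rw [← Real.log_le_log_iff (by exact_mod_cast hmpos) (Real.rpow_pos_of_pos hX0 _),
      Real.log_rpow hX0, log_prod_primes hS]
    refine hsum.trans (mul_le_mul_of_nonneg_left hr ?_)
    positivity
  refine ⟨∏ q ∈ S, q, mem_SF.2 ⟨⟨hmpos, Nat.le_floor hmM⟩, sqf hS⟩, ?_⟩
  rw [hpf]
  rcases hgood with hg | ⟨A, B, C, Q, e, p, hAB, hBC, hAC, hP⟩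
  · exact Or.inl hg
  · refine Or.inr ⟨p, A, B, C, Q, e, hAB, hBC, hAC, ?_⟩
    rw [hpf]
    exact hP

theorem pf_mul_prime {m r : ℕ} (hm : m ≠ 0) (hr : r.Prime) :
    (m * r).primeFactors = insert r m.primeFactors := by
  rw [Nat.primeFactors_mul hm hr.ne_zero, hr.primeFactors, Finset.union_comm]
  rfl

/-- large heights -/
theorem high_part {k : ℕ} (hk : 9 ≤ k) : ∃ C : ℝ, 1 ≤ C ∧ ∃ D : ℝ, 0 < D ∧ ∃ X0 : ℝ, 1 ≤ X0 ∧
    ∀ X : ℝ, X0 ≤ X → ∀ F : Finset (Fin 3 → ℕ), (∀ t ∈ F, Tr t ∧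
      rr t 0 + rr t 1 + rr t 2 ≤ Real.log X ∧
      ∃ m ∈ SF ⌊X ^ (2 / 3 + 1 / (k : ℝ))⌋₊, ∃ l p, PP k X l m t p ∧
        (C * Real.log X) ^ m.primeFactors.card * X ^ (1 / (k : ℝ)) < Real.log (t 2)) →
    (F.card : ℝ) ≤ D * X ^ (2 / 3 + 5 / (k : ℝ)) := by
  classical
  have hk1 : 1 ≤ k := by omega
  have hk0 : (0 : ℝ) < k := by exact_mod_cast hk1
  have h1k : 0 < 1 / (k : ℝ) := by positivity
  obtain ⟨C, hC, Xf, hXf1, hfew⟩ := few_primes hk1 h1k
  obtain ⟨Xo, hXo1, hom⟩ := omega_le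
  obtain ⟨D1, hD1, hfam⟩ := fam_total hk1
  obtain ⟨D2, hD2, hlog⟩ := log_pow_le (1 / (k : ℝ)) h1k
  refine ⟨C, hC, D1 * 2 * D2, by positivity, max Xf Xo, hXf1.trans (le_max_left _ _),
    fun X hX F hF => ?_⟩
  have hXf : Xf ≤ X := (le_max_left _ _).trans hX
  have hXo : Xo ≤ X := (le_max_right _ _).trans hX
  have hX1 : 1 ≤ X := hXf1.trans hXf
  have hX0 : 0 < X := by linarith
  have hlX : 0 ≤ Real.log X := Real.log_nonneg hX1
  obtain ⟨M, hM⟩ : ∃ M, M = ⌊X ^ (2 / 3 + 1 / (k : ℝ))⌋₊ := ⟨_, rfl⟩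
  rw [← hM] at hF
  have hMX : (M : ℝ) ≤ X := by rw [hM]; exact floor_M_le hk hX1
  have hMX2 : (M : ℝ) ≤ X ^ (2 / 3 + 1 / (k : ℝ)) := by
    rw [hM]; exact Nat.floor_le (by positivity)
  have hSFX : ∀ m ∈ SF M, m ∈ SF ⌊X⌋₊ := by
    intro m hm
    rw [mem_SF] at hm ⊢
    exact ⟨⟨hm.1.1, hm.1.2.trans (Nat.le_floor hMX)⟩, hm.2⟩
  obtain ⟨R, hR⟩ : ∃ R : ℕ → Finset ℕ, R = fun m => (Icc 1 ⌊X⌋₊).filter fun r =>
      ∃ t l, PP k X l m t r ∧
        (C * Real.log X) ^ m.primeFactors.card * X ^ (1 / (k : ℝ)) < Real.log (t 2) ∧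
        Real.log (t 2) ≤ Real.exp (3000 * (1 + Real.log X) ^ 6) := ⟨_, rfl⟩
  have hRc : ∀ m ∈ SF M, ((R m).card : ℝ) ≤ X ^ (1 / (k : ℝ)) := by
    intro m hm
    have hmX := mem_SF.1 (hSFX m hm)
    have hm0 : (0 : ℝ) < m := by exact_mod_cast hmX.1.1
    refine hfew X hXf m.primeFactors (R m) (fun q hq => Nat.prime_of_mem_primeFactors hq) ?_ ?_ ?_
      (hom X hXo m (hSFX m hm)) ?_
    · refine (log_pf_le hmX.1.1).trans (Real.log_le_log hm0 ?_)
      exact (Nat.le_floor_iff hX0.le).1 hmX.1.2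
    · intro r hr
      rw [hR, mem_filter] at hr
      obtain ⟨-, t, l, ⟨A, B, D, Q, e, h1, h2, h3, h4⟩, -, -⟩ := hr
      exact ⟨h4.pp, h4.pX⟩
    · rw [Finset.disjoint_left]
      intro q hq hr
      rw [hR, mem_filter] at hr
      obtain ⟨-, t, l, ⟨A, B, D, Q, e, h1, h2, h3, h4⟩, -, -⟩ := hr
      exact h4.pS hq
    · intro r hr
      rw [hR, mem_filter] at hr
      obtain ⟨-, t, l, ⟨A, B, D, Q, e, h1, h2, h3, h4⟩, h5, h6⟩ := hr
      exact ⟨A, B, D, Q, e, l, t, h1, h2, h3, h4, h5, h6⟩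
  obtain ⟨W, hW⟩ : ∃ W : Finset ℕ, W = insert 1 ((SF M).biUnion fun m =>
      (R m).image fun r => m * r) := ⟨_, rfl⟩
  have hSFc : ((SF M).card : ℝ) ≤ X ^ (2 / 3 + 1 / (k : ℝ)) := by
    refine le_trans ?_ hMX2
    have : (SF M).card ≤ M := by
      unfold SF
      refine (Finset.card_filter_le _ _).trans ?_
      rw [Nat.card_Icc, Nat.add_sub_cancel]
    exact_mod_cast this
  have hWc : (W.card : ℝ) ≤ 2 * X ^ (2 / 3 + 2 / (k : ℝ)) := by
    have e1 : W.card ≤ (∑ m ∈ SF M, (R m).card) + 1 := by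
      rw [hW]
      refine (Finset.card_insert_le _ _).trans (Nat.add_le_add_right ?_ 1)
      refine Finset.card_biUnion_le.trans (Finset.sum_le_sum fun m _ => ?_)
      exact Finset.card_image_le
    have e2 : (W.card : ℝ) ≤ (∑ m ∈ SF M, ((R m).card : ℝ)) + 1 := by exact_mod_cast e1
    have e3 : ∑ m ∈ SF M, ((R m).card : ℝ) ≤ X ^ (2 / 3 + 2 / (k : ℝ)) := by
      refine (Finset.sum_le_sum hRc).trans ?_
      rw [Finset.sum_const, nsmul_eq_mul]
      calc ((SF M).card : ℝ) * X ^ (1 / (k : ℝ)) ≤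
          X ^ (2 / 3 + 1 / (k : ℝ)) * X ^ (1 / (k : ℝ)) :=
            mul_le_mul_of_nonneg_right hSFc (by positivity)
        _ = X ^ (2 / 3 + 2 / (k : ℝ)) := by
            rw [← Real.rpow_add hX0]
            congr 1
            ring
    have e4 : 1 ≤ X ^ (2 / 3 + 2 / (k : ℝ)) := Real.one_le_rpow hX1 (by positivity)
    linarith only [e2, e3, e4]
  obtain ⟨H, hH⟩ : ∃ H, H = Real.exp (3000 * (1 + Real.log X) ^ 6) := ⟨_, rfl⟩
  have hlH : Real.log H = 3000 * (1 + Real.log X) ^ 6 := by rw [hH, Real.log_exp]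
  have hH1 : 1 ≤ H := by
    rw [hH]
    exact Real.one_le_exp (by positivity)
  have hmain := hfam W (X ^ 2) H (one_le_pow₀ hX1) hH1 (by rw [hW]; exact mem_insert_self _ _) (by
      intro w hw
      rw [hW, mem_insert, mem_biUnion] at hw
      rcases hw with rfl | ⟨m, hm, hw⟩
      · exact ⟨le_rfl, by push_cast; exact one_le_pow₀ hX1⟩
      · rw [mem_image] at hw
        obtain ⟨r, hr, rfl⟩ := hw
        rw [hR, mem_filter, mem_Icc] at hr
        have hm' := mem_SF.1 hm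
        refine ⟨Nat.mul_pos hm'.1.1 hr.1.1, ?_⟩
        push_cast
        rw [sq]
        refine mul_le_mul ?_ ((Nat.le_floor_iff hX0.le).1 hr.1.2) (Nat.cast_nonneg _) hX0.le
        refine le_trans ?_ hMX
        exact_mod_cast hm'.1.2) F (by
      intro t ht
      obtain ⟨a1, a2, m, hm, l, p, hPP, a3⟩ := hF t ht
      have hht := height_le a1 hX1 a2
      refine ⟨a1, by rw [hH]; exact hht, fun _ => ⟨m * p, ?_, ?_⟩⟩
      · rw [hW, mem_insert, mem_biUnion]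
        refine Or.inr ⟨m, hm, mem_image.2 ⟨p, ?_, rfl⟩⟩
        rw [hR, mem_filter, mem_Icc]
        refine ⟨?_, t, l, hPP, a3, hht⟩
        obtain ⟨A, B, D, Q, e, h1, h2, h3, h4⟩ := hPP
        exact ⟨h4.pp.one_lt.le, Nat.le_floor h4.pX⟩
      · obtain ⟨A, B, D, Q, e, h1, h2, h3, h4⟩ := hPP
        have hm' := mem_SF.1 hm
        rw [pf_mul_prime (by omega) h4.pp]
        exact h4.light h1 h2 h3 (fun q hq => Nat.prime_of_mem_primeFactors hq))
  refine hmain.trans ?_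
  have e5 : (X ^ 2 : ℝ) ^ (1 / (k : ℝ)) = X ^ (2 / (k : ℝ)) := by
    rw [← Real.rpow_natCast X 2, ← Real.rpow_mul hX0.le]
    congr 1
    push_cast
    ring
  have e6 : 1 + Real.log H ≤ D2 * X ^ (1 / (k : ℝ)) := by rw [hlH]; exact hlog X hX1
  rw [e5]
  calc D1 * (W.card : ℝ) * X ^ (2 / (k : ℝ)) * (1 + Real.log H) ≤
      D1 * (2 * X ^ (2 / 3 + 2 / (k : ℝ))) * X ^ (2 / (k : ℝ)) * (D2 * X ^ (1 / (k : ℝ))) := by
        refine mul_le_mul ?_ e6 ?_ (by positivity)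
        · exact mul_le_mul_of_nonneg_right (mul_le_mul_of_nonneg_left hWc hD1.le) (by positivity)
        · have := Real.log_nonneg hH1
          linarith
    _ = D1 * 2 * D2 * (X ^ (2 / 3 + 2 / (k : ℝ)) * X ^ (2 / (k : ℝ)) * X ^ (1 / (k : ℝ))) := by
        ring
    _ = D1 * 2 * D2 * X ^ (2 / 3 + 5 / (k : ℝ)) := by
        rw [← Real.rpow_add hX0, ← Real.rpow_add hX0]
        congr 2
        ring

/-- small heights -/
theorem low_part {k : ℕ} (hk : 9 ≤ k) {C η : ℝ} (hC : 1 ≤ C) (hη : 0 < η) : ∃ D : ℝ, 0 < D ∧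
    ∃ X0 : ℝ, 1 ≤ X0 ∧ ∀ X : ℝ, X0 ≤ X → ∀ l : ℝ, Real.log X ^ (2 + η) ≤ l →
    ∀ F : Finset (Fin 3 → ℕ), (∀ t ∈ F, Tr t ∧ Scale k l t ∧
      ∃ m ∈ SF ⌊X ^ (2 / 3 + 1 / (k : ℝ))⌋₊, ∃ p, PP k X l m t p ∧
        l ≤ (C * Real.log X) ^ m.primeFactors.card * X ^ (1 / (k : ℝ))) →
    (F.card : ℝ) ≤ D * X ^ (2 / 3 + 4 / (k : ℝ)) := by
  classical
  have hk1 : 1 ≤ k := by omega
  have hk0 : (0 : ℝ) < k := by exact_mod_cast hk1
  have h1k : 0 < 1 / (k : ℝ) := by positivity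
  obtain ⟨C2, hC2⟩ : ∃ C2 : ℝ, C2 = C * 2 ^ (18 * k + 1) := ⟨_, rfl⟩
  have h2k : (1 : ℝ) ≤ 2 ^ (18 * k + 1) := one_le_pow₀ (by norm_num)
  have hC2C : C ≤ C2 := by
    rw [hC2]
    exact le_mul_of_one_le_right (by linarith) h2k
  have hC21 : 1 ≤ C2 := hC.trans hC2C
  obtain ⟨Xs, hXs1, hsum⟩ := sum_big hC21 h1k
  obtain ⟨L0, hL0, hlow⟩ := low_scale (k := k) (by omega) hη
  obtain ⟨c0, hc0⟩ : ∃ c0 : ℝ, c0 = 27 * 126 * 2 ^ (18 * k) := ⟨_, rfl⟩
  have hc00 : 0 < c0 := by rw [hc0]; positivity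
  refine ⟨c0 * (4 * k ^ 2), by positivity, max Xs (Real.exp L0), hXs1.trans (le_max_left _ _),
    fun X hX l hl F hF => ?_⟩
  have hXs : Xs ≤ X := (le_max_left _ _).trans hX
  have hXL : Real.exp L0 ≤ X := (le_max_right _ _).trans hX
  have hX1 : 1 ≤ X := hXs1.trans hXs
  have hX0 : 0 < X := by linarith
  obtain ⟨L, hL⟩ : ∃ L, L = Real.log X := ⟨_, rfl⟩
  have hLL : L0 ≤ L := by rw [hL, Real.le_log_iff_exp_le hX0]; exact hXL
  have hL3 : 3 ≤ L := hL0.trans hLL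
  obtain ⟨M, hM⟩ : ∃ M, M = ⌊X ^ (2 / 3 + 1 / (k : ℝ))⌋₊ := ⟨_, rfl⟩
  have hMX : (M : ℝ) ≤ X := by rw [hM]; exact floor_M_le hk hX1
  have hMX2 : (M : ℝ) ≤ X ^ (2 / 3 + 1 / (k : ℝ)) := by
    rw [hM]; exact Nat.floor_le (by positivity)
  rw [← hM] at hF
  have hsumM := hsum X hXs M hMX
  rw [← hL] at hF hl hsumM
  have hsumM' : ∑ m ∈ SF M, (C2 * L) ^ m.primeFactors.card ≤ X ^ (2 / 3 + 2 / (k : ℝ)) := by
    refine hsumM.trans ?_
    calc (M : ℝ) * X ^ (1 / (k : ℝ)) ≤ X ^ (2 / 3 + 1 / (k : ℝ)) * X ^ (1 / (k : ℝ)) :=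
          mul_le_mul_of_nonneg_right hMX2 (by positivity)
      _ = _ := by
          rw [← Real.rpow_add hX0]
          congr 1
          ring
  -- a single term
  have hterm : ∀ m ∈ SF M, (C * L) ^ m.primeFactors.card * X ^ (1 / (k : ℝ)) ≤ X := by
    intro m hm
    have e1 : (C * L) ^ m.primeFactors.card ≤ (C2 * L) ^ m.primeFactors.card :=
      pow_le_pow_left₀ (by positivity) (mul_le_mul_of_nonneg_right hC2C (by linarith)) _
    have e2 : (C2 * L) ^ m.primeFactors.card ≤ ∑ m ∈ SF M, (C2 * L) ^ m.primeFactors.card :=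
      Finset.single_le_sum (f := fun m : ℕ => (C2 * L) ^ m.primeFactors.card)
        (fun _ _ => by positivity) hm
    calc (C * L) ^ m.primeFactors.card * X ^ (1 / (k : ℝ)) ≤
        X ^ (2 / 3 + 2 / (k : ℝ)) * X ^ (1 / (k : ℝ)) :=
          mul_le_mul_of_nonneg_right (e1.trans (e2.trans hsumM')) (by positivity)
      _ = X ^ (2 / 3 + 3 / (k : ℝ)) := by
          rw [← Real.rpow_add hX0]
          congr 1
          ring
      _ ≤ X ^ (1 : ℝ) := Real.rpow_le_rpow_of_exponent_le hX1 (exp_le_one hk)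
      _ = X := Real.rpow_one X
  obtain ⟨Fm, hFm⟩ : ∃ Fm : ℕ → Finset (Fin 3 → ℕ), Fm = fun m => F.filter fun t =>
      ∃ p, PP k X l m t p ∧ l ≤ (C * L) ^ m.primeFactors.card * X ^ (1 / (k : ℝ)) := ⟨_, rfl⟩
  have hsub : F ⊆ (SF M).biUnion Fm := by
    intro t ht
    obtain ⟨a1, a2, m, hm, a3⟩ := hF t ht
    rw [mem_biUnion]
    refine ⟨m, hm, ?_⟩
    rw [hFm, mem_filter]
    exact ⟨ht, a3⟩
  have hFmc : ∀ m ∈ SF M, ((Fm m).card : ℝ) ≤
      c0 * L ^ 2 * X ^ (1 / (k : ℝ)) * (C2 * L) ^ m.primeFactors.card := by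
    intro m hm
    rcases (Fm m).eq_empty_or_nonempty with he | ⟨t0, ht0⟩
    · rw [he, Finset.card_empty, Nat.cast_zero]
      positivity
    · have hm' := mem_SF.1 hm
      have hlthr : l ≤ (C * L) ^ m.primeFactors.card * X ^ (1 / (k : ℝ)) := by
        rw [hFm, mem_filter] at ht0
        obtain ⟨-, p, -, h1⟩ := ht0
        exact h1
      have hl0 : 0 ≤ l := le_trans (by positivity) hl
      have h1 := hlow X hX1 (by rw [← hL]; exact hLL) l (by rw [← hL]; exact hl)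
        (hlthr.trans (hterm m hm)) m hm'.1.1 (le_trans (by exact_mod_cast hm'.1.2) hMX) (Fm m) (by
          intro t ht
          rw [hFm, mem_filter] at ht
          obtain ⟨b1, p, b2, -⟩ := ht
          exact ⟨(hF t b1).1, (hF t b1).2.1, p, b2⟩)
      rw [← hL, ← hc0] at h1
      refine h1.trans ?_
      calc c0 * L ^ 2 * l * ((2 : ℝ) ^ (18 * k + 1)) ^ m.primeFactors.card ≤
          c0 * L ^ 2 * ((C * L) ^ m.primeFactors.card * X ^ (1 / (k : ℝ))) *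
            ((2 : ℝ) ^ (18 * k + 1)) ^ m.primeFactors.card :=
            mul_le_mul_of_nonneg_right (mul_le_mul_of_nonneg_left hlthr (by positivity))
              (by positivity)
        _ = c0 * L ^ 2 * X ^ (1 / (k : ℝ)) * ((C * L) ^ m.primeFactors.card *
            ((2 : ℝ) ^ (18 * k + 1)) ^ m.primeFactors.card) := by ring
        _ = c0 * L ^ 2 * X ^ (1 / (k : ℝ)) * (C2 * L) ^ m.primeFactors.card := by
            rw [← mul_pow, hC2]
            congr 2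
            ring
  have h3 : (F.card : ℝ) ≤ ∑ m ∈ SF M, ((Fm m).card : ℝ) := by
    have := (Finset.card_le_card hsub).trans Finset.card_biUnion_le
    exact_mod_cast this
  refine (h3.trans (Finset.sum_le_sum hFmc)).trans ?_
  rw [← Finset.mul_sum]
  have hL2 : L ^ 2 ≤ 4 * k ^ 2 * X ^ (1 / (k : ℝ)) := by
    rw [hL]; exact log_sq_le hk1 hX1
  calc c0 * L ^ 2 * X ^ (1 / (k : ℝ)) * ∑ m ∈ SF M, (C2 * L) ^ m.primeFactors.card ≤
      c0 * (4 * k ^ 2 * X ^ (1 / (k : ℝ))) * X ^ (1 / (k : ℝ)) * X ^ (2 / 3 + 2 / (k : ℝ)) := by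
        refine mul_le_mul ?_ hsumM' (Finset.sum_nonneg fun _ _ => by positivity) (by positivity)
        exact mul_le_mul_of_nonneg_right (mul_le_mul_of_nonneg_left hL2 hc00.le) (by positivity)
    _ = c0 * (4 * k ^ 2) * (X ^ (1 / (k : ℝ)) * X ^ (1 / (k : ℝ)) *
        X ^ (2 / 3 + 2 / (k : ℝ))) := by ring
    _ = c0 * (4 * k ^ 2) * X ^ (2 / 3 + 4 / (k : ℝ)) := by
        rw [← Real.rpow_add hX0, ← Real.rpow_add hX0]
        congr 2
        ring

end Pool.Agent.TH867.SB
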