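import Mathlib

/-!
Squarefree integers with many prime factors are rare (helper867).
-/

set_option autoImplicit false

namespace Pool.Agent.TH867.SB

open Finset

/-- squarefree integers in `[1, Y]` -/
def SF (Y : ℕ) : Finset ℕ := (Icc 1 Y).filter Squarefree

theorem mem_SF {Y m : ℕ} : m ∈ SF Y ↔ (1 ≤ m ∧ m ≤ Y) ∧ Squarefree m := by
  rw [SF, mem_filter, mem_Icc]

theorem prod_sub_sf {m : ℕ} {S : Finset ℕ} (hS : S ⊆ m.primeFactors) :
    (∏ q ∈ S, q) ∣ m ∧ (∏ q ∈ S, q).primeFactors = S := by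
  have hp : ∀ q ∈ S, q.Prime := fun q hq => Nat.prime_of_mem_primeFactors (hS hq)
  constructor
  · exact (Finset.prod_dvd_prod_of_subset _ _ _ hS).trans (Nat.prod_primeFactors_dvd m)
  · exact Nat.primeFactors_prod hp

theorem sum_step (A Y : ℕ) : ∑ m ∈ SF Y, ((A + 1 : ℕ) : ℝ) ^ m.primeFactors.card / m ≤
    (∑ d ∈ SF Y, (A : ℝ) ^ d.primeFactors.card / d) * ∑ e ∈ Icc 1 Y, 1 / (e : ℝ) := by
  classical
  have h1 : ∀ m ∈ SF Y, ((A + 1 : ℕ) : ℝ) ^ m.primeFactors.card / m =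
      ∑ S ∈ m.primeFactors.powerset, (A : ℝ) ^ S.card / m := by
    intro m _
    rw [← Finset.sum_div]
    congr 1
    have := Finset.sum_pow_mul_eq_add_pow (A : ℝ) 1 m.primeFactors
    simp only [one_pow, mul_one] at this
    rw [this]
    push_cast
    rfl
  rw [Finset.sum_congr rfl h1, Finset.sum_sigma', Finset.sum_mul_sum, ← Finset.sum_product']
  -- the injection `(m, S) ↦ (∏ S, m / ∏ S)`
  obtain ⟨φ, hφ⟩ : ∃ φ : (Σ _ : ℕ, Finset ℕ) → ℕ × ℕ,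
      φ = fun x => (∏ q ∈ x.2, q, x.1 / ∏ q ∈ x.2, q) := ⟨_, rfl⟩
  have hmem : ∀ x ∈ (SF Y).sigma fun m => m.primeFactors.powerset,
      1 ≤ x.1 ∧ x.1 ≤ Y ∧ Squarefree x.1 ∧ x.2 ⊆ x.1.primeFactors := by
    intro x hx
    rw [mem_sigma, mem_SF, mem_powerset] at hx
    exact ⟨hx.1.1.1, hx.1.1.2, hx.1.2, hx.2⟩
  have hinj : Set.InjOn φ ((SF Y).sigma fun m => m.primeFactors.powerset : Finset _) := by
    intro x hx x' hx' hxx
    obtain ⟨a1, a2, a3, a4⟩ := hmem x hx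
    obtain ⟨b1, b2, b3, b4⟩ := hmem x' hx'
    obtain ⟨c1, c2⟩ := prod_sub_sf a4
    obtain ⟨d1, d2⟩ := prod_sub_sf b4
    rw [hφ] at hxx
    simp only [Prod.mk.injEq] at hxx
    have e1 : x.2 = x'.2 := by rw [← c2, ← d2, hxx.1]
    have e2 : x.1 = x'.1 := by
      rw [← Nat.div_mul_cancel c1, ← Nat.div_mul_cancel d1, hxx.2, hxx.1]
    cases x
    cases x'
    simp only at e1 e2
    subst e1 e2
    rfl
  have h2 : ∑ x ∈ (SF Y).sigma fun m => m.primeFactors.powerset, (A : ℝ) ^ x.2.card / x.1 =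
      ∑ y ∈ ((SF Y).sigma fun m => m.primeFactors.powerset).image φ,
        (A : ℝ) ^ y.1.primeFactors.card / y.1 * (1 / (y.2 : ℝ)) := by
    rw [Finset.sum_image hinj]
    refine Finset.sum_congr rfl fun x hx => ?_
    obtain ⟨a1, a2, a3, a4⟩ := hmem x hx
    obtain ⟨c1, c2⟩ := prod_sub_sf a4
    rw [hφ]
    simp only
    rw [c2]
    have hm : (x.1 : ℝ) = ((∏ q ∈ x.2, q : ℕ) : ℝ) * ((x.1 / ∏ q ∈ x.2, q : ℕ) : ℝ) := by
      rw [← Nat.cast_mul, Nat.mul_div_cancel' c1]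
    rw [div_mul_div_comm, mul_one, ← hm]
  rw [h2]
  refine Finset.sum_le_sum_of_subset_of_nonneg ?_ fun y _ _ => by positivity
  intro y hy
  obtain ⟨x, hx, rfl⟩ := Finset.mem_image.1 hy
  obtain ⟨a1, a2, a3, a4⟩ := hmem x hx
  obtain ⟨c1, c2⟩ := prod_sub_sf a4
  rw [hφ]
  rw [mem_product, mem_SF, mem_Icc]
  have hpos : 0 < ∏ q ∈ x.2, q := Nat.pos_of_dvd_of_pos c1 a1
  refine ⟨⟨⟨hpos, (Nat.le_of_dvd a1 c1).trans a2⟩, a3.squarefree_of_dvd c1⟩, ?_, ?_⟩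
  · exact Nat.div_pos (Nat.le_of_dvd a1 c1) hpos
  · exact (Nat.div_le_self _ _).trans a2

theorem sum_harm (Y : ℕ) : ∑ e ∈ Icc 1 Y, 1 / (e : ℝ) ≤ 1 + Real.log Y := by
  have h := harmonic_le_one_add_log Y
  rw [harmonic_eq_sum_Icc] at h
  push_cast at h
  simpa [one_div] using h

theorem sum_A (A Y : ℕ) :
    ∑ m ∈ SF Y, (A : ℝ) ^ m.primeFactors.card / m ≤ (1 + Real.log Y) ^ A := by
  induction A with
  | zero =>
    rw [pow_zero]
    have h1 : ∀ m ∈ SF Y, ((0 : ℕ) : ℝ) ^ m.primeFactors.card / m ≤ if m = 1 then 1 else 0 := by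
      intro m hm
      rw [mem_SF] at hm
      split_ifs with h
      · subst h
        simp
      · have h2 : m.primeFactors.card ≠ 0 := by
          rw [Finset.card_ne_zero, Nat.nonempty_primeFactors]
          omega
        simp [h2]
    refine (Finset.sum_le_sum h1).trans ?_
    rw [Finset.sum_ite_eq']
    split_ifs <;> norm_num
  | succ A ih =>
    refine (sum_step A Y).trans ?_
    rw [pow_succ]
    have h0 : 0 ≤ Real.log (Y : ℝ) := Real.log_natCast_nonneg _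
    exact mul_le_mul ih (sum_harm Y) (Finset.sum_nonneg fun e _ => by positivity) (by positivity)

/-- Rankin's trick -/
theorem card_many {A : ℕ} (hA : 1 ≤ A) (K : ℝ) (Y : ℕ) :
    ((((SF Y).filter fun m => K ≤ (m.primeFactors.card : ℝ)).card : ℕ) : ℝ) ≤
      Y * (1 + Real.log Y) ^ A * (A : ℝ) ^ (-K) := by
  have hA0 : (0 : ℝ) < A := by exact_mod_cast hA
  have hA1 : (1 : ℝ) ≤ A := by exact_mod_cast hA
  have h1 : ∀ m ∈ (SF Y).filter fun m => K ≤ (m.primeFactors.card : ℝ),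
      (1 : ℝ) ≤ (Y : ℝ) * (A : ℝ) ^ (-K) * ((A : ℝ) ^ m.primeFactors.card / m) := by
    intro m hm
    rw [mem_filter, mem_SF] at hm
    obtain ⟨⟨⟨a1, a2⟩, a3⟩, a4⟩ := hm
    have hm0 : (0 : ℝ) < m := by exact_mod_cast a1
    have e1 : (1 : ℝ) ≤ (Y : ℝ) / m := by
      rw [le_div_iff₀ hm0, one_mul]
      exact_mod_cast a2
    have e2 : (1 : ℝ) ≤ (A : ℝ) ^ (-K) * (A : ℝ) ^ m.primeFactors.card := by
      rw [← Real.rpow_natCast, ← Real.rpow_add hA0]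
      exact Real.one_le_rpow hA1 (by linarith)
    calc (1 : ℝ) = 1 * 1 := (mul_one 1).symm
      _ ≤ ((Y : ℝ) / m) * ((A : ℝ) ^ (-K) * (A : ℝ) ^ m.primeFactors.card) :=
          mul_le_mul e1 e2 (by norm_num) (by positivity)
      _ = _ := by ring
  calc ((((SF Y).filter fun m => K ≤ (m.primeFactors.card : ℝ)).card : ℕ) : ℝ)
      = ∑ _m ∈ (SF Y).filter fun m => K ≤ (m.primeFactors.card : ℝ), (1 : ℝ) := by
        rw [Finset.sum_const, nsmul_eq_mul, mul_one]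
    _ ≤ ∑ m ∈ (SF Y).filter fun m => K ≤ (m.primeFactors.card : ℝ),
        (Y : ℝ) * (A : ℝ) ^ (-K) * ((A : ℝ) ^ m.primeFactors.card / m) := Finset.sum_le_sum h1
    _ ≤ ∑ m ∈ SF Y, (Y : ℝ) * (A : ℝ) ^ (-K) * ((A : ℝ) ^ m.primeFactors.card / m) :=
        Finset.sum_le_sum_of_subset_of_nonneg (Finset.filter_subset _ _) fun m _ _ => by positivity
    _ = (Y : ℝ) * (A : ℝ) ^ (-K) * ∑ m ∈ SF Y, ((A : ℝ) ^ m.primeFactors.card / m) := by
        rw [← Finset.mul_sum]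
    _ ≤ (Y : ℝ) * (A : ℝ) ^ (-K) * (1 + Real.log Y) ^ A :=
        mul_le_mul_of_nonneg_left (sum_A A Y) (by positivity)
    _ = _ := by ring

end Pool.Agent.TH867.SB
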