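import Pool.Agent.TH867.SB.Tri

/-!
Choice of parameters (helper867).
-/

set_option autoImplicit false

namespace Pool.Agent.TH867.SB

open Finset
open Pool.Agent.TH867.SR (Tr N3)

/-- Rankin's bound of the number of monomials of total degree `< T` -/
theorem card_Mon_real (n T N : ℕ) (hN : 1 ≤ N) :
    (Fintype.card (Mon n T) : ℝ) ≤ Real.exp (T / N) * ((N : ℝ) + 1) ^ n := by
  classical
  have hN0 : (0 : ℝ) < N := by exact_mod_cast hN
  obtain ⟨x, hx⟩ : ∃ x : ℝ, x = N / (N + 1) := ⟨_, rfl⟩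
  have hx0 : 0 < x := by rw [hx]; positivity
  have hx1 : x < 1 := by rw [hx, div_lt_one (by positivity)]; linarith
  have h1x : 1 - x = 1 / (N + 1) := by rw [hx]; field_simp; ring
  have hgeo : ∑ j : Fin T, x ^ (j : ℕ) ≤ (N : ℝ) + 1 := by
    rw [Fin.sum_univ_eq_sum_range (fun j => x ^ j) T, geom_sum_eq hx1.ne]
    have e1 : (x ^ T - 1) / (x - 1) = (1 - x ^ T) / (1 - x) := by
      rw [← neg_div_neg_eq]; ring
    rw [e1, h1x, div_div_eq_mul_div, div_one]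
    have e2 : 0 ≤ x ^ T := by positivity
    nlinarith
  have hgeo0 : 0 ≤ ∑ j : Fin T, x ^ (j : ℕ) := Finset.sum_nonneg fun _ _ => by positivity
  have h1 : ((univ.filter fun m : Fin n → Fin T => ∑ i, (m i : ℕ) < T).card : ℝ) * x ^ T ≤
      ∑ m : Fin n → Fin T, ∏ i, x ^ (m i : ℕ) := by
    calc ((univ.filter fun m : Fin n → Fin T => ∑ i, (m i : ℕ) < T).card : ℝ) * x ^ T
        = ∑ _m ∈ univ.filter fun m : Fin n → Fin T => ∑ i, (m i : ℕ) < T, x ^ T := by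
          rw [Finset.sum_const, nsmul_eq_mul]
      _ ≤ ∑ m ∈ univ.filter fun m : Fin n → Fin T => ∑ i, (m i : ℕ) < T, ∏ i, x ^ (m i : ℕ) := by
          refine Finset.sum_le_sum fun m hm => ?_
          rw [Finset.prod_pow_eq_pow_sum]
          exact pow_le_pow_of_le_one hx0.le hx1.le (Finset.mem_filter.1 hm).2.le
      _ ≤ _ := Finset.sum_le_sum_of_subset_of_nonneg (Finset.filter_subset _ _)
          fun m _ _ => Finset.prod_nonneg fun _ _ => by positivity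
  have h2 : ∑ m : Fin n → Fin T, ∏ i, x ^ (m i : ℕ) = (∑ j : Fin T, x ^ (j : ℕ)) ^ n := by
    have := Finset.prod_univ_sum (fun _ : Fin n => (univ : Finset (Fin T)))
      (fun _ j => x ^ (j : ℕ))
    rw [Fintype.piFinset_univ] at this
    rw [← this, Finset.prod_const, Finset.card_univ, Fintype.card_fin]
  have h3 : (Fintype.card (Mon n T) : ℝ) * x ^ T ≤ ((N : ℝ) + 1) ^ n := by
    rw [Fintype.card_subtype]
    refine h1.trans ?_
    rw [h2]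
    exact pow_le_pow_left₀ hgeo0 hgeo n
  have h4 : 1 ≤ Real.exp (T / N) * x ^ T := by
    have e1 : 1 ≤ Real.exp (1 / N) * x := by
      have e2 := Real.add_one_le_exp (1 / (N : ℝ))
      have e3 : (1 / (N : ℝ) + 1) * x = 1 := by
        rw [hx]; field_simp; ring
      calc (1 : ℝ) = (1 / (N : ℝ) + 1) * x := e3.symm
        _ ≤ Real.exp (1 / N) * x := mul_le_mul_of_nonneg_right e2 hx0.le
    have e4 : Real.exp (T / N) = Real.exp (1 / N) ^ T := by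
      rw [← Real.exp_nat_mul]; congr 1; ring
    rw [e4, ← mul_pow]
    exact one_le_pow₀ e1
  calc (Fintype.card (Mon n T) : ℝ) = Fintype.card (Mon n T) * 1 := (mul_one _).symm
    _ ≤ Fintype.card (Mon n T) * (Real.exp (T / N) * x ^ T) :=
        mul_le_mul_of_nonneg_left h4 (Nat.cast_nonneg _)
    _ = Real.exp (T / N) * (Fintype.card (Mon n T) * x ^ T) := by ring
    _ ≤ _ := mul_le_mul_of_nonneg_left h3 (Real.exp_pos _).le

theorem card_Mon_le {n T g v : ℕ} (hg : 1 ≤ g) (hT : T ≤ (2 ^ g - 1) * v) :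
    Fintype.card (Mon n T) ≤ 2 ^ (2 * v + g * n) := by
  obtain ⟨N, hN⟩ : ∃ N, N = 2 ^ g - 1 := ⟨_, rfl⟩
  have h2g : 2 ≤ 2 ^ g := by
    calc 2 = 2 ^ 1 := by norm_num
      _ ≤ 2 ^ g := Nat.pow_le_pow_right (by norm_num) hg
  have hN1 : 1 ≤ N := by omega
  have hNg : N + 1 = 2 ^ g := by omega
  rw [← hN] at hT
  have hN0 : (0 : ℝ) < N := by exact_mod_cast hN1
  have h1 := card_Mon_real n T N hN1
  have h2 : (T : ℝ) / N ≤ v := by
    rw [div_le_iff₀ hN0]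
    have : (T : ℝ) ≤ N * v := by exact_mod_cast hT
    linarith
  have h3 : Real.exp (T / N) ≤ (4 : ℝ) ^ v := by
    refine (Real.exp_le_exp.2 h2).trans ?_
    have e1 : Real.exp (v : ℝ) = Real.exp 1 ^ v := by
      rw [← Real.exp_nat_mul]; simp
    rw [e1]
    refine pow_le_pow_left₀ (Real.exp_pos _).le ?_ v
    have := Real.exp_one_lt_d9
    linarith
  have h4 : ((N : ℝ) + 1) ^ n = (2 : ℝ) ^ (g * n) := by
    have : (N : ℝ) + 1 = (2 : ℝ) ^ g := by exact_mod_cast hNg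
    rw [this, ← pow_mul]
  have h5 : (Fintype.card (Mon n T) : ℝ) ≤ (2 : ℝ) ^ (2 * v + g * n) := by
    refine h1.trans ?_
    rw [h4, pow_add]
    have h6 : (2 : ℝ) ^ (2 * v) = 4 ^ v := by rw [pow_mul]; norm_num
    rw [h6]
    exact mul_le_mul_of_nonneg_right h3 (by positivity)
  exact_mod_cast h5

theorem choose_ge {a c w : ℕ} (hw : w ≤ 2 ^ c) (hca : c + 1 ≤ a) :
    2 ^ ((a - 1 - c) * w) ≤ (2 ^ a).choose w := by
  have h1 : 2 ^ a = 2 * 2 ^ (a - 1) := by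
    rw [← pow_succ']
    congr 1
    omega
  have h2 : 2 ^ c ≤ 2 ^ (a - 1) := Nat.pow_le_pow_right (by norm_num) (by omega)
  have h3 : (2 ^ (a - 1)) ^ w ≤ (2 ^ a + 1 - w) ^ w := Nat.pow_le_pow_left (by omega) _
  have h4 : (2 ^ a + 1 - w) ^ w ≤ w.factorial * (2 ^ a).choose w := by
    have := Nat.pow_sub_le_descFactorial (2 ^ a) w
    rw [Nat.descFactorial_eq_factorial_mul_choose] at this
    exact this
  have h5 : w.factorial ≤ (2 ^ c) ^ w := (Nat.factorial_le_pow w).trans (Nat.pow_le_pow_left hw _)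
  have h6 : 2 ^ ((a - 1 - c) * w) * (2 ^ c) ^ w = (2 ^ (a - 1)) ^ w := by
    rw [← pow_mul, ← pow_mul, ← pow_add, ← Nat.add_mul]
    congr 2
    omega
  have h7 : 2 ^ ((a - 1 - c) * w) * (2 ^ c) ^ w ≤ (2 ^ a).choose w * (2 ^ c) ^ w := by
    rw [h6]
    refine h3.trans (h4.trans ?_)
    rw [mul_comm]
    exact Nat.mul_le_mul_left _ h5
  exact Nat.le_of_mul_le_mul_right h7 (by positivity)

theorem few_r_par {B b g v a c w n J z : ℕ} (hB : 1 ≤ B) (hb : B ≤ 2 ^ b) (hg : 1 ≤ g)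
    (hw1 : 1 ≤ w) (hwB : w ≤ B) (hwc : w + 2 ≤ 2 ^ c) (hca : c + 1 ≤ a)
    (hJ : J = 1 + (2 * v + g * n)) (hJB : J + 1 ≤ 4 * B)
    (hgv : 32 * ((w + 2) * B ^ 2) ≤ (2 ^ g - 1) * v) (hz : z = a + 7 * b + 17)
    (haw : 2 * B + J + z ≤ (a - 1 - c) * w)
    {P R : Finset ℕ} (hP : P.card = n + 1) (hPp : ∀ q ∈ P, q.Prime)
    (hRp : ∀ r ∈ R, r.Prime) (hPR : Disjoint P R)
    (hPh : ∀ q ∈ P, q ≤ 2 ^ B) (hRh : ∀ r ∈ R, r ≤ 2 ^ B)
    (H : ∀ r ∈ R, ∃ s p t, Wit P (2 ^ (J + z + 2 * (b + c) + 8)) (3000 * B ^ 6) r s p t) :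
    R.card < 27 * (n + 1) * 2 ^ a := by
  obtain ⟨S, hS⟩ : ∃ S, S = 3000 * B ^ 6 := ⟨_, rfl⟩
  obtain ⟨Xs, hXs⟩ : ∃ Xs, Xs = 2 * B + B * w := ⟨_, rfl⟩
  obtain ⟨τ, hτ⟩ : ∃ τ, τ = 8 * Xs := ⟨_, rfl⟩
  obtain ⟨T0, hT0⟩ : ∃ T0, T0 = (J + 1) * τ := ⟨_, rfl⟩
  obtain ⟨ν, hν⟩ : ∃ ν, ν = 2 * B + 2 ^ a * S := ⟨_, rfl⟩
  obtain ⟨Δ, hΔ⟩ : ∃ Δ, Δ = 2 ^ a * S + w := ⟨_, rfl⟩
  obtain ⟨A, hA⟩ : ∃ A, A = 2 ^ a := ⟨_, rfl⟩
  have hA1 : 1 ≤ A := by rw [hA]; exact Nat.one_le_two_pow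
  have hXse : Xs = (w + 2) * B := by rw [hXs]; ring
  have hXs1 : 1 ≤ Xs := by rw [hXs]; omega
  have hτ1 : 1 ≤ τ := by omega
  have hτle : τ ≤ 2 ^ (b + c + 3) := by
    calc τ = 8 * ((w + 2) * B) := by rw [hτ, hXse]
      _ ≤ 8 * (2 ^ c * 2 ^ b) := Nat.mul_le_mul_left _ (Nat.mul_le_mul hwc hb)
      _ = 2 ^ (b + c + 3) := by rw [pow_add, pow_add]; ring
  have hT0le : T0 ≤ 32 * ((w + 2) * B ^ 2) := by
    calc T0 = (J + 1) * (8 * ((w + 2) * B)) := by rw [hT0, hτ, hXse]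
      _ ≤ (4 * B) * (8 * ((w + 2) * B)) := Nat.mul_le_mul_right _ hJB
      _ = _ := by ring
  have hMon : Fintype.card (Mon n T0) ≤ 2 ^ (2 * v + g * n) := card_Mon_le hg (hT0le.trans hgv)
  have h2Mon : 2 * Fintype.card (Mon n T0) ≤ 2 ^ J := by
    calc 2 * Fintype.card (Mon n T0) ≤ 2 * 2 ^ (2 * v + g * n) := Nat.mul_le_mul_left _ hMon
      _ = 2 ^ J := by rw [hJ, pow_add 2 1]; ring
  have hB6 : B ≤ B ^ 6 := Nat.le_self_pow (by norm_num) B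
  have hB67 : B ^ 6 * B = B ^ 7 := by ring
  have hB7 : B ^ 7 ≤ (2 ^ b) ^ 7 := Nat.pow_le_pow_left hb 7
  have hb7 : B ^ 6 ≤ B ^ 7 := Nat.pow_le_pow_right hB (by norm_num)
  have hZ : (2 : ℕ) ^ z = 2 ^ 17 * (A * (2 ^ b) ^ 7) := by
    rw [hz, hA, ← pow_mul, ← pow_add, ← pow_add]; congr 1; ring
  have hΔle : Δ ≤ 3001 * (A * B ^ 6) := by
    have e1 : w ≤ A * B ^ 6 := hwB.trans (hB6.trans (Nat.le_mul_of_pos_left _ hA1))
    have e2 : 2 ^ a * S = 3000 * (A * B ^ 6) := by rw [hS, hA]; ring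
    rw [hΔ, e2]
    omega
  refine few_r (n := n) (k := 2 ^ a) (w := w) (h := B) (S := S) (J := J) (Z0 := 2 ^ z)
    (N := J + z) (M := 2 ^ (J + z + 2 * (b + c) + 8)) (Xs := Xs) (τ := τ) (T0 := T0) (ν := ν)
    (Δ := Δ) hXs hτ hT0 hν hΔ ?_ h2Mon ?_ ?_ ?_ ?_ hP hPp hRp hPR hPh hRh
    (by rw [hS]; exact H)
  · -- h2
    refine le_trans ?_ (choose_ge (w := w) (c := c) (a := a) (by omega) hca)
    calc (2 ^ B) ^ 2 * (2 * (Fintype.card (Mon n T0) * 2 ^ z)) =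
          (2 ^ B) ^ 2 * (2 * Fintype.card (Mon n T0)) * 2 ^ z := by ring
      _ ≤ (2 ^ B) ^ 2 * 2 ^ J * 2 ^ z :=
          Nat.mul_le_mul_right _ (Nat.mul_le_mul_left _ h2Mon)
      _ = 2 ^ (2 * B + J + z) := by rw [← pow_mul, ← pow_add, ← pow_add]; congr 1; ring
      _ ≤ 2 ^ ((a - 1 - c) * w) := Nat.pow_le_pow_right (by norm_num) haw
  · -- h4
    calc 8 * (Δ * (J + 1)) ≤ 8 * (3001 * (A * B ^ 6) * (4 * B)) :=
          Nat.mul_le_mul_left _ (Nat.mul_le_mul hΔle hJB)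
      _ = 96032 * (A * (B ^ 6 * B)) := by ring
      _ ≤ 2 ^ 17 * (A * (2 ^ b) ^ 7) := by
          rw [hB67]
          exact Nat.mul_le_mul (by norm_num) (Nat.mul_le_mul_left _ hB7)
      _ = 2 ^ z := hZ.symm
  · -- h5
    calc 2 * (Fintype.card (Mon n T0) * 2 ^ z) = (2 * Fintype.card (Mon n T0)) * 2 ^ z := by ring
      _ ≤ 2 ^ J * 2 ^ z := Nat.mul_le_mul_right _ h2Mon
      _ = 2 ^ (J + z) := by rw [pow_add]
  · -- h6
    have e1 : z < 2 ^ (z - 3) := by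
      have f1 : z - 3 < 2 ^ (z - 3) := Nat.lt_two_pow_self
      have f2 : 14 ≤ z - 3 := by omega
      have f3 : 2 ^ 14 ≤ 2 ^ (z - 3) := Nat.pow_le_pow_right (by norm_num) f2
      have f4 : 2 * (z - 4) ≤ 2 ^ (z - 3) := by
        have g1 : z - 4 < 2 ^ (z - 4) := Nat.lt_two_pow_self
        have g2 : 2 ^ (z - 3) = 2 * 2 ^ (z - 4) := by
          rw [← pow_succ']; congr 1; omega
        omega
      omega
    have e2 : 2 ^ z = 8 * 2 ^ (z - 3) := by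
      rw [show (8 : ℕ) = 2 ^ 3 by norm_num, ← pow_add]; congr 1; omega
    have e3 : 2 ^ b ≤ 2 ^ (z - 5) := Nat.pow_le_pow_right (by norm_num) (by omega)
    have e4 : 2 ^ (z - 3) = 4 * 2 ^ (z - 5) := by
      rw [show (4 : ℕ) = 2 ^ 2 by norm_num, ← pow_add]; congr 1; omega
    omega
  · -- h7
    obtain ⟨W, hW⟩ : ∃ W, W = 2 ^ J * 2 ^ z := ⟨_, rfl⟩
    have hZW : 2 ^ z ≤ W := by rw [hW]; exact Nat.le_mul_of_pos_left _ (by positivity)
    have hν2 : ν ≤ 2 ^ z := by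
      have e1 : 2 ^ a * S = 3000 * (A * B ^ 6) := by rw [hS, hA]; ring
      have e2 : A * B ^ 6 ≤ A * (2 ^ b) ^ 7 := Nat.mul_le_mul_left _ (hb7.trans hB7)
      have e3 : B ≤ A * B ^ 6 := hB6.trans (Nat.le_mul_of_pos_left _ hA1)
      rw [hν, e1, hZ]
      omega
    have hτ2 : τ ≤ τ ^ 2 := Nat.le_self_pow (by norm_num) _
    have h2W : 2 ≤ W := by
      refine le_trans ?_ hZW
      rw [hZ]
      have : 1 ≤ A * (2 ^ b) ^ 7 := Nat.mul_pos hA1 (by positivity)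
      omega
    have e1 : ν * τ ≤ τ ^ 2 * W := by
      calc ν * τ ≤ W * τ ^ 2 := Nat.mul_le_mul (hν2.trans hZW) hτ2
        _ = _ := by ring
    have e2 : (τ + τ ^ 2) * W ≤ 2 * (τ ^ 2 * W) := by
      calc (τ + τ ^ 2) * W ≤ (τ ^ 2 + τ ^ 2) * W := Nat.mul_le_mul_right _ (by omega)
        _ = _ := by ring
    have e3 : W ≤ τ ^ 2 * W := Nat.le_mul_of_pos_left _ (by positivity)
    have e4 : 4 * (τ ^ 2 * W) ≤ 2 ^ (J + z + 2 * (b + c) + 8) := by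
      calc 4 * (τ ^ 2 * W) ≤ 4 * ((2 ^ (b + c + 3)) ^ 2 * W) :=
            Nat.mul_le_mul_left _ (Nat.mul_le_mul_right _ (Nat.pow_le_pow_left hτle 2))
        _ = 2 ^ (J + z + 2 * (b + c) + 8) := by
            rw [hW, show (4 : ℕ) = 2 ^ 2 by norm_num, ← pow_mul, ← pow_add, ← pow_add, ← pow_add]
            congr 1
            ring
    rw [← hW]
    omega

end Pool.Agent.TH867.SB
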