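import Pool.Agent.TH867.SR.Small2

/-! Triples with `log c ≤ (log X) ^ (2 + η)`, general form (helper867). -/

set_option autoImplicit false

namespace Pool.Agent.TH867.SB

open Finset
open Pool.Agent.TH867.SR

/-- the triples for which two given sides have a small radical -/
theorem pair_count_gen {a T : ℝ} (ha : 0 ≤ a) (N : ℕ) {i j : Fin 3} (hij : i ≠ j)
    (F : Finset (Fin 3 → ℕ)) (hF : ∀ t ∈ F, Tr t ∧ t 2 ≤ N ∧ rr t i + rr t j ≤ T) :
    (F.card : ℝ) ≤ Real.exp (a * T) *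
      (∑ s ∈ Finset.Icc 1 N, ∏ p ∈ s.primeFactors, (p : ℝ) ^ (-a)) ^ 2 := by
  classical
  set g : ℕ → ℝ := fun s => ∏ p ∈ s.primeFactors, (p : ℝ) ^ (-a) with hg
  have hg0 : ∀ s, 0 ≤ g s := fun s => Finset.prod_nonneg fun p _ => by positivity
  have h1 : (F.card : ℝ) ≤ ∑ t ∈ F, Real.exp (a * T) * (g (t i) * g (t j)) := by
    rw [Finset.card_eq_sum_ones, Nat.cast_sum]
    refine Finset.sum_le_sum fun t ht => ?_
    obtain ⟨_, _, h3⟩ := hF t ht
    simp only [hg]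
    rw [prod_rpow_eq, prod_rpow_eq, ← Real.exp_add, ← Real.exp_add, Nat.cast_one]
    rw [Real.one_le_exp_iff]
    nlinarith
  have hinj : Set.InjOn (fun t : Fin 3 → ℕ => (t i, t j)) (F : Set (Fin 3 → ℕ)) := by
    intro t ht t' ht' he
    simp only [Prod.mk.injEq] at he
    have a1 := (hF t ht).1.add
    have b1 := (hF t' ht').1.add
    obtain ⟨e1, e2⟩ := he
    have h012 : t 0 = t' 0 ∧ t 1 = t' 1 ∧ t 2 = t' 2 := by
      have key : ∀ i j : Fin 3, i ≠ j → t i = t' i → t j = t' j →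
          t 0 = t' 0 ∧ t 1 = t' 1 ∧ t 2 = t' 2 := by
        intro i j hij e1 e2
        fin_cases i <;> fin_cases j <;> first
          | exact absurd rfl hij
          | (simp only [Fin.zero_eta, Fin.mk_one, Fin.reduceFinMk, Fin.isValue] at e1 e2
             refine ⟨?_, ?_, ?_⟩ <;> omega)
      exact key i j hij e1 e2
    funext l
    fin_cases l
    · exact h012.1
    · exact h012.2.1
    · exact h012.2.2
  have h2 : ∑ t ∈ F, Real.exp (a * T) * (g (t i) * g (t j)) ≤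
      Real.exp (a * T) * (∑ s ∈ Finset.Icc 1 N, g s) ^ 2 := by
    rw [← Finset.mul_sum]
    refine mul_le_mul_of_nonneg_left ?_ (Real.exp_pos _).le
    have h3 : ∑ t ∈ F, g (t i) * g (t j) =
        ∑ x ∈ F.image (fun t : Fin 3 → ℕ => (t i, t j)), g x.1 * g x.2 := by
      rw [Finset.sum_image hinj]
    rw [h3, sq, Finset.sum_mul_sum, ← Finset.sum_product']
    refine Finset.sum_le_sum_of_subset_of_nonneg ?_ fun x _ _ => mul_nonneg (hg0 _) (hg0 _)
    intro x hx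
    obtain ⟨t, ht, rfl⟩ := Finset.mem_image.1 hx
    obtain ⟨b1, b2, _⟩ := hF t ht
    rw [Finset.mem_product]
    exact ⟨Finset.mem_Icc.2 ⟨b1.pos' i, (b1.le2 i).trans b2⟩,
      Finset.mem_Icc.2 ⟨b1.pos' j, (b1.le2 j).trans b2⟩⟩
  exact h1.trans h2

/-- **small heights** -/
theorem small_gen (ε : ℝ) (hε : 0 < ε) : ∃ η : ℝ, 0 < η ∧ ∃ L1 : ℝ, 1 ≤ L1 ∧ ∀ X : ℝ, 1 ≤ X →
    L1 ≤ Real.log X → ∀ T : ℝ, 0 ≤ T → T ≤ Real.log X → ∀ F : Finset (Fin 3 → ℕ), (∀ t ∈ F, Tr t ∧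
      (∃ i j : Fin 3, i ≠ j ∧ rr t i + rr t j ≤ T) ∧ Real.log (t 2) ≤ Real.log X ^ (2 + η)) →
    (F.card : ℝ) ≤ 9 * (Real.exp T * X ^ ε) := by
  classical
  obtain ⟨θ, hθ⟩ : ∃ θ : ℝ, θ = ε / 2 := ⟨_, rfl⟩
  have hθ0 : 0 < θ := by rw [hθ]; positivity
  obtain ⟨β, hβ⟩ : ∃ β : ℝ, β = 1 / (1 + θ / 2) := ⟨_, rfl⟩
  have hβ0 : 0 < β := by rw [hβ]; positivity
  have hβ1 : β ≤ 1 := by
    rw [hβ, div_le_one (by positivity)]; linarith
  have haβ : 1 < (1 + θ) * β := by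
    rw [hβ, mul_one_div, lt_div_iff₀ (by positivity)]; linarith
  obtain ⟨η, hη⟩ : ∃ η : ℝ, η = θ / 4 := ⟨_, rfl⟩
  have hη0 : 0 < η := by rw [hη]; positivity
  have hγ : (1 + η) * β < 1 := by
    rw [hβ, mul_one_div, div_lt_one (by positivity), hη]; linarith
  obtain ⟨Z, hZ⟩ : ∃ Z : ℝ, Z = ∑' n : ℕ, ((n : ℝ) ^ ((1 + θ) * β))⁻¹ := ⟨_, rfl⟩
  have hZ0 : 0 ≤ Z := by rw [hZ]; exact tsum_nonneg fun n => by positivity
  -- the threshold for `L`
  obtain ⟨W, hW⟩ : ∃ W : ℝ, W = (32 / ε) ^ β * Z / β * (16 / ε) := ⟨_, rfl⟩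
  have hW0 : 0 ≤ W := by rw [hW]; positivity
  obtain ⟨γ, hγd⟩ : ∃ γ : ℝ, γ = 1 - (1 + η) * β := ⟨_, rfl⟩
  have hγ0 : 0 < γ := by rw [hγd]; linarith
  refine ⟨η, hη0, max 1 (W ^ (1 / γ)), le_max_left _ _, fun X hX hL T hT0 hTL F hF => ?_⟩
  obtain ⟨L, hLd⟩ : ∃ L, L = Real.log X := ⟨_, rfl⟩
  rw [← hLd] at hL hF hTL
  have hL1 : 1 ≤ L := (le_max_left _ _).trans hL
  have hL0 : 0 < L := by linarith
  have hX0 : 0 < X := by linarith
  have hWL : W ≤ L ^ γ := by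
    have h1 : (W ^ (1 / γ)) ^ γ ≤ L ^ γ :=
      Real.rpow_le_rpow (by positivity) ((le_max_right _ _).trans hL) hγ0.le
    rwa [← Real.rpow_mul hW0, one_div_mul_cancel hγ0.ne', Real.rpow_one] at h1
  obtain ⟨σ, hσ⟩ : ∃ σ : ℝ, σ = ε / 16 * L ^ (-(1 + η)) := ⟨_, rfl⟩
  have hσ0 : 0 < σ := by rw [hσ]; positivity
  obtain ⟨N, hN⟩ : ∃ N : ℕ, N = ⌊Real.exp (L ^ (2 + η))⌋₊ := ⟨_, rfl⟩
  have hN1 : 1 ≤ N := by
    rw [hN]
    refine Nat.le_floor ?_
    rw [Nat.cast_one, Real.one_le_exp_iff]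
    positivity
  have hlogN : Real.log N ≤ L ^ (2 + η) := by
    rw [Real.log_le_iff_le_exp (by exact_mod_cast hN1), hN]
    exact Nat.floor_le (Real.exp_pos _).le
  have hsum := rankin_sum hσ0 hβ0 hβ1 haβ N hN1
  rw [← hZ] at hsum
  have hexp : σ * Real.log N + (2 / σ) ^ β * Z / β ≤ ε / 8 * L := by
    have h1 : σ * Real.log N ≤ ε / 16 * L := by
      have h2 : σ * Real.log N ≤ σ * L ^ (2 + η) := mul_le_mul_of_nonneg_left hlogN hσ0.le
      have h3 : σ * L ^ (2 + η) = ε / 16 * L := by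
        rw [hσ, mul_assoc, ← Real.rpow_add hL0]
        have : -(1 + η) + (2 + η) = 1 := by ring
        rw [this, Real.rpow_one]
      linarith
    have h4 : (2 / σ) ^ β * Z / β ≤ ε / 16 * L := by
      have e1 : 2 / σ = 32 / ε * L ^ (1 + η) := by
        rw [hσ, Real.rpow_neg hL0.le]
        field_simp
        norm_num
      rw [e1, Real.mul_rpow (by positivity) (by positivity), ← Real.rpow_mul hL0.le]
      have e2 : L = L ^ ((1 + η) * β) * L ^ γ := by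
        rw [← Real.rpow_add hL0, hγd]
        have : (1 + η) * β + (1 - (1 + η) * β) = 1 := by ring
        rw [this, Real.rpow_one]
      have e3 : (32 / ε) ^ β * L ^ ((1 + η) * β) * Z / β =
          ε / 16 * (L ^ ((1 + η) * β) * W) := by
        rw [hW]
        field_simp
      rw [e3]
      conv_rhs => rw [e2]
      refine mul_le_mul_of_nonneg_left ?_ (by positivity)
      exact mul_le_mul_of_nonneg_left hWL (by positivity)
    linarith
  obtain ⟨V, hV⟩ : ∃ V : ℝ, V = ∑ s ∈ Finset.Icc 1 N, ∏ p ∈ s.primeFactors,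
    (p : ℝ) ^ (-(1 + θ)) := ⟨_, rfl⟩
  rw [← hV] at hsum
  have hV0 : 0 ≤ V := by
    rw [hV]
    exact Finset.sum_nonneg fun s _ => Finset.prod_nonneg fun p _ => by positivity
  have hV1 : V ≤ Real.exp (ε / 8 * L) := hsum.trans (Real.exp_le_exp.2 hexp)
  have hV2 : V ^ 2 ≤ Real.exp (ε / 4 * L) := by
    calc V ^ 2 ≤ (Real.exp (ε / 8 * L)) ^ 2 := pow_le_pow_left₀ hV0 hV1 2
      _ = Real.exp (ε / 4 * L) := by
          rw [← Real.exp_nat_mul]
          congr 1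
          push_cast
          ring
  have hpair : ∀ i j : Fin 3, i ≠ j →
      ((F.filter fun t => rr t i + rr t j ≤ T).card : ℝ) ≤ Real.exp T * X ^ ε := by
    intro i j hij
    have h1 := pair_count_gen (a := 1 + θ) (T := T) (by positivity) N hij
      (F.filter fun t => rr t i + rr t j ≤ T) (fun t ht => by
        obtain ⟨b1, b2⟩ := Finset.mem_filter.1 ht
        obtain ⟨c1, c2, c3⟩ := hF t b1
        refine ⟨c1, ?_, b2⟩
        rw [hN]
        refine Nat.le_floor ?_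
        rw [← Real.log_le_iff_le_exp (by exact_mod_cast c1.pos' 2)]
        exact c3)
    rw [← hV] at h1
    refine h1.trans ?_
    calc Real.exp ((1 + θ) * T) * V ^ 2 ≤
        Real.exp ((1 + θ) * T) * Real.exp (ε / 4 * L) :=
          mul_le_mul_of_nonneg_left hV2 (Real.exp_pos _).le
      _ = Real.exp ((1 + θ) * T + ε / 4 * L) := by rw [← Real.exp_add]
      _ ≤ Real.exp (T + L * ε) := by
          refine Real.exp_le_exp.2 ?_
          rw [hθ]
          nlinarith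
      _ = Real.exp T * X ^ ε := by rw [Real.exp_add, Real.rpow_def_of_pos hX0, hLd]
  have hcover : F ⊆ ((Finset.univ : Finset (Fin 3 × Fin 3)).filter fun σ => σ.1 ≠ σ.2).biUnion
      (fun σ => F.filter fun t => rr t σ.1 + rr t σ.2 ≤ T) := by
    intro t ht
    obtain ⟨_, ⟨i, j, hij, c2⟩, _⟩ := hF t ht
    rw [Finset.mem_biUnion]
    exact ⟨(i, j), Finset.mem_filter.2 ⟨Finset.mem_univ _, hij⟩, Finset.mem_filter.2 ⟨ht, c2⟩⟩
  have h1 := (Finset.card_le_card hcover).trans Finset.card_biUnion_le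
  have h2 : (F.card : ℝ) ≤ ∑ σ ∈ (Finset.univ : Finset (Fin 3 × Fin 3)).filter
      (fun σ => σ.1 ≠ σ.2), ((F.filter fun t => rr t σ.1 + rr t σ.2 ≤ T).card : ℝ) := by
    exact_mod_cast h1
  have h3 : ∑ σ ∈ (Finset.univ : Finset (Fin 3 × Fin 3)).filter
      (fun σ => σ.1 ≠ σ.2), ((F.filter fun t => rr t σ.1 + rr t σ.2 ≤ T).card : ℝ) ≤
      ∑ _σ ∈ (Finset.univ : Finset (Fin 3 × Fin 3)).filter
      (fun σ => σ.1 ≠ σ.2), Real.exp T * X ^ ε :=
    Finset.sum_le_sum fun σ hσ => hpair σ.1 σ.2 (Finset.mem_filter.1 hσ).2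
  rw [Finset.sum_const, nsmul_eq_mul] at h3
  have h4 : (((Finset.univ : Finset (Fin 3 × Fin 3)).filter (fun σ => σ.1 ≠ σ.2)).card : ℝ) ≤ 9 := by
    have : ((Finset.univ : Finset (Fin 3 × Fin 3)).filter (fun σ => σ.1 ≠ σ.2)).card ≤ 9 := by
      decide
    exact_mod_cast this
  exact (h2.trans h3).trans (mul_le_mul_of_nonneg_right h4 (by positivity))

end Pool.Agent.TH867.SB
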