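import Pool.Agent.TH867.SB.HighGen
import Pool.Agent.TH867.SB.SmallGen
import Pool.Agent.TH867.SB.ChoA

/-!
**Triples `a + b = c` of all heights with radical at most `X`, a member of which has radical at
most `A`: at most `D X ^ ε (A X) ^ (1/2)`** (helper867).
-/

set_option autoImplicit false

namespace Pool.Agent.TH867.SB

open Finset
open Pool.Agent.TH867.SR (Tr N3 rr rr_sum rr_nonneg Light Scale scales rho rho_gt
  log_prod_primes log_prime_nonneg Good)
open Pool.Agent.TH867.SM (fam_total log_pow_le height_le sqf)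

/-- triples of large height with prescribed primes of product at most `M` -/
theorem count_gen {k : ℕ} (hk3 : 3 ≤ k) {η : ℝ} (hη : 0 < η) : ∃ D : ℝ, 0 < D ∧ ∃ X0 : ℝ, 1 ≤ X0 ∧
    ∀ X : ℝ, X0 ≤ X → ∀ M : ℕ, (M : ℝ) * X ^ (2 / (k : ℝ)) ≤ X →
    ∀ F : Finset (Fin 3 → ℕ), (∀ t ∈ F, Tr t ∧ rr t 0 + rr t 1 + rr t 2 ≤ Real.log X ∧
      ¬ Real.log (t 2) ≤ Real.log X ^ (2 + η) ∧
      ∀ l : ℝ, 2 ≤ l → Scale k l t →
        ∃ m ∈ SF M, Light k m.primeFactors t ∨ ∃ p, PP k X l m t p) →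
    (F.card : ℝ) ≤ D * ((M : ℝ) + 1) * X ^ (5 / (k : ℝ)) := by
  classical
  have hk1 : 1 ≤ k := by omega
  have hkp : (0 : ℝ) < k := by exact_mod_cast hk1
  have h1k : 0 < 1 / (k : ℝ) := by positivity
  obtain ⟨C, hC, D1, hD1, X1, hX11, hhigh⟩ := high_gen hk1
  obtain ⟨D2, hD2, X2, hX21, hlow⟩ := low_gen hk3 hC hη
  obtain ⟨D3, hD3, hfam⟩ := fam_total hk1
  obtain ⟨D4, hD4, hlog⟩ := log_pow_le (1 / (k : ℝ)) h1k
  have hρ := rho_gt hk1
  have hlρ : 0 < Real.log (rho k) := Real.log_pos hρ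
  obtain ⟨X0, hX0e⟩ : ∃ X0, X0 = max (max X1 X2) (Real.exp 2) := ⟨_, rfl⟩
  have hX01 : 1 ≤ X0 := by
    rw [hX0e]
    exact hX11.trans ((le_max_left _ _).trans (le_max_left _ _))
  obtain ⟨DD, hDD⟩ : ∃ DD, DD = (1 + 1 / Real.log (rho k)) * D4 * (D3 * D4 + D1 + D2) := ⟨_, rfl⟩
  have hDD0 : 0 < DD := by rw [hDD]; positivity
  refine ⟨DD, hDD0, X0, hX01, fun X hlarge M hM2 F hF => ?_⟩
  have hX : 1 ≤ X := hX01.trans hlarge
  have hXp : 0 < X := by linarith
  have hXX1 : X1 ≤ X := by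
    rw [hX0e] at hlarge
    exact ((le_max_left _ _).trans (le_max_left _ _)).trans hlarge
  have hXX2 : X2 ≤ X := by
    rw [hX0e] at hlarge
    exact ((le_max_right _ _).trans (le_max_left _ _)).trans hlarge
  have hXL1 : Real.exp 2 ≤ X := by rw [hX0e] at hlarge; exact (le_max_right _ _).trans hlarge
  have hMX : (M : ℝ) ≤ X := by
    refine le_trans ?_ hM2
    exact le_mul_of_one_le_right (Nat.cast_nonneg _) (Real.one_le_rpow hX (by positivity))
  obtain ⟨L, hL⟩ : ∃ L, L = Real.log X := ⟨_, rfl⟩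
  have hLL2 : 2 ≤ L := by rw [hL, Real.le_log_iff_exp_le hXp]; exact hXL1
  have hL1' : 1 ≤ L := by linarith
  have hL0 : 0 < L := by linarith
  obtain ⟨l0, hl0⟩ : ∃ l0, l0 = L ^ (2 + η) := ⟨_, rfl⟩
  have hl02 : 2 ≤ l0 := by
    have h1 : L ^ (1 : ℝ) ≤ L ^ (2 + η) := Real.rpow_le_rpow_of_exponent_le hL1' (by linarith)
    rw [Real.rpow_one] at h1
    rw [hl0]
    linarith
  have hl01 : 1 ≤ l0 := by linarith
  have hl00 : 0 < l0 := by linarith
  obtain ⟨H, hH⟩ : ∃ H, H = Real.exp (3000 * (1 + L) ^ 6) := ⟨_, rfl⟩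
  have hlH : Real.log H = 3000 * (1 + L) ^ 6 := by rw [hH, Real.log_exp]
  have hH1 : 1 ≤ H := by
    rw [hH]
    exact Real.one_le_exp (by positivity)
  have hlogH : 1 + Real.log H ≤ D4 * X ^ (1 / (k : ℝ)) := by rw [hlH, hL]; exact hlog X hX
  rw [← hL, ← hl0] at hF
  obtain ⟨P, hP⟩ : ∃ P : ℝ, P = ((M : ℝ) + 1) * X ^ (4 / (k : ℝ)) := ⟨_, rfl⟩
  have hP0 : 0 < P := by rw [hP]; positivity
  have hmono : ∀ a : ℝ, a ≤ 4 → X ^ (a / (k : ℝ)) ≤ X ^ (4 / (k : ℝ)) := by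
    intro a ha
    exact Real.rpow_le_rpow_of_exponent_le hX (div_le_div_of_nonneg_right ha hkp.le)
  -- light triples
  obtain ⟨FL, hFL⟩ : ∃ FL, FL = F.filter fun t => ∃ m ∈ SF M, Light k m.primeFactors t := ⟨_, rfl⟩
  have cL : (FL.card : ℝ) ≤ D3 * D4 * P := by
    have h1 := hfam (insert 1 (SF M)) X H hX hH1 (mem_insert_self _ _) (fun m hm => by
        rw [mem_insert, mem_SF] at hm
        rcases hm with rfl | hm
        · exact ⟨le_rfl, by simpa using hX⟩
        · refine ⟨hm.1.1, le_trans ?_ hMX⟩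
          exact_mod_cast hm.1.2) FL (fun t ht => by
        rw [hFL, mem_filter] at ht
        obtain ⟨b1, m, b2, b3⟩ := ht
        refine ⟨(hF t b1).1, ?_, fun _ => ⟨m, mem_insert_of_mem b2, b3⟩⟩
        rw [hH, hL]
        exact height_le (hF t b1).1 hX (by rw [← hL]; exact (hF t b1).2.1))
    have h2 : (((insert 1 (SF M)).card : ℕ) : ℝ) ≤ (M : ℝ) + 1 := by
      have e1 : (insert 1 (SF M)).card ≤ M + 1 := by
        refine (Finset.card_insert_le _ _).trans (Nat.add_le_add_right ?_ 1)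
        unfold SF
        refine (Finset.card_filter_le _ _).trans ?_
        rw [Nat.card_Icc, Nat.add_sub_cancel]
      exact_mod_cast e1
    calc (FL.card : ℝ) ≤ D3 * (((insert 1 (SF M)).card : ℕ) : ℝ) * X ^ (1 / (k : ℝ)) *
          (1 + Real.log H) := h1
      _ ≤ D3 * ((M : ℝ) + 1) * X ^ (1 / (k : ℝ)) * (D4 * X ^ (1 / (k : ℝ))) := by
          refine mul_le_mul ?_ hlogH ?_ (by positivity)
          · exact mul_le_mul_of_nonneg_right (mul_le_mul_of_nonneg_left h2 hD3.le) (by positivity)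
          · have := Real.log_nonneg hH1
            linarith
      _ = D3 * D4 * (((M : ℝ) + 1) * (X ^ (1 / (k : ℝ)) * X ^ (1 / (k : ℝ)))) := by ring
      _ = D3 * D4 * (((M : ℝ) + 1) * X ^ (2 / (k : ℝ))) := by
          rw [← Real.rpow_add hXp]
          congr 3
          ring
      _ ≤ D3 * D4 * P := by
          rw [hP]
          exact mul_le_mul_of_nonneg_left (mul_le_mul_of_nonneg_left (hmono 2 (by norm_num))
            (by positivity)) (by positivity)
  -- large heights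
  obtain ⟨FH, hFH⟩ : ∃ FH, FH = F.filter fun t => ∃ m ∈ SF M, ∃ l p, PP k X l m t p ∧
      (C * L) ^ m.primeFactors.card * X ^ (1 / (k : ℝ)) < Real.log (t 2) := ⟨_, rfl⟩
  have cH : (FH.card : ℝ) ≤ D1 * P := by
    rw [hP, ← mul_assoc]
    refine hhigh X hXX1 M hMX FH fun t ht => ?_
    rw [hFH, mem_filter] at ht
    rw [← hL]
    exact ⟨(hF t ht.1).1, (hF t ht.1).2.1, ht.2⟩
  rcases le_or_gt l0 H with hcase | hcase
  · obtain ⟨J, hJ, G, hG, hGc⟩ := scales hk1 hl00 hcase F (fun t ht => by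
      refine ⟨(not_le.1 (hF t ht).2.2.1).le, ?_⟩
      rw [hH, hL]
      exact height_le (hF t ht).1 hX (by rw [← hL]; exact (hF t ht).2.1))
    have hGj : ∀ j ∈ Finset.range (J + 1), ((G j).card : ℝ) ≤ (D3 * D4 + D1 + D2) * P := by
      intro j _
      have p1 : 1 ≤ rho k ^ j := one_le_pow₀ hρ.le
      have p4 : l0 ≤ l0 * rho k ^ j := le_mul_of_one_le_right hl00.le p1
      obtain ⟨l, hl⟩ : ∃ l, l = l0 * rho k ^ j := ⟨_, rfl⟩
      rw [← hl] at p4
      obtain ⟨Glo, hGlo⟩ : ∃ Glo, Glo = (G j).filter fun t => ∃ m ∈ SF M, ∃ p, PP k X l m t p ∧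
        l ≤ (C * L) ^ m.primeFactors.card * X ^ (1 / (k : ℝ)) := ⟨_, rfl⟩
      have hmemG : ∀ t ∈ G j, t ∈ F ∧ Scale k l t := by
        intro t ht
        obtain ⟨f1, f2⟩ := hG j t ht
        rw [← hl] at f2
        exact ⟨f1, f2⟩
      have hcov : G j ⊆ FL ∪ (FH ∪ Glo) := by
        intro t ht
        obtain ⟨f1, f3⟩ := hmemG t ht
        have hl2 : 2 ≤ l := hl02.trans p4
        obtain ⟨m, hm, hgd⟩ := (hF t f1).2.2.2 l hl2 f3
        rw [mem_union, mem_union, hFL, hFH, hGlo, mem_filter, mem_filter, mem_filter]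
        rcases hgd with hg | ⟨p, hp⟩
        · exact Or.inl ⟨f1, m, hm, hg⟩
        · rcases le_or_gt l ((C * L) ^ m.primeFactors.card * X ^ (1 / (k : ℝ))) with h5 | h5
          · exact Or.inr (Or.inr ⟨ht, m, hm, p, hp, h5⟩)
          · exact Or.inr (Or.inl ⟨f1, m, hm, l, p, hp, lt_of_lt_of_le h5 f3.1⟩)
      have cG : (Glo.card : ℝ) ≤ D2 * P := by
        have h9 := hlow X hXX2 l (by rw [← hL, ← hl0]; exact p4) M hM2 Glo fun t ht => by
          rw [hGlo, mem_filter] at ht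
          obtain ⟨f1, f3⟩ := hmemG t ht.1
          rw [← hL]
          exact ⟨(hF t f1).1, f3, ht.2⟩
        refine h9.trans ?_
        rw [hP, mul_assoc]
        refine mul_le_mul_of_nonneg_left ?_ hD2.le
        refine mul_le_mul (by linarith) (hmono 3 (by norm_num)) (by positivity) (by positivity)
      have h6 : (G j).card ≤ FL.card + (FH.card + Glo.card) :=
        (Finset.card_le_card hcov).trans ((Finset.card_union_le _ _).trans
          (Nat.add_le_add_left (Finset.card_union_le _ _) _))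
      have h7 : ((G j).card : ℝ) ≤ FL.card + (FH.card + Glo.card) := by exact_mod_cast h6
      calc ((G j).card : ℝ) ≤ D3 * D4 * P + (D1 * P + D2 * P) := by
            linarith only [h7, cL, cH, cG]
        _ = _ := by ring
    have h3 : (F.card : ℝ) ≤ ∑ j ∈ Finset.range (J + 1), ((G j).card : ℝ) := by
      exact_mod_cast hGc
    have h4 := h3.trans (Finset.sum_le_sum hGj)
    rw [Finset.sum_const, Finset.card_range, nsmul_eq_mul] at h4
    -- the number of scales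
    have hJ1 : ((J + 1 : ℕ) : ℝ) ≤ (1 + 1 / Real.log (rho k)) * D4 * X ^ (1 / (k : ℝ)) := by
      have e1 : rho k ^ J ≤ H := by
        refine le_trans ?_ hJ
        exact le_mul_of_one_le_left (by positivity) hl01
      have e2 := Real.log_le_log (by positivity) e1
      rw [Real.log_pow] at e2
      have e3 : (J : ℝ) ≤ 1 / Real.log (rho k) * Real.log H := by
        rw [one_div, ← div_eq_inv_mul, le_div_iff₀ hlρ]
        exact e2
      have e4 : 0 ≤ Real.log H := Real.log_nonneg hH1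
      have e5 : 0 < 1 / Real.log (rho k) := by positivity
      calc ((J + 1 : ℕ) : ℝ) = (J : ℝ) + 1 := by push_cast; ring
        _ ≤ (1 + 1 / Real.log (rho k)) * (1 + Real.log H) := by
            have : (1 + 1 / Real.log (rho k)) * (1 + Real.log H) =
              1 + Real.log H + 1 / Real.log (rho k) + 1 / Real.log (rho k) * Real.log H := by ring
            rw [this]
            linarith only [e3, e4, e5]
        _ ≤ (1 + 1 / Real.log (rho k)) * (D4 * X ^ (1 / (k : ℝ))) :=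
            mul_le_mul_of_nonneg_left hlogH (by positivity)
        _ = _ := by ring
    calc (F.card : ℝ) ≤ ((J + 1 : ℕ) : ℝ) * ((D3 * D4 + D1 + D2) * P) := h4
      _ ≤ ((1 + 1 / Real.log (rho k)) * D4 * X ^ (1 / (k : ℝ))) * ((D3 * D4 + D1 + D2) * P) :=
          mul_le_mul_of_nonneg_right hJ1 (by positivity)
      _ = DD * (((M : ℝ) + 1) * (X ^ (1 / (k : ℝ)) * X ^ (4 / (k : ℝ)))) := by
          rw [hDD, hP]; ring
      _ = DD * ((M : ℝ) + 1) * X ^ (5 / (k : ℝ)) := by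
          rw [← Real.rpow_add hXp, ← mul_assoc]
          congr 2
          ring
  · have : F = ∅ := by
      rw [Finset.eq_empty_iff_forall_notMem]
      intro t ht
      have h1 := height_le (hF t ht).1 hX (by rw [← hL]; exact (hF t ht).2.1)
      rw [← hL, ← hH] at h1
      have h2 := not_le.1 (hF t ht).2.2.1
      linarith only [h1, h2, hcase]
    rw [this, Finset.card_empty, Nat.cast_zero]
    positivity

/-- the choice of the product `m` when the member `i` has a small radical -/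
theorem good_mA {m k : ℕ} (hm8 : 8 ≤ m) (hk : k = m ^ 2) {X l B : ℝ} (hX : 1 ≤ X) (hl : 2 ≤ l)
    {t : Fin 3 → ℕ} (h : Tr t) (hs : Scale k l t)
    (hr : rr t 0 + rr t 1 + rr t 2 ≤ Real.log X) (i : Fin 3) (hi : rr t i ≤ Real.log B)
    (hB : 0 < B) :
    ∃ w ∈ SF ⌊(B * X) ^ (1 / 2 : ℝ) * X ^ (3 / (m : ℝ))⌋₊,
      Light k w.primeFactors t ∨ ∃ p, PP k X l w t p := by
  have hX0 : 0 < X := by linarith
  have hr0 := rr_nonneg t 0
  have hr1 := rr_nonneg t 1
  have hr2 := rr_nonneg t 2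
  have hpX : ∀ j, ∀ p ∈ (t j).primeFactors, (p : ℝ) ≤ X := by
    intro j p hp
    have hp0 : (0 : ℝ) < p := by exact_mod_cast (Nat.prime_of_mem_primeFactors hp).pos
    have h4 : Real.log p ≤ rr t j :=
      Finset.single_le_sum (f := fun q : ℕ => Real.log (q : ℝ))
        (fun q hq => log_prime_nonneg (Nat.prime_of_mem_primeFactors hq)) hp
    have h5 : rr t j ≤ Real.log X := by
      refine le_trans ?_ hr
      fin_cases j
      · show rr t 0 ≤ _; linarith
      · show rr t 1 ≤ _; linarith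
      · show rr t 2 ≤ _; linarith
    exact (Real.log_le_log_iff hp0 hX0).1 (h4.trans h5)
  obtain ⟨S, hS, hgood, hsum⟩ := choiceA (k := k) hm8 hk (X := X) (l := l) hl h hs hpX i
  have hpf : (∏ q ∈ S, q).primeFactors = S := Nat.primeFactors_prod hS
  have hmpos : 0 < ∏ q ∈ S, q := Finset.prod_pos fun q hq => (hS q hq).pos
  have hm0 : (0 : ℝ) < m := by
    have : 0 < m := by omega
    exact_mod_cast this
  have hmM : ((∏ q ∈ S, q : ℕ) : ℝ) ≤ (B * X) ^ (1 / 2 : ℝ) * X ^ (3 / (m : ℝ)) := by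
    rw [← Real.log_le_log_iff (by exact_mod_cast hmpos) (by positivity),
      Real.log_mul (by positivity) (by positivity), Real.log_rpow (by positivity),
      Real.log_rpow hX0, Real.log_mul hB.ne' hX0.ne', log_prod_primes hS]
    refine hsum.trans (add_le_add ?_ (mul_le_mul_of_nonneg_left hr (by positivity)))
    refine mul_le_mul_of_nonneg_left ?_ (by norm_num)
    linarith
  refine ⟨∏ q ∈ S, q, mem_SF.2 ⟨⟨hmpos, Nat.le_floor hmM⟩, sqf hS⟩, ?_⟩
  rw [hpf]
  rcases hgood with hg | ⟨A, B, C, Q, e, p, hAB, hBC, hAC, hP⟩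
  · exact Or.inl hg
  · refine Or.inr ⟨p, A, B, C, Q, e, hAB, hBC, hAC, ?_⟩
    rw [hpf]
    exact hP

/-- a member with a small radical and the lighter of the other two -/
theorem pair_of {t : Fin 3 → ℕ} (i : Fin 3) :
    ∃ j : Fin 3, i ≠ j ∧ rr t i + rr t j ≤ (rr t 0 + rr t 1 + rr t 2 + rr t i) / 2 := by
  have key : ∀ f : Fin 3 → ℝ, ∃ j : Fin 3, i ≠ j ∧ f i + f j ≤ (f 0 + f 1 + f 2 + f i) / 2 := by
    intro f
    fin_cases i
    · rcases le_total (f 1) (f 2) with h | h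
      · refine ⟨1, by decide, ?_⟩
        show f 0 + f 1 ≤ (f 0 + f 1 + f 2 + f 0) / 2
        linarith
      · refine ⟨2, by decide, ?_⟩
        show f 0 + f 2 ≤ (f 0 + f 1 + f 2 + f 0) / 2
        linarith
    · rcases le_total (f 0) (f 2) with h | h
      · refine ⟨0, by decide, ?_⟩
        show f 1 + f 0 ≤ (f 0 + f 1 + f 2 + f 1) / 2
        linarith
      · refine ⟨2, by decide, ?_⟩
        show f 1 + f 2 ≤ (f 0 + f 1 + f 2 + f 1) / 2
        linarith
    · rcases le_total (f 0) (f 1) with h | h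
      · refine ⟨0, by decide, ?_⟩
        show f 2 + f 0 ≤ (f 0 + f 1 + f 2 + f 2) / 2
        linarith
      · refine ⟨1, by decide, ?_⟩
        show f 2 + f 1 ≤ (f 0 + f 1 + f 2 + f 2) / 2
        linarith
  exact key (rr t)

/-- the lightest member -/
theorem min_of (t : Fin 3 → ℕ) : ∃ i : Fin 3, rr t i ≤ (rr t 0 + rr t 1 + rr t 2) / 3 := by
  by_contra hcon
  push Not at hcon
  have h0 := hcon 0
  have h1 := hcon 1
  have h2 := hcon 2
  linarith

/-- **triples of all heights with radical at most `X`, a member of which has radical at most `A`** -/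
theorem ref_all (ε : ℝ) (hε : 0 < ε) : ∃ D : ℝ, 0 < D ∧ ∀ X A : ℝ, 1 ≤ X → 1 ≤ A →
    ∀ F : Finset (Fin 3 → ℕ), (∀ t ∈ F, Tr t ∧ rr t 0 + rr t 1 + rr t 2 ≤ Real.log X ∧
      ∃ i, rr t i ≤ Real.log A) →
    (F.card : ℝ) ≤ D * X ^ ε * (A * X) ^ (1 / 2 : ℝ) := by
  classical
  obtain ⟨k0, hk0⟩ : ∃ k0 : ℕ, 8 / ε ≤ k0 := exists_nat_ge _
  obtain ⟨m, hm⟩ : ∃ m, m = k0 + 12 := ⟨_, rfl⟩
  obtain ⟨k, hk⟩ : ∃ k, k = m ^ 2 := ⟨_, rfl⟩
  have hm8 : 8 ≤ m := by omega
  have hm12 : (12 : ℝ) ≤ m := by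
    have : 12 ≤ m := by omega
    exact_mod_cast this
  have hm0 : (0 : ℝ) < m := by linarith
  have hkm : (k : ℝ) = (m : ℝ) ^ 2 := by rw [hk]; push_cast; ring
  have hkp : (0 : ℝ) < k := by rw [hkm]; positivity
  have hk3 : 3 ≤ k := by rw [hk]; nlinarith
  have hmk : (5 : ℝ) / k ≤ 5 / m := by
    refine div_le_div_of_nonneg_left (by norm_num) hm0 ?_
    rw [hkm]; nlinarith
  have hkε : 8 / (m : ℝ) ≤ ε := by
    have h1 : 8 / ε ≤ (m : ℝ) := hk0.trans (by rw [hm]; push_cast; linarith)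
    rw [div_le_iff₀ hε] at h1
    rw [div_le_iff₀ hm0]
    linarith
  obtain ⟨Da, hDa, hrad⟩ := by_radical 1 one_pos
  obtain ⟨η, hη, L1, hL1, hsmall⟩ := small_gen ε hε
  obtain ⟨D1, hD1, X1, hX11, hcnt⟩ := count_gen hk3 hη
  obtain ⟨X0, hX0e⟩ : ∃ X0, X0 = max X1 (Real.exp L1) := ⟨_, rfl⟩
  have hX01 : 1 ≤ X0 := by
    rw [hX0e]
    exact hX11.trans (le_max_left _ _)
  have hX0p : 0 < X0 := by linarith
  refine ⟨Da * X0 * X0 ^ (1 : ℝ) + (9 + 2 * D1), by positivity, fun X A hX hA F hF => ?_⟩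
  have hXp : 0 < X := by linarith
  have hXe1 : 1 ≤ X ^ ε := Real.one_le_rpow hX (by positivity)
  have hAX1 : 1 ≤ (A * X) ^ (1 / 2 : ℝ) :=
    Real.one_le_rpow (one_le_mul_of_one_le_of_one_le hA hX) (by norm_num)
  rcases lt_or_ge X X0 with hsm | hlarge
  · -- small `X`
    have h1 := hrad X0 hX01 (Icc 1 ⌊X0⌋₊)
      (by rw [mem_Icc]; exact ⟨le_rfl, Nat.le_floor (by simpa using hX01)⟩)
      (fun m hm => by
        rw [mem_Icc] at hm
        exact ⟨hm.1, (Nat.le_floor_iff hX0p.le).1 hm.2⟩) F (fun t ht => by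
        obtain ⟨a1, a2, -⟩ := hF t ht
        refine ⟨a1, radi t, ?_, radi_pf t⟩
        rw [mem_Icc]
        exact ⟨radi_pos t, Nat.le_floor ((radi_le a1 hXp a2).trans hsm.le)⟩)
    rw [Nat.card_Icc, Nat.add_sub_cancel] at h1
    have h2 : Da * (⌊X0⌋₊ : ℝ) * X0 ^ (1 : ℝ) ≤ Da * X0 * X0 ^ (1 : ℝ) :=
      mul_le_mul_of_nonneg_right (mul_le_mul_of_nonneg_left (Nat.floor_le hX0p.le) hDa.le)
        (by positivity)
    calc (F.card : ℝ) ≤ Da * X0 * X0 ^ (1 : ℝ) := h1.trans h2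
      _ ≤ Da * X0 * X0 ^ (1 : ℝ) + (9 + 2 * D1) := by linarith only [hD1]
      _ = (Da * X0 * X0 ^ (1 : ℝ) + (9 + 2 * D1)) * 1 * 1 := by ring
      _ ≤ _ := by
          refine mul_le_mul (mul_le_mul_of_nonneg_left hXe1 (by positivity)) hAX1 zero_le_one
            (by positivity)
  have hXX1 : X1 ≤ X := by
    rw [hX0e] at hlarge
    exact (le_max_left _ _).trans hlarge
  have hXL1 : Real.exp L1 ≤ X := by rw [hX0e] at hlarge; exact (le_max_right _ _).trans hlarge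
  obtain ⟨L, hL⟩ : ∃ L, L = Real.log X := ⟨_, rfl⟩
  have hLL1 : L1 ≤ L := by rw [hL, Real.le_log_iff_exp_le hXp]; exact hXL1
  have hL0 : 0 ≤ L := by linarith
  -- reduce to `A ≤ X ^ (1/3)`
  obtain ⟨B, hB⟩ : ∃ B, B = min A (X ^ (1 / 3 : ℝ)) := ⟨_, rfl⟩
  have hB1 : 1 ≤ B := by rw [hB]; exact le_min hA (Real.one_le_rpow hX (by norm_num))
  have hB0 : 0 < B := by linarith
  have hBA : B ≤ A := by rw [hB]; exact min_le_left _ _
  have hBX : B ≤ X ^ (1 / 3 : ℝ) := by rw [hB]; exact min_le_right _ _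
  have hlB0 : 0 ≤ Real.log B := Real.log_nonneg hB1
  have hlB : Real.log B ≤ L / 3 := by
    have h1 := Real.log_le_log hB0 hBX
    rw [Real.log_rpow hXp, ← hL] at h1
    linarith
  have hFB : ∀ t ∈ F, ∃ i, rr t i ≤ Real.log B := by
    intro t ht
    obtain ⟨a1, a2, i, a3⟩ := hF t ht
    rcases le_total A (X ^ (1 / 3 : ℝ)) with h1 | h1
    · exact ⟨i, by rw [hB, min_eq_left h1]; exact a3⟩
    · obtain ⟨j, hj⟩ := min_of t
      refine ⟨j, ?_⟩
      rw [hB, min_eq_right h1, Real.log_rpow hXp]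
      linarith
  have hBX1 : (B * X) ^ (1 / 2 : ℝ) ≤ (A * X) ^ (1 / 2 : ℝ) :=
    Real.rpow_le_rpow (by positivity) (mul_le_mul_of_nonneg_right hBA hXp.le) (by norm_num)
  have hBX2 : (B * X) ^ (1 / 2 : ℝ) ≤ X ^ (2 / 3 : ℝ) := by
    calc (B * X) ^ (1 / 2 : ℝ) ≤ (X ^ (1 / 3 : ℝ) * X ^ (1 : ℝ)) ^ (1 / 2 : ℝ) := by
          rw [Real.rpow_one]
          exact Real.rpow_le_rpow (by positivity) (mul_le_mul_of_nonneg_right hBX hXp.le)
            (by norm_num)
      _ = X ^ (2 / 3 : ℝ) := by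
          rw [← Real.rpow_add hXp, ← Real.rpow_mul hXp.le]
          norm_num
  have hBXone : 1 ≤ (B * X) ^ (1 / 2 : ℝ) :=
    Real.one_le_rpow (one_le_mul_of_one_le_of_one_le hB1 hX) (by norm_num)
  obtain ⟨F1, hF1⟩ : ∃ F1, F1 = F.filter fun t => Real.log (t 2) ≤ L ^ (2 + η) := ⟨_, rfl⟩
  obtain ⟨F2, hF2⟩ : ∃ F2, F2 = F.filter fun t => ¬ Real.log (t 2) ≤ L ^ (2 + η) := ⟨_, rfl⟩
  have hcard : (F.card : ℝ) = F1.card + F2.card := by
    have : F.card = F1.card + F2.card := by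
      rw [hF1, hF2]
      exact (Finset.card_filter_add_card_filter_not (s := F)
        (fun t => Real.log (t 2) ≤ L ^ (2 + η))).symm
    rw [this, Nat.cast_add]
  -- small heights
  have d1 : (F1.card : ℝ) ≤ 9 * (X ^ ε * (A * X) ^ (1 / 2 : ℝ)) := by
    have h1 := hsmall X hX (by rw [← hL]; exact hLL1) ((L + Real.log B) / 2) (by positivity)
      (by rw [← hL]; linarith) F1 (fun t ht => by
      rw [hF1, mem_filter] at ht
      obtain ⟨i, hi⟩ := hFB t ht.1
      obtain ⟨j, hij, hj⟩ := pair_of (t := t) i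
      refine ⟨(hF t ht.1).1, ⟨i, j, hij, hj.trans ?_⟩, by rw [← hL]; exact ht.2⟩
      have := (hF t ht.1).2.1
      rw [← hL] at this
      linarith)
    refine h1.trans (mul_le_mul_of_nonneg_left ?_ (by norm_num))
    rw [mul_comm]
    refine mul_le_mul_of_nonneg_left (le_trans (le_of_eq ?_) hBX1) (by positivity)
    rw [Real.rpow_def_of_pos (by positivity), Real.log_mul hB0.ne' hXp.ne', ← hL]
    congr 1
    ring
  -- large heights
  obtain ⟨M, hM⟩ : ∃ M, M = ⌊(B * X) ^ (1 / 2 : ℝ) * X ^ (3 / (m : ℝ))⌋₊ := ⟨_, rfl⟩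
  have hMle : (M : ℝ) ≤ (B * X) ^ (1 / 2 : ℝ) * X ^ (3 / (m : ℝ)) := by
    rw [hM]; exact Nat.floor_le (by positivity)
  have hM2 : (M : ℝ) * X ^ (2 / (k : ℝ)) ≤ X := by
    calc (M : ℝ) * X ^ (2 / (k : ℝ)) ≤
        (X ^ (2 / 3 : ℝ) * X ^ (3 / (m : ℝ))) * X ^ (2 / (k : ℝ)) := by
          refine mul_le_mul_of_nonneg_right (hMle.trans ?_) (by positivity)
          exact mul_le_mul_of_nonneg_right hBX2 (by positivity)
      _ = X ^ (2 / 3 + 3 / (m : ℝ) + 2 / (k : ℝ)) := by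
          rw [← Real.rpow_add hXp, ← Real.rpow_add hXp]
      _ ≤ X ^ (1 : ℝ) := by
          refine Real.rpow_le_rpow_of_exponent_le hX ?_
          have h1 : 3 / (m : ℝ) ≤ 3 / 12 := div_le_div_of_nonneg_left (by norm_num) (by norm_num) hm12
          have h2 : 2 / (k : ℝ) ≤ 2 / 144 := by
            refine div_le_div_of_nonneg_left (by norm_num) (by norm_num) ?_
            rw [hkm]; nlinarith
          linarith
      _ = X := Real.rpow_one X
  have d2 : (F2.card : ℝ) ≤ 2 * D1 * (X ^ ε * (A * X) ^ (1 / 2 : ℝ)) := by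
    have h1 := hcnt X hXX1 M hM2 F2 (fun t ht => by
      rw [hF2, mem_filter] at ht
      obtain ⟨i, hi⟩ := hFB t ht.1
      refine ⟨(hF t ht.1).1, (hF t ht.1).2.1, by rw [← hL]; exact ht.2, fun l hl hs => ?_⟩
      rw [hM]
      exact good_mA hm8 hk hX hl (hF t ht.1).1 hs (hF t ht.1).2.1 i hi hB0)
    refine h1.trans ?_
    have h2 : (M : ℝ) + 1 ≤ 2 * ((B * X) ^ (1 / 2 : ℝ) * X ^ (3 / (m : ℝ))) := by
      have h3 : 1 ≤ (B * X) ^ (1 / 2 : ℝ) * X ^ (3 / (m : ℝ)) :=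
        one_le_mul_of_one_le_of_one_le hBXone (Real.one_le_rpow hX (by positivity))
      linarith
    calc D1 * ((M : ℝ) + 1) * X ^ (5 / (k : ℝ)) ≤
        D1 * (2 * ((B * X) ^ (1 / 2 : ℝ) * X ^ (3 / (m : ℝ)))) * X ^ (5 / (m : ℝ)) := by
          refine mul_le_mul (mul_le_mul_of_nonneg_left h2 hD1.le)
            (Real.rpow_le_rpow_of_exponent_le hX hmk) (by positivity) (by positivity)
      _ = 2 * D1 * ((X ^ (3 / (m : ℝ)) * X ^ (5 / (m : ℝ))) * (B * X) ^ (1 / 2 : ℝ)) := by ring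
      _ = 2 * D1 * (X ^ (8 / (m : ℝ)) * (B * X) ^ (1 / 2 : ℝ)) := by
          rw [← Real.rpow_add hXp]
          congr 3
          ring
      _ ≤ _ := by
          refine mul_le_mul_of_nonneg_left ?_ (by positivity)
          exact mul_le_mul (Real.rpow_le_rpow_of_exponent_le hX hkε) hBX1 (by positivity)
            (by positivity)
  have hP : 0 ≤ Da * X0 * X0 ^ (1 : ℝ) * (X ^ ε * (A * X) ^ (1 / 2 : ℝ)) := by positivity
  rw [hcard]
  have hfin : (Da * X0 * X0 ^ (1 : ℝ) + (9 + 2 * D1)) * X ^ ε * (A * X) ^ (1 / 2 : ℝ) =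
      Da * X0 * X0 ^ (1 : ℝ) * (X ^ ε * (A * X) ^ (1 / 2 : ℝ)) +
      (9 * (X ^ ε * (A * X) ^ (1 / 2 : ℝ)) + 2 * D1 * (X ^ ε * (A * X) ^ (1 / 2 : ℝ))) := by
    ring
  rw [hfin]
  linarith only [d1, d2, hP]

end Pool.Agent.TH867.SB
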