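import Pool.Agent.TH867.SB.Simul
import Pool.Agent.TH867.SR.Main

/-!
The simultaneous theorem for sets of primes (helper867).
-/

set_option autoImplicit false

namespace Pool.Agent.TH867.SB

open Finset
open Pool.Agent.TH867.SR (eq_prod)

theorem mon_inj {k : ℕ} (f : Fin k → ℕ) (hf : ∀ i, (f i).Prime) (hfi : Function.Injective f) :
    Function.Injective fun A : Finset (Fin k) => ∏ i ∈ A, f i := by
  classical
  intro A A' hAA
  simp only at hAA
  have key : ∀ A : Finset (Fin k), (∏ i ∈ A, f i).primeFactors = A.image f := by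
    intro A
    have h1 : ∏ i ∈ A, f i = ∏ q ∈ A.image f, q := by
      rw [Finset.prod_image fun x _ y _ h => hfi h]
    rw [h1]
    refine Nat.primeFactors_prod fun q hq => ?_
    obtain ⟨i, -, rfl⟩ := Finset.mem_image.1 hq
    exact hf i
  have h2 := key A
  rw [hAA, key A'] at h2
  exact (Finset.image_injective hfi h2).symm

/-- products over the primes of a set -/
theorem prod_fin {G : Type*} [CommMonoid G] {n : ℕ} {P : Finset ℕ} (hP : P.card = n) (f : ℕ → G) :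
    ∏ i : Fin n, f ((P.equivFinOfCardEq hP).symm i : ℕ) = ∏ q ∈ P, f q := by
  rw [← Finset.prod_coe_sort P f]
  exact Equiv.prod_comp (P.equivFinOfCardEq hP).symm (fun q : P => f q)

theorem primes_simul {p n k w h S J Z0 N M Xs τ T0 ν Δ : ℕ} (hp : p.Prime)
    (hph : p ≤ 2 ^ h)
    (hXs : Xs = 2 * h + h * w) (hτ : τ = 8 * Xs) (hT0 : T0 = (J + 1) * τ)
    (hν : ν = 2 * h + k * S) (hΔ : Δ = k * S + w)
    (h2 : p ^ 2 * (2 * (Fintype.card (Mon n T0) * Z0)) ≤ k.choose w)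
    (h3 : 2 * Fintype.card (Mon n T0) ≤ 2 ^ J)
    (h4 : 8 * (Δ * (J + 1)) ≤ Z0) (h5 : 2 * (Fintype.card (Mon n T0) * Z0) ≤ 2 ^ N)
    (h6 : 2 * N + 1 ≤ Z0)
    (h7 : 2 + ν * τ + (τ + τ ^ 2) * (2 ^ J * Z0) ≤ M)
    {Q R : Finset ℕ} (hQ : Q.card = n) (hR : R.card = k) (hQp : ∀ q ∈ Q, q.Prime)
    (hRp : ∀ r ∈ R, r.Prime) (hQR : Disjoint Q R) (hpQ : p ∉ Q) (hpR : p ∉ R)
    (hRh : ∀ r ∈ R, r ≤ 2 ^ h)
    (x y : ℕ → ℕ) (hx : ∀ r ∈ R, x r ≠ 0) (hy : ∀ r ∈ R, y r ≠ 0)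
    (hxp : ∀ r ∈ R, (x r).primeFactors ⊆ insert r Q) (hxr : ∀ r ∈ R, r ∣ x r)
    (hyp : ∀ r ∈ R, (y r).primeFactors ⊆ Q)
    (hd : ∀ r ∈ R, ((p ^ M : ℕ) : ℤ) ∣ (x r : ℤ) ^ 2 - (y r : ℤ) ^ 2)
    (hxe : ∀ r ∈ R, ∀ q, 2 * (x r).factorization q ≤ 2 ^ S)
    (hye : ∀ r ∈ R, ∀ q, 2 * (y r).factorization q ≤ 2 ^ S) : False := by
  classical
  have : Fact p.Prime := ⟨hp⟩
  have hcopQ : ∀ q ∈ Q, Nat.Coprime q (p ^ M) := by
    intro q h
    refine Nat.Coprime.pow_right _ ?_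
    rw [Nat.coprime_primes (hQp q h) hp]
    rintro rfl
    exact hpQ h
  have hcopR : ∀ q ∈ R, Nat.Coprime q (p ^ M) := by
    intro q h
    refine Nat.Coprime.pow_right _ ?_
    rw [Nat.coprime_primes (hRp q h) hp]
    rintro rfl
    exact hpR h
  obtain ⟨e, he⟩ : ∃ e : Fin n → ℕ, e = fun i => ((Q.equivFinOfCardEq hQ).symm i : ℕ) := ⟨_, rfl⟩
  obtain ⟨f, hf⟩ : ∃ f : Fin k → ℕ, f = fun i => ((R.equivFinOfCardEq hR).symm i : ℕ) := ⟨_, rfl⟩
  have heQ : ∀ i, e i ∈ Q := fun i => by rw [he]; exact ((Q.equivFinOfCardEq hQ).symm i).2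
  have hfR : ∀ i, f i ∈ R := fun i => by rw [hf]; exact ((R.equivFinOfCardEq hR).symm i).2
  have hfi : Function.Injective f := by
    rw [hf]
    exact Subtype.val_injective.comp (R.equivFinOfCardEq hR).symm.injective
  let v : ℕ → (ZMod (p ^ M))ˣ := fun q => if h : Nat.Coprime q (p ^ M) then ZMod.unitOfCoprime q h else 1
  have hv : ∀ q, Nat.Coprime q (p ^ M) → (v q : ZMod (p ^ M)) = q := by
    intro q h
    simp only [v, dif_pos h]
    exact ZMod.coe_unitOfCoprime _ _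
  let cc : ℕ → ℕ → ℤ := fun r q => 2 * (((x r).factorization q : ℤ) - (y r).factorization q)
  refine simul (p := p) (n := n) (k := k) (w := w) (h := h) (S := S) (J := J) (Z0 := Z0)
    (N := N) (M := M) (Xs := Xs) (τ := τ) (T0 := T0) (ν := ν) (Δ := Δ) hph hXs hτ hT0 hν hΔ h2
    h3 h4 h5 h6 h7 e f (fun i => 2 * (x (f i)).factorization (f i))
    (fun i j => cc (f i) (e j)) (fun j => v (e j)) (fun i => v (f i))
    (fun j => hv _ (hcopQ _ (heQ j))) (fun i => hv _ (hcopR _ (hfR i)))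
    (fun i => hRh _ (hfR i)) ?_ (fun i => hxe _ (hfR i) _) ?_ ?_
    (mon_inj f (fun i => hRp _ (hfR i)) hfi)
  · intro i
    have h1 := (hRp _ (hfR i)).factorization_pos_of_dvd (hx _ (hfR i)) (hxr _ (hfR i))
    show 0 < 2 * (x (f i)).factorization (f i)
    omega
  · intro i j
    have h1 := hxe _ (hfR i) (e j)
    have h2 := hye _ (hfR i) (e j)
    simp only [cc]
    rw [abs_le]
    have h1' : 2 * (((x (f i)).factorization (e j) : ℕ) : ℤ) ≤ 2 ^ S := by exact_mod_cast h1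
    have h2' : 2 * (((y (f i)).factorization (e j) : ℕ) : ℤ) ≤ 2 ^ S := by exact_mod_cast h2
    have h3 : (0 : ℤ) ≤ (((x (f i)).factorization (e j) : ℕ) : ℤ) := Int.natCast_nonneg _
    have h4 : (0 : ℤ) ≤ (((y (f i)).factorization (e j) : ℕ) : ℤ) := Int.natCast_nonneg _
    constructor <;> linarith
  · intro i
    obtain ⟨r, hr⟩ : ∃ r, r = f i := ⟨_, rfl⟩
    have hrR : r ∈ R := by rw [hr]; exact hfR i
    rw [← hr]
    have hrQ : r ∉ Q := fun h => Finset.disjoint_left.1 hQR h hrR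
    have e1 : ∏ j, v (e j) ^ (cc r (e j)) = ∏ q ∈ Q, v q ^ (cc r q) := by
      rw [he]
      exact prod_fin hQ (fun q => v q ^ (cc r q))
    rw [e1]
    have e3 : ∏ q ∈ Q, v q ^ (cc r q) =
        (∏ q ∈ Q, v q ^ (x r).factorization q) ^ 2 / (∏ q ∈ Q, v q ^ (y r).factorization q) ^ 2 := by
      rw [← Finset.prod_pow, ← Finset.prod_pow, ← Finset.prod_div_distrib]
      refine Finset.prod_congr rfl fun q _ => ?_
      simp only [cc]
      rw [mul_sub, zpow_sub, ← pow_mul, ← pow_mul, mul_comm ((x r).factorization q) 2,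
        mul_comm ((y r).factorization q) 2, div_eq_mul_inv]
      norm_cast
    rw [e3, ← mul_div_assoc, div_eq_one]
    have e5 : v r ^ (2 * (x r).factorization r) = (v r ^ (x r).factorization r) ^ 2 := by
      rw [← pow_mul, mul_comm]
    rw [e5, ← mul_pow, ← Finset.prod_insert (f := fun q => v q ^ (x r).factorization q) hrQ]
    have hxe' := eq_prod (hx r hrR) (hxp r hrR)
    have hye' := eq_prod (hy r hrR) (hyp r hrR)
    have e4 : ∀ (P : Finset ℕ), (∀ q ∈ P, Nat.Coprime q (p ^ M)) → ∀ z : ℕ,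
        z = ∏ q ∈ P, q ^ z.factorization q →
        ((∏ q ∈ P, v q ^ z.factorization q : (ZMod (p ^ M))ˣ) : ZMod (p ^ M)) = z := by
      intro P hP z hz
      rw [Units.coe_prod]
      conv_rhs => rw [hz]
      push_cast
      refine Finset.prod_congr rfl fun q hqP => ?_
      rw [hv q (hP q hqP)]
    apply Units.ext
    rw [Units.val_pow_eq_pow_val, Units.val_pow_eq_pow_val, e4 (insert r Q) (by
      intro q hq
      rcases Finset.mem_insert.1 hq with rfl | hq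
      · exact hcopR _ hrR
      · exact hcopQ _ hq) (x r) hxe', e4 Q hcopQ (y r) hye']
    have h1 : (((x r : ℤ) ^ 2 - (y r : ℤ) ^ 2 : ℤ) : ZMod (p ^ M)) = 0 :=
      (ZMod.intCast_zmod_eq_zero_iff_dvd _ _).2 (hd r hrR)
    push_cast at h1
    exact sub_eq_zero.1 h1

end Pool.Agent.TH867.SB
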