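import Pool.Agent.TH867.SB.Core

/-!
Simultaneous `p`-adic linear forms in logarithms (helper867).
-/

set_option autoImplicit false

namespace Pool.Agent.TH867.SB

open Finset

theorem coprime_of_unit {p M a : ℕ} (hM : 0 < M) {u : (ZMod (p ^ M))ˣ} (hu : (u : ZMod (p ^ M)) = a) :
    Nat.Coprime a p := by
  have h1 : IsUnit ((a : ℕ) : ZMod (p ^ M)) := by rw [← hu]; exact u.isUnit
  rw [ZMod.isUnit_iff_coprime] at h1
  exact Nat.Coprime.coprime_dvd_right (dvd_pow_self _ hM.ne') h1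

variable {p : ℕ} [hp : Fact p.Prime]

/-- **Simultaneous `p`-adic linear forms**: `k` numbers `r i` whose powers lie, modulo `p ^ M`, in
the group generated by `n` numbers `q j`. -/
theorem simul {n k w h S J Z0 N M Xs τ T0 ν Δ : ℕ} (hph : p ≤ 2 ^ h)
    (hXs : Xs = 2 * h + h * w) (hτ : τ = 8 * Xs) (hT0 : T0 = (J + 1) * τ)
    (hν : ν = 2 * h + k * S) (hΔ : Δ = k * S + w)
    (h2 : p ^ 2 * (2 * (Fintype.card (Mon n T0) * Z0)) ≤ k.choose w)
    (h3 : 2 * Fintype.card (Mon n T0) ≤ 2 ^ J)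
    (h4 : 8 * (Δ * (J + 1)) ≤ Z0) (h5 : 2 * (Fintype.card (Mon n T0) * Z0) ≤ 2 ^ N)
    (h6 : 2 * N + 1 ≤ Z0)
    (h7 : 2 + ν * τ + (τ + τ ^ 2) * (2 ^ J * Z0) ≤ M)
    (q : Fin n → ℕ) (r : Fin k → ℕ) (v : Fin k → ℕ) (c : Fin k → Fin n → ℤ)
    (uq : Fin n → (ZMod (p ^ M))ˣ) (ur : Fin k → (ZMod (p ^ M))ˣ)
    (huq : ∀ j, (uq j : ZMod (p ^ M)) = q j) (hur : ∀ i, (ur i : ZMod (p ^ M)) = r i)
    (hr : ∀ i, r i ≤ 2 ^ h) (hv0 : ∀ i, 0 < v i) (hv : ∀ i, v i ≤ 2 ^ S)
    (hc : ∀ i j, |c i j| ≤ 2 ^ S)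
    (hrel : ∀ i, ur i ^ (v i) * ∏ j, uq j ^ (c i j) = 1)
    (hinj : Function.Injective fun A : Finset (Fin k) => ∏ i ∈ A, r i) : False := by
  classical
  obtain ⟨E, rfl⟩ : ∃ E, M = E + 2 := ⟨M - 2, by omega⟩
  have hp2 := hp.out.two_le
  have hh : 1 ≤ h := by
    by_contra hcon
    have : h = 0 := by omega
    rw [this] at hph
    omega
  have hZ0 : 0 < Z0 := by omega
  have hXs1 : 1 ≤ Xs := by rw [hXs]; omega
  have hT01 : 1 ≤ T0 := by rw [hT0, hτ]; exact Nat.mul_pos (by omega) (by omega)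
  have hMon : 0 < Fintype.card (Mon n T0) := by
    rw [Fintype.card_pos_iff]
    exact ⟨⟨fun _ => ⟨0, hT01⟩, by simp; omega⟩⟩
  have hqc : ∀ j, Nat.Coprime (q j) p := fun j => coprime_of_unit (by omega) (huq j)
  have hrc : ∀ i, Nat.Coprime (r i) p := fun i => coprime_of_unit (by omega) (hur i)
  obtain ⟨mon, hmon⟩ : ∃ mon : Finset (Fin k) → ℕ, mon = fun A => ∏ i ∈ A, r i := ⟨_, rfl⟩
  rw [← hmon] at hinj
  have hmonc : ∀ l, Nat.Coprime (mon l) p := by
    intro l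
    rw [hmon]
    exact Nat.Coprime.prod_left fun i _ => hrc i
  -- pigeonhole modulo `p ^ 2`
  have : NeZero (p ^ 2) := ⟨pow_ne_zero _ hp.out.ne_zero⟩
  obtain ⟨g, -, hg⟩ := Finset.exists_le_card_fiber_of_mul_le_card_of_maps_to
    (s := Finset.powersetCard w (univ : Finset (Fin k))) (t := (univ : Finset (ZMod (p ^ 2))))
    (f := fun l => (mon l : ZMod (p ^ 2))) (n := 2 * (Fintype.card (Mon n T0) * Z0))
    (fun _ _ => mem_univ _) univ_nonempty (by
      rw [Finset.card_univ, ZMod.card, Finset.card_powersetCard, Finset.card_univ, Fintype.card_fin]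
      exact h2)
  obtain ⟨I', hI'sub, hI'card⟩ := Finset.exists_subset_card_eq hg
  have hIg : ∀ l ∈ I', (mon l : ZMod (p ^ 2)) = g := fun l hl => (mem_filter.1 (hI'sub hl)).2
  have hIw : ∀ l ∈ I', l.card = w := fun l hl =>
    (Finset.mem_powersetCard.1 (mem_filter.1 (hI'sub hl)).1).2
  have hI'pos : 0 < I'.card := by
    rw [hI'card]
    positivity
  obtain ⟨l0, hl0⟩ := Finset.card_pos.1 hI'pos
  have hgu : IsUnit g := by
    rw [← hIg l0 hl0, ZMod.isUnit_iff_coprime]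
    exact Nat.Coprime.pow_right _ (hmonc l0)
  obtain ⟨ρ, hρ⟩ : ∃ ρ : ℕ, ρ = (g⁻¹).val := ⟨_, rfl⟩
  have hρg : (ρ : ZMod (p ^ 2)) * g = 1 := by
    rw [hρ, ZMod.natCast_zmod_val]
    exact ZMod.inv_mul_of_unit _ hgu
  have hρlt : ρ < p ^ 2 := by rw [hρ]; exact ZMod.val_lt _
  have hρc : Nat.Coprime ρ p := by
    have h1 : IsUnit (ρ : ZMod (p ^ 2)) := IsUnit.of_mul_eq_one _ hρg
    rw [ZMod.isUnit_iff_coprime] at h1
    exact Nat.Coprime.coprime_dvd_right (dvd_pow_self _ (by norm_num)) h1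
  have hρ0 : ρ ≠ 0 := by
    intro h0
    rw [h0] at hρc
    rw [Nat.coprime_zero_left] at hρc
    omega
  have hx1 : ∀ l ∈ I', ρ * mon l ≡ 1 [MOD p ^ 2] := by
    intro l hl
    rw [← ZMod.natCast_eq_natCast_iff]
    push_cast
    rw [hIg l hl, hρg]
  -- discrete logarithms
  obtain ⟨K, hK⟩ : ∃ K, K = E + 2 := ⟨_, rfl⟩
  have hK2 : 2 ≤ K := by omega
  obtain ⟨φ, hφ⟩ : ∃ φ, φ = Nat.totient (p ^ 2) := ⟨_, rfl⟩
  have hφ0 : 0 < φ := by rw [hφ]; exact Nat.totient_pos.2 (by positivity)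
  have hφle : φ ≤ 2 ^ (2 * h) := by
    rw [hφ]
    refine (Nat.totient_le _).trans ?_
    calc p ^ 2 ≤ (2 ^ h) ^ 2 := Nat.pow_le_pow_left hph 2
      _ = 2 ^ (2 * h) := by rw [← pow_mul]; congr 1; ring
  have hpowφ : ∀ {a : ℕ}, Nat.Coprime a p → a ^ φ ≡ 1 [MOD p ^ 2] := by
    intro a ha
    rw [hφ]
    exact Nat.ModEq.pow_totient (Nat.Coprime.pow_right _ ha)
  choose aq haq using fun j => exists_dlog (p := p) hK2 (E + 2) (hpowφ (hqc j))
  choose ar har using fun i => exists_dlog (p := p) hK2 (E + 2) (hpowφ (hrc i))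
  obtain ⟨a0, ha0⟩ := exists_dlog (p := p) hK2 (E + 2) (hpowφ hρc)
  have hAex : ∀ l : {l // l ∈ I'}, ∃ a : ℕ, ((ρ * mon l.1 : ℕ) : ZMod (p ^ (E + 2))) =
      (PadicInt.toZModPow (E + 2) (EE p K 1)) ^ a :=
    fun l => exists_dlog (p := p) hK2 (E + 2) (hx1 l.1 l.2)
  choose A hA using hAex
  obtain ⟨ω, hω⟩ : ∃ ω, ω = PadicInt.toZModPow (E + 2) (EE p K 1) := ⟨_, rfl⟩
  rw [← hω] at ha0
  simp only [← hω] at haq har hA
  -- the linear relation of `A`
  have hAlin : ∀ l : {l // l ∈ I'}, (p : ℤ) ^ E ∣ ((A l * φ : ℕ) : ℤ) -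
      ((a0 + ∑ i ∈ l.1, ar i : ℕ) : ℤ) := by
    intro l
    apply eq_dlog (p := p) hK2
    rw [← hω, pow_mul, ← hA l, pow_add ω, ← ha0, ← Finset.prod_pow_eq_pow_sum,
      Finset.prod_congr rfl fun i _ => (har i).symm, hmon]
    push_cast
    rw [mul_pow, ← Finset.prod_pow]
  -- the relations
  have hrellin : ∀ i, (p : ℤ) ^ E ∣ (v i : ℤ) * ar i + ∑ j, c i j * aq j := by
    intro i
    have h1 := rel_dlog (p := p) hK2 (E := E) (κ := Option (Fin n))
      (fun o => o.elim (ur i ^ φ) fun j => uq j ^ φ) (fun o => o.elim (ar i) aq)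
      (fun o => o.elim (v i : ℤ) (c i)) (by
        intro o
        cases o with
        | none =>
          simp only [Option.elim]
          rw [Units.val_pow_eq_pow_val, hur i, ← hω, ← har i]
          push_cast
          rfl
        | some j =>
          simp only [Option.elim]
          rw [Units.val_pow_eq_pow_val, huq j, ← hω, ← haq j]
          push_cast
          rfl) (by
        rw [Fintype.prod_option]
        simp only [Option.elim]
        have e1 := congrArg (fun t => t ^ φ) (hrel i)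
        simp only [one_pow] at e1
        rw [mul_pow, ← Finset.prod_pow] at e1
        rw [← e1]
        congr 1
        · rw [zpow_natCast, ← pow_mul, ← pow_mul, mul_comm]
        · apply Finset.prod_congr rfl
          intro j _
          rw [← zpow_natCast, ← zpow_natCast, ← zpow_mul, ← zpow_mul, mul_comm])
    rw [Fintype.sum_option] at h1
    exact h1
  -- the auxiliary data
  obtain ⟨V, hV⟩ : ∃ V : ℕ, V = ∏ i, v i := ⟨_, rfl⟩
  obtain ⟨W, hW⟩ : ∃ W : Fin k → ℕ, W = fun i => ∏ i' ∈ univ.erase i, v i' := ⟨_, rfl⟩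
  have hVW : ∀ i, V = v i * W i := by
    intro i
    rw [hV, hW]
    exact (Finset.mul_prod_erase univ v (mem_univ i)).symm
  have hV0 : 0 < V := by rw [hV]; exact Finset.prod_pos fun i _ => hv0 i
  have hVle : V ≤ 2 ^ (k * S) := by
    rw [hV]
    calc ∏ i, v i ≤ ∏ _i : Fin k, 2 ^ S := Finset.prod_le_prod' fun i _ => hv i
      _ = 2 ^ (k * S) := by rw [Finset.prod_const, Finset.card_univ, Fintype.card_fin, ← pow_mul,
          mul_comm]
  have hWle : ∀ i, W i * 2 ^ S ≤ 2 ^ (k * S) := by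
    intro i
    rw [hW]
    have hk : 1 ≤ k := by
      have := i.2
      omega
    calc (∏ i' ∈ univ.erase i, v i') * 2 ^ S ≤ (∏ _i' ∈ univ.erase i, 2 ^ S) * 2 ^ S :=
          Nat.mul_le_mul_right _ (Finset.prod_le_prod' fun i _ => hv i)
      _ = 2 ^ (k * S) := by
          rw [Finset.prod_const, Finset.card_erase_of_mem (mem_univ i), Finset.card_univ,
            Fintype.card_fin, ← pow_succ, ← pow_mul, mul_comm]
          congr 2
          omega
  obtain ⟨δ, hδ⟩ : ∃ δ : {l // l ∈ I'} → Fin n → ℤ, δ = fun l j =>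
      - ∑ i ∈ l.1, (W i : ℤ) * c i j := ⟨_, rfl⟩
  refine iter (p := p) (ι := {l // l ∈ I'}) (n := n) (E := E) (K := K) (J := J) (Z0 := Z0) (N := N)
    (Δ := Δ) (Xs := Xs) (ν := ν) (τ := τ) (T0 := T0) hXs1 hτ hT0
    (by rw [Fintype.card_coe, hI'card]) h3 h4 h5 h6 (by omega) δ
    (fun l => ((ρ * mon l.1 : ℕ) : ℤ)) A ((V : ℤ) * a0) (fun j => (aq j : ℤ)) (φ * V)
    (Nat.mul_pos hφ0 hV0).ne' ?_ (by omega) (by omega) ?_ ?_ ?_ ?_ ?_
  · -- the valuation of `β`
    have h1 : p ^ padicValNat p (φ * V) ∣ φ * V := pow_padicValNat_dvd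
    have h3' : p ^ padicValNat p (φ * V) ≤ φ * V := Nat.le_of_dvd (Nat.mul_pos hφ0 hV0) h1
    have h4' : 2 ^ padicValNat p (φ * V) ≤ 2 ^ ν := by
      calc 2 ^ padicValNat p (φ * V) ≤ p ^ padicValNat p (φ * V) := Nat.pow_le_pow_left hp2 _
        _ ≤ φ * V := h3'
        _ ≤ 2 ^ (2 * h) * 2 ^ (k * S) := Nat.mul_le_mul hφle hVle
        _ = 2 ^ ν := by rw [hν, pow_add]
    exact (Nat.pow_le_pow_iff_right (by norm_num)).1 h4'
  · intro l
    have h1 := hA l
    have h2' := congrArg (ZMod.castHom (pow_dvd_pow p (show E ≤ E + 2 by omega)) (ZMod (p ^ E))) h1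
    rw [map_natCast, map_pow, hω] at h2'
    have h3' := PadicInt.zmod_cast_comp_toZModPow (p := p) E (E + 2) (by omega)
    have h4' := congrArg (fun f : ℤ_[p] →+* ZMod (p ^ E) => f (EE p K 1)) h3'
    simp only [RingHom.comp_apply] at h4'
    rw [h4'] at h2'
    rw [← h2']
    push_cast
    rfl
  · intro l
    have h1 := hAlin l
    have e1 : (((φ * V : ℕ) : ℤ)) * (A l : ℤ) - ((V : ℤ) * a0 + ∑ j, (aq j : ℤ) * δ l j) =
        (V : ℤ) * (((A l * φ : ℕ) : ℤ) - ((a0 + ∑ i ∈ l.1, ar i : ℕ) : ℤ)) +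
        ∑ i ∈ l.1, (W i : ℤ) * ((v i : ℤ) * ar i + ∑ j, c i j * aq j) := by
      have e2 : ∑ i ∈ l.1, (W i : ℤ) * ((v i : ℤ) * ar i + ∑ j, c i j * aq j) =
          (V : ℤ) * (∑ i ∈ l.1, (ar i : ℤ)) +
          ∑ j, (aq j : ℤ) * ∑ i ∈ l.1, (W i : ℤ) * c i j := by
        rw [Finset.mul_sum]
        simp_rw [Finset.mul_sum]
        rw [Finset.sum_comm (s := (univ : Finset (Fin n))), ← Finset.sum_add_distrib]
        apply Finset.sum_congr rfl
        intro i _
        rw [mul_add, Finset.mul_sum]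
        congr 1
        · have := hVW i
          rw [this]
          push_cast
          ring
        · apply Finset.sum_congr rfl
          intro j _
          ring
      have e3 : ∑ j, (aq j : ℤ) * δ l j =
          - ∑ j, (aq j : ℤ) * ∑ i ∈ l.1, (W i : ℤ) * c i j := by
        rw [← Finset.sum_neg_distrib]
        apply Finset.sum_congr rfl
        intro j _
        rw [hδ]
        ring
      rw [e2, e3]
      push_cast
      ring
    rw [e1]
    apply dvd_add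
    · exact Dvd.dvd.mul_left h1 _
    · apply Finset.dvd_sum
      intro i _
      exact Dvd.dvd.mul_left (hrellin i) _
  · -- size of `δ`
    intro l j
    rw [hδ]
    have hlw : l.1.card = w := hIw l.1 l.2
    calc |-∑ i ∈ l.1, (W i : ℤ) * c i j| = |∑ i ∈ l.1, (W i : ℤ) * c i j| := abs_neg _
      _ ≤ ∑ _i ∈ l.1, (2 : ℤ) ^ (k * S) := by
          refine (Finset.abs_sum_le_sum_abs _ _).trans (Finset.sum_le_sum fun i _ => ?_)
          rw [abs_mul, Nat.abs_cast]
          have h1 : (W i : ℤ) * 2 ^ S ≤ 2 ^ (k * S) := by exact_mod_cast hWle i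
          refine le_trans ?_ h1
          exact mul_le_mul_of_nonneg_left (hc i j) (by positivity)
      _ = (w : ℤ) * 2 ^ (k * S) := by
          rw [Finset.sum_const, hlw, nsmul_eq_mul]
      _ ≤ 2 ^ w * 2 ^ (k * S) := by
          apply mul_le_mul_of_nonneg_right _ (by positivity)
          exact_mod_cast Nat.lt_two_pow_self.le
      _ = 2 ^ Δ := by rw [hΔ, pow_add]; ring
  · -- size of `x`
    intro l
    simp only [Nat.abs_cast]
    have hlw : l.1.card = w := hIw l.1 l.2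
    have h1 : mon l.1 ≤ 2 ^ (h * w) := by
      rw [hmon]
      calc ∏ i ∈ l.1, r i ≤ ∏ _i ∈ l.1, 2 ^ h := Finset.prod_le_prod' fun i _ => hr i
        _ = _ := by rw [Finset.prod_const, hlw, ← pow_mul]
    have h2' : ρ ≤ 2 ^ (2 * h) := by
      refine hρlt.le.trans ?_
      calc p ^ 2 ≤ (2 ^ h) ^ 2 := Nat.pow_le_pow_left hph 2
        _ = 2 ^ (2 * h) := by rw [← pow_mul]; congr 1; ring
    have h3' : ρ * mon l.1 ≤ 2 ^ Xs := by
      rw [hXs, pow_add]
      exact Nat.mul_le_mul h2' h1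
    exact_mod_cast h3'
  · intro l l' hll
    apply Subtype.ext
    apply hinj
    have h1 : ρ * mon l.1 = ρ * mon l'.1 := by
      simp only [Nat.cast_inj] at hll
      exact hll
    exact Nat.eq_of_mul_eq_mul_left (by omega) h1

end Pool.Agent.TH867.SB
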