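import Pool.Agent.TH867.SB.Omega
import Pool.Agent.TH867.SB.Few

/-!
Sums of `(C log X) ^ ω(m)` over squarefree integers (helper867).
-/

set_option autoImplicit false

namespace Pool.Agent.TH867.SB

open Finset

/-- the choice of the auxiliary integer `A`, slightly smaller than `log X` -/
theorem choose_A {η : ℝ} (hη : 0 < η) (hη1 : η ≤ 1) (C0 : ℕ) : ∃ X0 : ℝ, 1 ≤ X0 ∧
    ∀ X : ℝ, X0 ≤ X → 100 ≤ Real.log (Real.log X) ∧
      (C0 : ℝ) + 1 ≤ Real.log (Real.log (Real.log X)) ∧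
      3 * Real.log (Real.log (Real.log X)) ≤ η * Real.log (Real.log X) ∧
      ∃ A : ℕ, 1 ≤ A ∧ (1 + Real.log X) ^ A ≤ X ^ η ∧
        (1 - η) * Real.log (Real.log X) ≤ Real.log A ∧
        Real.log X ≤ A * (2 * Real.log (Real.log X) ^ 2) := by
  obtain ⟨l0, hl0, hl0'⟩ := large_L (η1 := η / 2) (by positivity) C0
  refine ⟨Real.exp (Real.exp l0), Real.one_le_exp (Real.exp_pos _).le, fun X hX => ?_⟩
  have hX0 : 0 < X := lt_of_lt_of_le (Real.exp_pos _) hX
  obtain ⟨L, hL⟩ : ∃ L, L = Real.log X := ⟨_, rfl⟩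
  have hLL : Real.exp l0 ≤ L := by rw [hL, Real.le_log_iff_exp_le hX0]; exact hX
  have hL0 : 0 < L := lt_of_lt_of_le (Real.exp_pos _) hLL
  obtain ⟨lam, hlam⟩ : ∃ lam, lam = Real.log L := ⟨_, rfl⟩
  have hll : l0 ≤ lam := by rw [hlam, Real.le_log_iff_exp_le hL0]; exact hLL
  obtain ⟨hA0', hB, hC⟩ := hl0' lam hll
  have hlam100 : 100 ≤ lam := hl0.trans hll
  have hlam0 : 0 < lam := by linarith
  rw [← hL, ← hlam]
  have hloglam : 0 ≤ Real.log lam := Real.log_nonneg (by linarith)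
  have hηlam : η / 2 * lam ≤ 1 / 2 * lam := mul_le_mul_of_nonneg_right (by linarith) hlam0.le
  have hl2 := Real.log_two_lt_d9
  have hl2' := Real.log_two_gt_d9
  have h2 : 2 * lam ^ 2 ≤ L := by
    rw [← Real.log_le_log_iff (by positivity) hL0, Real.log_mul (by norm_num) (by positivity),
      Real.log_pow, ← hlam]
    push_cast
    linarith
  have hq : 1 ≤ L / (2 * lam ^ 2) := by rw [le_div_iff₀ (by positivity)]; linarith
  obtain ⟨A, hA⟩ : ∃ A, A = ⌊L / lam ^ 2⌋₊ := ⟨_, rfl⟩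
  have hAup : (A : ℝ) ≤ L / lam ^ 2 := by rw [hA]; exact Nat.floor_le (by positivity)
  have hAlow : L / (2 * lam ^ 2) ≤ A := by
    have h3 : L / lam ^ 2 < A + 1 := by rw [hA]; exact Nat.lt_floor_add_one _
    have h4 : L / lam ^ 2 = 2 * (L / (2 * lam ^ 2)) := by field_simp
    linarith
  have hA1 : 1 ≤ A := by
    have : (1 : ℝ) ≤ A := hq.trans hAlow
    exact_mod_cast this
  have hA0 : (0 : ℝ) < A := by exact_mod_cast hA1
  have hL100 : 100 ≤ L := by
    have : (100 : ℝ) ^ 2 ≤ lam ^ 2 := pow_le_pow_left₀ (by norm_num) hlam100 2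
    linarith
  have hXs : ∀ s : ℝ, X ^ s = Real.exp (s * L) := by
    intro s
    rw [Real.rpow_def_of_pos hX0, ← hL, mul_comm]
  refine ⟨hlam100, hA0', by linarith, A, hA1, ?_, ?_, ?_⟩
  · have e1 : 1 + L ≤ Real.exp (2 * lam) := by
      have e2 : Real.exp (2 * lam) = L * L := by
        rw [two_mul, Real.exp_add, hlam, Real.exp_log hL0]
      rw [e2]
      nlinarith only [hL100]
    rw [hXs]
    calc (1 + L) ^ A ≤ (Real.exp (2 * lam)) ^ A := pow_le_pow_left₀ (by linarith) e1 _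
      _ = Real.exp (A * (2 * lam)) := by rw [← Real.exp_nat_mul]
      _ ≤ Real.exp (η * L) := by
          apply Real.exp_le_exp.2
          have e3 : (A : ℝ) * (2 * lam) ≤ L / lam ^ 2 * (2 * lam) :=
            mul_le_mul_of_nonneg_right hAup (by positivity)
          have e4 : L / lam ^ 2 * (2 * lam) = 2 * L / lam := by field_simp
          have e5 : 2 * L / lam ≤ η * L := by
            rw [div_le_iff₀ hlam0]
            have e6 : 1 * L ≤ η / 2 * lam * L := mul_le_mul_of_nonneg_right hC hL0.le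
            have e7 : η * L * lam = 2 * (η / 2 * lam * L) := by ring
            rw [e7]
            linarith only [e6]
          linarith only [e3, e4, e5]
  · have e2 := Real.log_le_log (by positivity) hAlow
    rw [Real.log_div hL0.ne' (by positivity), Real.log_mul (by norm_num) (by positivity),
      Real.log_pow, ← hlam] at e2
    push_cast at e2
    linarith only [e2, hl2, hB, hC, hloglam, hA0', hlam100, (Nat.cast_nonneg C0 : (0 : ℝ) ≤ C0)]
  · rw [div_le_iff₀ (by positivity)] at hAlow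
    exact hAlow

theorem omega_aux {A Y m : ℕ} {X η L lam : ℝ} (hA1 : 1 ≤ A) (hX0 : 0 < X) (hL : L = Real.log X)
    (hη1 : η ≤ 1 / 4) (hlam0 : 0 < lam) (hL0 : 0 < L) (hYX : (Y : ℝ) ≤ X)
    (h1 : (1 + L) ^ A ≤ X ^ η) (h2 : (1 - η) * lam ≤ Real.log A) (hm : m ∈ SF Y) :
    (m.primeFactors.card : ℝ) * lam ≤ 2 * L := by
  have hm' := mem_SF.1 hm
  have hm0 : (0 : ℝ) < m := by exact_mod_cast hm'.1.1
  have hY1 : 1 ≤ Y := hm'.1.1.trans hm'.1.2
  have hY0 : (0 : ℝ) < Y := by exact_mod_cast hY1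
  have hA0 : (0 : ℝ) < A := by exact_mod_cast hA1
  have hlogY : Real.log (Y : ℝ) ≤ L := by rw [hL]; exact Real.log_le_log hY0 hYX
  have hlogY0 : 0 ≤ Real.log (Y : ℝ) := Real.log_natCast_nonneg _
  have hmX : (m : ℝ) ≤ X := le_trans (by exact_mod_cast hm'.1.2) hYX
  have e1 : (A : ℝ) ^ m.primeFactors.card / m ≤ X ^ η := by
    calc (A : ℝ) ^ m.primeFactors.card / m ≤ ∑ m ∈ SF Y, (A : ℝ) ^ m.primeFactors.card / m :=
          Finset.single_le_sum (f := fun m : ℕ => (A : ℝ) ^ m.primeFactors.card / m)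
            (fun _ _ => by positivity) hm
      _ ≤ (1 + Real.log Y) ^ A := sum_A A Y
      _ ≤ (1 + L) ^ A := pow_le_pow_left₀ (by linarith) (by linarith) _
      _ ≤ X ^ η := h1
  rw [div_le_iff₀ hm0] at e1
  have e2 : (A : ℝ) ^ m.primeFactors.card ≤ X ^ η * X :=
    e1.trans (mul_le_mul_of_nonneg_left hmX (by positivity))
  have e3 := Real.log_le_log (by positivity) e2
  rw [Real.log_pow, Real.log_mul (by positivity) hX0.ne', Real.log_rpow hX0, ← hL] at e3
  have e4 : (m.primeFactors.card : ℝ) * ((1 - η) * lam) ≤ m.primeFactors.card * Real.log A :=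
    mul_le_mul_of_nonneg_left h2 (Nat.cast_nonneg _)
  have e5 : (m.primeFactors.card : ℝ) * (3 / 4 * lam) ≤
      (m.primeFactors.card : ℝ) * ((1 - η) * lam) := by
    refine mul_le_mul_of_nonneg_left ?_ (Nat.cast_nonneg _)
    exact mul_le_mul_of_nonneg_right (by linarith) hlam0.le
  have e6 : η * L ≤ 1 / 4 * L := mul_le_mul_of_nonneg_right hη1 hL0.le
  have e7 : (m.primeFactors.card : ℝ) * (3 / 4 * lam) = 3 / 4 * (m.primeFactors.card * lam) := by
    ring
  rw [e7] at e5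
  linarith only [e3, e4, e5, e6, hL0]

theorem omega_le : ∃ X0 : ℝ, 1 ≤ X0 ∧ ∀ X : ℝ, X0 ≤ X → ∀ m ∈ SF ⌊X⌋₊,
    (m.primeFactors.card : ℝ) ≤ 2 * Real.log X / Real.log (Real.log X) := by
  obtain ⟨X0, hX01, h⟩ := choose_A (η := 1 / 4) (by norm_num) (by norm_num) 0
  refine ⟨max X0 3, hX01.trans (le_max_left _ _), fun X hX m hm => ?_⟩
  obtain ⟨a1, -, -, A, a2, a3, a4, -⟩ := h X ((le_max_left _ _).trans hX)
  have hX3 : 3 ≤ X := (le_max_right _ _).trans hX
  have hL0 : 0 < Real.log X := Real.log_pos (by linarith)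
  rw [le_div_iff₀ (by linarith)]
  exact omega_aux a2 (by linarith) rfl le_rfl (by linarith) hL0 (Nat.floor_le (by linarith)) a3 a4 hm

theorem sum_big {C ε : ℝ} (hC : 1 ≤ C) (hε : 0 < ε) : ∃ X0 : ℝ, 1 ≤ X0 ∧ ∀ X : ℝ, X0 ≤ X →
    ∀ Y : ℕ, (Y : ℝ) ≤ X →
    ∑ m ∈ SF Y, (C * Real.log X) ^ m.primeFactors.card ≤ Y * X ^ ε := by
  obtain ⟨η, hη⟩ : ∃ η, η = min (ε / 4) (1 / 4) := ⟨_, rfl⟩
  have hη0 : 0 < η := by rw [hη]; exact lt_min (by positivity) (by norm_num)
  have hηε : 4 * η ≤ ε := by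
    have : η ≤ ε / 4 := by rw [hη]; exact min_le_left _ _
    linarith
  have hη1 : η ≤ 1 / 4 := by rw [hη]; exact min_le_right _ _
  obtain ⟨C0, hC0⟩ : ∃ C0 : ℕ, Real.log (2 * C) ≤ C0 := exists_nat_ge _
  obtain ⟨X0, hX01, h⟩ := choose_A hη0 (by linarith) C0
  refine ⟨max X0 3, hX01.trans (le_max_left _ _), fun X hX Y hY => ?_⟩
  obtain ⟨a1, b1, b2, A, a2, a3, a4, a5⟩ := h X ((le_max_left _ _).trans hX)
  have hX3 : 3 ≤ X := (le_max_right _ _).trans hX
  have hX0 : 0 < X := by linarith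
  obtain ⟨L, hL⟩ : ∃ L, L = Real.log X := ⟨_, rfl⟩
  have hL0 : 0 < L := by rw [hL]; exact Real.log_pos (by linarith)
  rw [← hL] at a1 b1 b2 a3 a4 a5 ⊢
  obtain ⟨lam, hlam⟩ : ∃ lam, lam = Real.log L := ⟨_, rfl⟩
  rw [← hlam] at a1 b1 b2 a4 a5
  have hlam0 : 0 < lam := by linarith
  have hA0 : (0 : ℝ) < A := by exact_mod_cast a2
  have hXs : ∀ s : ℝ, X ^ s = Real.exp (s * L) := by
    intro s
    rw [Real.rpow_def_of_pos hX0, ← hL, mul_comm]
  have hC2 : (1 : ℝ) ≤ 2 * C * lam ^ 2 := by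
    have h1 : (1 : ℝ) ≤ lam ^ 2 := one_le_pow₀ (by linarith)
    nlinarith
  have hterm : ∀ m ∈ SF Y, (C * L) ^ m.primeFactors.card ≤
      Y * X ^ (2 * η) * ((A : ℝ) ^ m.primeFactors.card / m) := by
    intro m hm
    have hm' := mem_SF.1 hm
    have hm0 : (0 : ℝ) < m := by exact_mod_cast hm'.1.1
    have hom := omega_aux a2 hX0 hL hη1 hlam0 hL0 hY a3 a4 hm
    have e1 : (C * L) ^ m.primeFactors.card ≤
        (A : ℝ) ^ m.primeFactors.card * (2 * C * lam ^ 2) ^ m.primeFactors.card := by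
      rw [← mul_pow]
      refine pow_le_pow_left₀ (by positivity) ?_ _
      calc C * L ≤ C * (A * (2 * lam ^ 2)) := mul_le_mul_of_nonneg_left a5 (by linarith)
        _ = A * (2 * C * lam ^ 2) := by ring
    have e2 : (2 * C * lam ^ 2) ^ m.primeFactors.card ≤ X ^ (2 * η) := by
      rw [hXs, ← Real.log_le_iff_le_exp (by positivity), Real.log_pow,
        Real.log_mul (by positivity) (by positivity), Real.log_pow]
      push_cast
      have f1 : Real.log (2 * C) + 2 * Real.log lam ≤ η * lam := by linarith only [hC0, b1, b2]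
      calc (m.primeFactors.card : ℝ) * (Real.log (2 * C) + 2 * Real.log lam) ≤
          m.primeFactors.card * (η * lam) := mul_le_mul_of_nonneg_left f1 (Nat.cast_nonneg _)
        _ = η * (m.primeFactors.card * lam) := by ring
        _ ≤ η * (2 * L) := mul_le_mul_of_nonneg_left hom hη0.le
        _ = 2 * η * L := by ring
    have e3 : (1 : ℝ) ≤ Y / m := by
      rw [le_div_iff₀ hm0, one_mul]
      exact_mod_cast hm'.1.2
    calc (C * L) ^ m.primeFactors.card ≤ (A : ℝ) ^ m.primeFactors.card * X ^ (2 * η) :=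
          e1.trans (mul_le_mul_of_nonneg_left e2 (by positivity))
      _ = 1 * ((A : ℝ) ^ m.primeFactors.card * X ^ (2 * η)) := (one_mul _).symm
      _ ≤ (Y / m) * ((A : ℝ) ^ m.primeFactors.card * X ^ (2 * η)) :=
          mul_le_mul_of_nonneg_right e3 (by positivity)
      _ = _ := by ring
  refine (Finset.sum_le_sum hterm).trans ?_
  rw [← Finset.mul_sum]
  have h5 : ∑ m ∈ SF Y, (A : ℝ) ^ m.primeFactors.card / m ≤ X ^ η := by
    refine (sum_A A Y).trans (le_trans (pow_le_pow_left₀ ?_ ?_ _) a3)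
    · have : 0 ≤ Real.log (Y : ℝ) := Real.log_natCast_nonneg _
      linarith
    · rcases Nat.eq_zero_or_pos Y with h6 | h6
      · rw [h6, Nat.cast_zero, Real.log_zero]
        linarith
      · have h7 : (0 : ℝ) < Y := by exact_mod_cast h6
        have := Real.log_le_log h7 hY
        linarith
  calc (Y : ℝ) * X ^ (2 * η) * ∑ m ∈ SF Y, (A : ℝ) ^ m.primeFactors.card / m ≤
      Y * X ^ (2 * η) * X ^ η := mul_le_mul_of_nonneg_left h5 (by positivity)
    _ = Y * (X ^ (2 * η) * X ^ η) := by ring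
    _ = Y * X ^ (2 * η + η) := by rw [← Real.rpow_add hX0]
    _ ≤ Y * X ^ ε := by
        refine mul_le_mul_of_nonneg_left ?_ (Nat.cast_nonneg _)
        exact Real.rpow_le_rpow_of_exponent_le (by linarith) (by linarith)

end Pool.Agent.TH867.SB
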