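import Pool.Agent.TH867.SB.Rel
import Pool.Agent.TH867.BK.Height

/-!
Given a set `P` of primes, only few primes `r ∉ P` occur in a second member `t B` of solutions of
`a + b = c` for which `t B` has no other primes outside `P`, `t C` has its primes in `P`, and
`p ^ M ∣ t A` for some `p ∈ P` (helper867).
-/

set_option autoImplicit false

namespace Pool.Agent.TH867.SB

open Finset
open Pool.Agent.TH867.SR (eq_prod log_eq_sum' Tr N3 N3_eq log_prime_nonneg)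
open Pool.Agent.TH867.BK (fact_le_log)

theorem sq_dvd {t : Fin 3 → ℕ} (h : Tr t) {i m j : Fin 3} (him : i ≠ m) (hij : i ≠ j)
    (hmj : m ≠ j) : ((t m : ℕ) : ℤ) ∣ (t i : ℤ) ^ 2 - (t j : ℤ) ^ 2 := by
  have hadd : (t 0 : ℤ) + t 1 = t 2 := by exact_mod_cast h.add
  have h0 : ((t 0 : ℕ) : ℤ) ∣ (t 1 : ℤ) ^ 2 - (t 2 : ℤ) ^ 2 :=
    ⟨-((t 1 : ℤ) + t 2), by rw [← hadd]; ring⟩
  have h1 : ((t 1 : ℕ) : ℤ) ∣ (t 0 : ℤ) ^ 2 - (t 2 : ℤ) ^ 2 :=
    ⟨-((t 0 : ℤ) + t 2), by rw [← hadd]; ring⟩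
  have h2 : ((t 2 : ℕ) : ℤ) ∣ (t 0 : ℤ) ^ 2 - (t 1 : ℤ) ^ 2 :=
    ⟨(t 0 : ℤ) - t 1, by rw [← hadd]; ring⟩
  fin_cases i <;> fin_cases m <;> fin_cases j <;>
    first
      | exact absurd rfl him
      | exact absurd rfl hij
      | exact absurd rfl hmj
      | exact h0
      | exact h1
      | exact h2
      | (rw [← neg_sub]; exact (dvd_neg).2 h0)
      | (rw [← neg_sub]; exact (dvd_neg).2 h1)
      | (rw [← neg_sub]; exact (dvd_neg).2 h2)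

/-- the triple `t` witnesses the prime `r` for the set `P` -/
def Wit (P : Finset ℕ) (M S : ℕ) (r : ℕ) (s : Fin 3 × Fin 3 × Fin 3) (p : ℕ)
    (t : Fin 3 → ℕ) : Prop :=
  s.1 ≠ s.2.1 ∧ s.2.1 ≠ s.2.2 ∧ s.1 ≠ s.2.2 ∧ Tr t ∧ p ∈ P ∧ p ^ M ∣ t s.1 ∧ r ∣ t s.2.1 ∧
    (t s.2.1).primeFactors ⊆ insert r P ∧ (t s.2.2).primeFactors ⊆ P ∧ 2 * Nat.log 2 (t 2) ≤ 2 ^ S

theorem few_r {n k w h S J Z0 N M Xs τ T0 ν Δ : ℕ}
    (hXs : Xs = 2 * h + h * w) (hτ : τ = 8 * Xs) (hT0 : T0 = (J + 1) * τ)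
    (hν : ν = 2 * h + k * S) (hΔ : Δ = k * S + w)
    (h2 : (2 ^ h) ^ 2 * (2 * (Fintype.card (Mon n T0) * Z0)) ≤ k.choose w)
    (h3 : 2 * Fintype.card (Mon n T0) ≤ 2 ^ J)
    (h4 : 8 * (Δ * (J + 1)) ≤ Z0) (h5 : 2 * (Fintype.card (Mon n T0) * Z0) ≤ 2 ^ N)
    (h6 : 2 * N + 1 ≤ Z0)
    (h7 : 2 + ν * τ + (τ + τ ^ 2) * (2 ^ J * Z0) ≤ M)
    {P R : Finset ℕ} (hP : P.card = n + 1) (hPp : ∀ q ∈ P, q.Prime)
    (hRp : ∀ r ∈ R, r.Prime) (hPR : Disjoint P R)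
    (hPh : ∀ q ∈ P, q ≤ 2 ^ h) (hRh : ∀ r ∈ R, r ≤ 2 ^ h)
    (H : ∀ r ∈ R, ∃ s p t, Wit P M S r s p t) : R.card < 27 * (n + 1) * k := by
  classical
  by_contra hcon
  rw [not_lt] at hcon
  have hM : M ≠ 0 := by omega
  choose! gs gp t ht using H
  obtain ⟨g, hg⟩ : ∃ g : ℕ → (Fin 3 × Fin 3 × Fin 3) × ℕ, g = fun r => (gs r, gp r) := ⟨_, rfl⟩
  have hcard : ((univ : Finset (Fin 3 × Fin 3 × Fin 3)) ×ˢ P).card * k ≤ R.card := by
    rw [Finset.card_product, Finset.card_univ, hP]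
    exact hcon
  have hne : ((univ : Finset (Fin 3 × Fin 3 × Fin 3)) ×ˢ P).Nonempty := by
    rw [Finset.nonempty_product]
    refine ⟨univ_nonempty, Finset.card_pos.1 (by omega)⟩
  obtain ⟨ip, hip, hfib⟩ := Finset.exists_le_card_fiber_of_mul_le_card_of_maps_to
    (s := R) (t := (univ : Finset (Fin 3 × Fin 3 × Fin 3)) ×ˢ P) (f := g) (n := k)
    (fun r hr => Finset.mem_product.2 ⟨mem_univ _, by rw [hg]; exact (ht r hr).2.2.2.2.1⟩) hne hcard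
  obtain ⟨R', hR'sub, hR'card⟩ := Finset.exists_subset_card_eq hfib
  obtain ⟨s, p⟩ := ip
  have hpP : p ∈ P := (Finset.mem_product.1 hip).2
  have hpp := hPp p hpP
  have hR'R : R' ⊆ R := fun r hr => (Finset.mem_filter.1 (hR'sub hr)).1
  have hR'g : ∀ r ∈ R', Wit P M S r s p (t r) := by
    intro r hr
    have h1 := ht r (hR'R hr)
    have h2 := (Finset.mem_filter.1 (hR'sub hr)).2
    rw [hg, Prod.mk.injEq] at h2
    rwa [h2.1, h2.2] at h1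
  have hpd : ∀ r ∈ R', p ∣ t r s.1 := fun r hr =>
    (dvd_pow_self p hM).trans (hR'g r hr).2.2.2.2.2.1
  have hph : p ≤ 2 ^ h := hPh p hpP
  refine primes_simul (p := p) (n := n) (k := k) (w := w) (h := h) (S := S) (J := J)
    (Z0 := Z0) (N := N) (M := M) (Xs := Xs) (τ := τ) (T0 := T0) (ν := ν) (Δ := Δ) hpp hph hXs
    hτ hT0 hν hΔ ((Nat.mul_le_mul_right _ (Nat.pow_le_pow_left hph 2)).trans h2) h3 h4 h5 h6 h7
    (Q := P.erase p) (R := R')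
    (by rw [Finset.card_erase_of_mem hpP, hP]; rfl) hR'card
    (fun q hq => hPp q (Finset.mem_of_mem_erase hq)) (fun r hr => hRp r (hR'R hr))
    (Finset.disjoint_of_subset_left (Finset.erase_subset _ _)
      (Finset.disjoint_of_subset_right hR'R hPR)) (Finset.notMem_erase _ _)
    (fun hp => Finset.disjoint_left.1 hPR hpP (hR'R hp))
    (fun r hr => hRh r (hR'R hr))
    (fun r => t r s.2.1) (fun r => t r s.2.2) (fun r hr => ((hR'g r hr).2.2.2.1.pos' _).ne')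
    (fun r hr => ((hR'g r hr).2.2.2.1.pos' _).ne') ?_ (fun r hr => (hR'g r hr).2.2.2.2.2.2.1)
    ?_ ?_ ?_ ?_
  · intro r hr q hq
    obtain ⟨b1, b2, b3, b4, b5, b6, b7, b8, b9, b10⟩ := hR'g r hr
    rcases Finset.mem_insert.1 (b8 hq) with h1 | h1
    · exact Finset.mem_insert.2 (Or.inl h1)
    · refine Finset.mem_insert.2 (Or.inr (Finset.mem_erase.2 ⟨?_, h1⟩))
      rintro rfl
      exact Nat.not_coprime_of_dvd_of_dvd hpp.one_lt (hpd r hr) (Nat.dvd_of_mem_primeFactors hq)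
        (b4.cop' b1)
  · intro r hr q hq
    obtain ⟨b1, b2, b3, b4, b5, b6, b7, b8, b9, b10⟩ := hR'g r hr
    refine Finset.mem_erase.2 ⟨?_, b9 hq⟩
    rintro rfl
    exact Nat.not_coprime_of_dvd_of_dvd hpp.one_lt (hpd r hr) (Nat.dvd_of_mem_primeFactors hq)
      (b4.cop' b3)
  · intro r hr
    obtain ⟨b1, b2, b3, b4, b5, b6, b7, b8, b9, b10⟩ := hR'g r hr
    exact dvd_trans (Int.natCast_dvd_natCast.2 b6) (sq_dvd b4 b1.symm b2 b3)
  · intro r hr q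
    obtain ⟨b1, b2, b3, b4, b5, b6, b7, b8, b9, b10⟩ := hR'g r hr
    have h1 := fact_le_log (q := q) (b4.pos' s.2.1) (b4.le2 s.2.1)
    omega
  · intro r hr q
    obtain ⟨b1, b2, b3, b4, b5, b6, b7, b8, b9, b10⟩ := hR'g r hr
    have h1 := fact_le_log (q := q) (b4.pos' s.2.2) (b4.le2 s.2.2)
    omega

end Pool.Agent.TH867.SB
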